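import Mathlib

/-!
The Rudin–Shapiro sequence: recurrences, block decomposition and finite tables.
-/

set_option autoImplicit false

namespace Pool.Agent.H114.RS

/-- the number of (possibly overlapping) occurrences of the block `11` in the binary expansion -/
def e11 (n : ℕ) : ℕ := ((Nat.digits 2 n).zip (Nat.digits 2 n).tail).count (1, 1)

/-- the Rudin–Shapiro sequence in Boolean form -/
def rb (n : ℕ) : Bool := decide (e11 n % 2 = 1)

lemma e11_zero : e11 0 = 0 := by simp [e11]

lemma e11_bit (n b : ℕ) (hb : b < 2) :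
    e11 (2 * n + b) = e11 n + (if b = 1 ∧ n % 2 = 1 then 1 else 0) := by
  rcases Nat.eq_zero_or_pos (2 * n + b) with h0 | h0
  · have h1 : n = 0 := by omega
    have h2 : b = 0 := by omega
    subst h1 h2; simp [e11]
  · have hd : Nat.digits 2 (2 * n + b) = b :: Nat.digits 2 n := by
      rw [Nat.digits_def' (by norm_num) h0]
      rw [show (2 * n + b) % 2 = b by omega, show (2 * n + b) / 2 = n by omega]
    unfold e11
    rw [hd, List.tail_cons]
    rcases Nat.eq_zero_or_pos n with h | h
    · subst h; simp
    · have hd2 : Nat.digits 2 n = (n % 2) :: Nat.digits 2 (n / 2) :=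
        Nat.digits_def' (by norm_num) h
      conv_lhs => rw [hd2]
      rw [List.zip_cons_cons, List.count_cons]
      conv_rhs => rw [hd2, List.tail_cons]
      have h2 : (((b, n % 2) == (1, 1)) = true) ↔ (b = 1 ∧ n % 2 = 1) := by simp
      by_cases h3 : b = 1 ∧ n % 2 = 1
      · rw [if_pos h3, if_pos (h2.2 h3)]
      · rw [if_neg h3, if_neg (fun h4 => h3 (h2.1 h4))]

lemma rb_zero : rb 0 = false := by simp [rb, e11_zero]

lemma rb_two_mul (n : ℕ) : rb (2 * n) = rb n := by
  have := e11_bit n 0 (by norm_num)
  simp only [add_zero, zero_ne_one, false_and, if_false] at this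
  simp [rb, this]

lemma rb_two_mul_add_one (n : ℕ) : rb (2 * n + 1) = xor (rb n) (decide (n % 2 = 1)) := by
  have := e11_bit n 1 (by norm_num)
  simp only [true_and] at this
  unfold rb
  rw [this]
  by_cases h : n % 2 = 1
  · rw [if_pos h]
    rcases Nat.mod_two_eq_zero_or_one (e11 n) with h1 | h1
    · have h2 : (e11 n + 1) % 2 = 1 := by omega
      simp [h, h1, h2]
    · have h2 : (e11 n + 1) % 2 = 0 := by omega
      simp [h, h1, h2]
  · rw [if_neg h]
    simp [h]

lemma mod_eq_iff_rb (m n : ℕ) : e11 m % 2 = e11 n % 2 ↔ rb m = rb n := by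
  unfold rb
  constructor
  · intro h; rw [h]
  · intro h
    by_cases h1 : e11 m % 2 = 1
    · simp only [h1, decide_true] at h
      rw [h1]
      exact (of_decide_eq_true h.symm).symm
    · simp only [h1, decide_false] at h
      have := of_decide_eq_false h.symm
      omega

/-- block decomposition -/
lemma rb_block (m : ℕ) : ∀ (a i : ℕ), i < 2 ^ (m + 1) →
    rb (2 ^ (m + 1) * a + i) = xor (xor (rb a) (rb i)) (decide (a % 2 = 1) && decide (2 ^ m ≤ i)) := by
  induction m with
  | zero =>
    intro a i hi
    have h2 : i = 0 ∨ i = 1 := by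
      rw [zero_add, pow_one] at hi; omega
    rcases h2 with rfl | rfl
    · rw [zero_add, pow_one, add_zero, rb_two_mul, rb_zero]
      simp
    · have h1 : rb 1 = false := by
        have := rb_two_mul_add_one 0
        simpa [rb_zero] using this
      rw [zero_add, pow_one, rb_two_mul_add_one, h1]
      simp
  | succ m ih =>
    intro a i hi
    have hp : 2 ^ (m + 1 + 1) = 2 * 2 ^ (m + 1) := by ring
    have hp' : 2 ^ (m + 1) = 2 * 2 ^ m := by ring
    rcases Nat.even_or_odd' i with ⟨j, rfl | rfl⟩
    · have e : 2 ^ (m + 1 + 1) * a + 2 * j = 2 * (2 ^ (m + 1) * a + j) := by ring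
      rw [e, rb_two_mul, rb_two_mul, ih a j (by omega)]
      have h1 : (2 ^ m ≤ j) ↔ (2 ^ (m + 1) ≤ 2 * j) := by omega
      rw [decide_eq_decide.2 h1]
    · have e : 2 ^ (m + 1 + 1) * a + (2 * j + 1) = 2 * (2 ^ (m + 1) * a + j) + 1 := by ring
      rw [e, rb_two_mul_add_one, rb_two_mul_add_one, ih a j (by omega)]
      have h1 : (2 ^ m ≤ j) ↔ (2 ^ (m + 1) ≤ 2 * j + 1) := by omega
      have h2 : (2 ^ (m + 1) * a + j) % 2 = 1 ↔ j % 2 = 1 := by
        rw [hp']
        have : 2 * 2 ^ m * a = 2 * (2 ^ m * a) := by ring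
        omega
      rw [decide_eq_decide.2 h1, decide_eq_decide.2 h2]
      generalize rb a = x
      generalize rb j = y
      generalize decide (a % 2 = 1) = z
      generalize decide (2 ^ (m + 1) ≤ 2 * j + 1) = w
      generalize decide (j % 2 = 1) = v
      revert x y z w v
      decide

/-- the first `4096` values as a bit string -/
def C : ℕ :=
  0xb8b7b848b8b747b7b8b7b8484748b848b8b7b848b8b747b7474847b7b8b747b7b8b7b848b8b747b7b8b7b8484748b848474847b74748b848b8b7b8484748b848b8b7b848b8b747b7b8b7b8484748b848b8b7b848b8b747b7474847b7b8b747b7474847b74748b848474847b7b8b747b7b8b7b848b8b747b7474847b7b8b747b7b8b7b848b8b747b7b8b7b8484748b848b8b7b848b8b747b7474847b7b8b747b7b8b7b848b8b747b7b8b7b8484748b848474847b74748b848b8b7b8484748b848474847b74748b848474847b7b8b747b7474847b74748b848b8b7b8484748b848b8b7b848b8b747b7b8b7b8484748b848474847b74748b848b8b7b8484748b848474847b74748b848474847b7b8b747b7474847b74748b848b8b7b8484748b848474847b74748b848474847b7b8b747b7b8b7b848b8b747b7474847b7b8b747b7474847b74748b848474847b7b8b747b7474847b74748b848b8b7b8484748b848b8b7b848b8b747b7b8b7b8484748b848474847b74748b848b8b7b8484748b848b8b7b848b8b747b7b8b7b8484748b848b8b7b848b8b747b7474847b7b8b747b7b8b7b848b8b747b7b8b7b8484748b848474847b74748b848b8b7b8484748b848474847b74748b848474847b7b8b747b7474847b74748b848b8b7b8484748b848b8b7b848b8b747b7b8b7b8484748b848474847b74748b848b8b7b8484748b848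

lemma rb_C : ∀ i < 4096, rb i = Nat.testBit C i := by
  have h0 : ∀ j < 2048, Nat.testBit C (2 * j) = Nat.testBit C j ∧
      Nat.testBit C (2 * j + 1) = xor (Nat.testBit C j) (decide (j % 2 = 1)) := by decide +kernel
  intro i
  induction i using Nat.strong_induction_on with
  | _ i ih =>
    intro hi
    rcases Nat.even_or_odd' i with ⟨j, rfl | rfl⟩
    · rcases Nat.eq_zero_or_pos j with h | h
      · subst h
        rw [Nat.mul_zero, rb_zero]
        decide +kernel
      · rw [rb_two_mul, ih j (by omega) (by omega), (h0 j (by omega)).1]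
    · rw [rb_two_mul_add_one, ih j (by omega) (by omega), (h0 j (by omega)).2]

/-! ### Windows of two blocks of length `128` -/

/-- values on two consecutive blocks of length `128`; `p`: parity of the first block index, `x`, `y`
values of the sequence at the two block indices -/
def win (p x y : Bool) (j : ℕ) : Bool :=
  if j < 128 then xor (xor x (Nat.testBit C j)) (p && decide (64 ≤ j))
  else xor (xor y (Nat.testBit C (j - 128))) (!p && decide (64 ≤ j - 128))

lemma rb_win (a j : ℕ) (hj : j < 256) :
    rb (128 * a + j) = win (decide (a % 2 = 1)) (rb a) (rb (a + 1)) j := by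
  unfold win
  split_ifs with h
  · rw [← rb_C j (by omega)]
    exact rb_block 6 a j (by norm_num; exact h)
  · obtain ⟨i, rfl⟩ : ∃ i, j = 128 + i := ⟨j - 128, by omega⟩
    rw [show 128 + i - 128 = i by omega, ← rb_C i (by omega)]
    have := rb_block 6 (a + 1) i (by norm_num; omega)
    rw [show 128 * a + (128 + i) = 2 ^ (6 + 1) * (a + 1) + i by ring, this]
    congr 2
    rcases Nat.mod_two_eq_zero_or_one a with h1 | h1
    · have h2 : (a + 1) % 2 = 1 := by omega
      simp [h1, h2]
    · have h2 : (a + 1) % 2 = 0 := by omega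
      simp [h1, h2]

/-- bit of a Boolean -/
def bn (b : Bool) : ℕ := if b then 1 else 0

/-- index of a context -/
def ctx (p x y : Bool) : ℕ := bn p + 2 * bn x + 4 * bn y

lemma ctx_lt (p x y : Bool) : ctx p x y < 8 := by
  revert p x y; decide

/-- values of all windows at even positions -/
def Te : ℕ := 0x474847b7b8b747b7b8b7b848b8b747b7b8b7b848b8b747b7474847b7b8b747b7474847b7b8b747b7474847b74748b848b8b7b848b8b747b7b8b7b8484748b848b8b7b8484748b848b8b7b848b8b747b7474847b74748b848474847b7b8b747b7b8b7b8484748b848474847b74748b848474847b74748b848b8b7b8484748b848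

/-- values of all windows at odd positions -/
def To : ℕ := 0xede2ed1d121ded1d121d12e2121ded1d121d12e2121ded1dede2ed1d121ded1dede2ed1d121ded1dede2ed1dede212e2121d12e2121ded1d121d12e2ede212e2121d12e2ede212e2121d12e2121ded1dede2ed1dede212e2ede2ed1d121ded1d121d12e2ede212e2ede2ed1dede212e2ede2ed1dede212e2121d12e2ede212e2

lemma Te_spec : ∀ i < 128, ∀ p x y : Bool,
    Nat.testBit Te (128 * ctx p x y + i) = win p x y (2 * i) := by decide +kernel

lemma To_spec : ∀ i < 128, ∀ p x y : Bool,
    Nat.testBit To (128 * ctx p x y + i) = win p x y (2 * i + 1) := by decide +kernel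

end Pool.Agent.H114.RS
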