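import Pool.Agent.H114.RS.Path

/-!
Bit-parallel exclusion of long monochromatic progressions for a given small difference.
-/

set_option autoImplicit false
set_option maxRecDepth 100000

namespace Pool.Agent.H114.RS

def up : ℕ := 2 ^ 4096 - 2 ^ 2048
def ones : ℕ := 2 ^ 4096 - 1

/-- a block of length `4096` -/
def blk (z p : Bool) : ℕ := (C ^^^ cond z ones 0) ^^^ cond p up 0

/-- two blocks of length `4096` -/
def W (p x y : Bool) : ℕ := blk x p ||| (blk y (!p) <<< 4096)

lemma up_spec : ∀ i < 4096, Nat.testBit up i = decide (2048 ≤ i) := by decide +kernel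
lemma ones_spec : ∀ i < 4096, Nat.testBit ones i = true := by decide +kernel
lemma blk_lt : ∀ z p : Bool, blk z p < 2 ^ 4096 := by decide +kernel

lemma blk_spec (z p : Bool) (i : ℕ) (hi : i < 4096) :
    Nat.testBit (blk z p) i = xor (xor z (Nat.testBit C i)) (p && decide (2048 ≤ i)) := by
  unfold blk
  rw [Nat.testBit_xor, Nat.testBit_xor]
  cases z <;> cases p <;> simp [up_spec i hi, ones_spec i hi]

lemma rb_W (a i : ℕ) (hi : i < 8192) :
    rb (4096 * a + i) = Nat.testBit (W (decide (a % 2 = 1)) (rb a) (rb (a + 1))) i := by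
  unfold W
  rw [Nat.testBit_or, Nat.testBit_shiftLeft]
  rcases Nat.lt_or_ge i 4096 with h | h
  · rw [blk_spec _ _ i h, ← rb_C i h]
    have h1 : ¬ (4096 ≤ i) := by omega
    simp only [ge_iff_le, h1, decide_false, Bool.false_and, Bool.or_false]
    exact rb_block 11 a i (by norm_num; exact h)
  · obtain ⟨j, rfl⟩ : ∃ j, i = 4096 + j := ⟨i - 4096, by omega⟩
    rw [Nat.testBit_lt_two_pow (lt_of_lt_of_le (blk_lt _ _)
      (Nat.pow_le_pow_right (by norm_num) h)), show 4096 + j - 4096 = j by omega,
      blk_spec _ _ j (by omega), ← rb_C j (by omega)]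
    have h1 : 4096 ≤ 4096 + j := by omega
    simp only [ge_iff_le, h1, decide_true, Bool.true_and, Bool.false_or]
    have := rb_block 11 (a + 1) j (by norm_num; omega)
    rw [show 4096 * a + (4096 + j) = 2 ^ (11 + 1) * (a + 1) + j by ring, this]
    congr 2
    rcases Nat.mod_two_eq_zero_or_one a with h1 | h1
    · have h2 : (a + 1) % 2 = 1 := by omega
      simp [h1, h2]
    · have h2 : (a + 1) % 2 = 0 := by omega
      simp [h1, h2]

/-- starting points of progressions of ones -/
def apAnd (d : ℕ) : ℕ → ℕ → ℕ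
  | 0, _ => 2 ^ 4096 - 1
  | l + 1, V => apAnd d l V &&& (V >>> (l * d))

lemma apAnd_testBit (d V r : ℕ) (hr : r < 4096) : ∀ l, (∀ j < l, Nat.testBit V (r + j * d) = true) →
    Nat.testBit (apAnd d l V) r = true := by
  intro l
  induction l with
  | zero => intro _; exact ones_spec r hr
  | succ l ih =>
    intro h
    rw [apAnd, Nat.testBit_and, ih (fun j hj => h j (by omega)), Nat.testBit_shiftRight,
      show l * d + r = r + l * d by ring, h l (by omega)]
    rfl

/-- the check -/
def chkAP (d l : ℕ) : Bool :=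
  [(false, false, false), (false, false, true), (false, true, false), (false, true, true),
   (true, false, false), (true, false, true), (true, true, false), (true, true, true)].all
    fun c => Nat.beq (apAnd d l (W c.1 c.2.1 c.2.2)) 0 &&
      Nat.beq (apAnd d l (W c.1 c.2.1 c.2.2 ^^^ (2 ^ 8192 - 1))) 0

lemma comp_spec (V i : ℕ) (hi : i < 8192) :
    Nat.testBit (V ^^^ (2 ^ 8192 - 1)) i = !Nat.testBit V i := by
  rw [Nat.testBit_xor, Nat.testBit_two_pow_sub_one]
  simp [hi]

theorem not_mono_of_chk (d l : ℕ) (hc : chkAP d l = true) (hl : l * d ≤ 4096) (n : ℕ) :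
    ¬ Mono n d l := by
  intro h
  have hr : n % 4096 < 4096 := Nat.mod_lt _ (by norm_num)
  have e1 : n = 4096 * (n / 4096) + n % 4096 := (Nat.div_add_mod n 4096).symm
  generalize n % 4096 = r at *
  generalize n / 4096 = a at *
  subst e1
  have key : ∀ j < l, Nat.testBit (W (decide (a % 2 = 1)) (rb a) (rb (a + 1))) (r + j * d) =
      rb (4096 * a + r) := by
    intro j hj
    have h5 : j * d ≤ l * d := Nat.mul_le_mul_right _ hj.le
    rw [← rb_W a (r + j * d) (by omega), ← add_assoc]
    exact h j hj
  unfold chkAP at hc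
  rw [List.all_eq_true] at hc
  have h1 := hc (decide (a % 2 = 1), rb a, rb (a + 1)) (by
    generalize decide (a % 2 = 1) = x
    generalize rb a = y
    generalize rb (a + 1) = z
    cases x <;> cases y <;> cases z <;> simp)
  rw [Bool.and_eq_true] at h1
  obtain ⟨h2, h3⟩ := h1
  cases hb : rb (4096 * a + r) with
  | true =>
    have h4 := apAnd_testBit d _ r hr l (fun j hj => (key j hj).trans hb)
    rw [Nat.eq_of_beq_eq_true h2] at h4
    simp at h4
  | false =>
    have h4 := apAnd_testBit d (W (decide (a % 2 = 1)) (rb a) (rb (a + 1)) ^^^ (2 ^ 8192 - 1)) r hr l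
      (fun j hj => by
        have h5 : j * d ≤ l * d := Nat.mul_le_mul_right _ hj.le
        rw [comp_spec _ _ (by omega), key j hj, hb]; rfl)
    rw [Nat.eq_of_beq_eq_true h3] at h4
    simp at h4

/-- table for small differences -/
lemma chkSmall : ∀ i < 15, chkAP (2 * i + 1) 17 = true := by decide +kernel
lemma chkMid : ∀ i < 15, chkAP (2 * i + 33) 33 = true := by decide +kernel
lemma chk65 : chkAP 65 36 = true := by decide +kernel
lemma chkBig : ∀ i < 30, chkAP (2 * i + 67) 24 = true := by decide +kernel

end Pool.Agent.H114.RS
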