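import Pool.Agent.H114.RS.Brute

/-!
Bit-parallel exclusion of long monochromatic progressions: blocks of length `16384`.
-/

set_option autoImplicit false
set_option maxRecDepth 100000

namespace Pool.Agent.H114.RS

lemma rb_blk (a i : ℕ) (hi : i < 4096) :
    rb (4096 * a + i) = Nat.testBit (blk (rb a) (decide (a % 2 = 1))) i := by
  rw [blk_spec _ _ i hi, ← rb_C i hi]
  exact rb_block 11 a i (by norm_num; exact hi)

/-- the parity and the value of `4 a + j`, `j < 8`, in terms of `a % 2`, `rb a`, `rb (a + 1)` -/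
def vj (p x y : Bool) : ℕ → Bool
  | 0 => x
  | 1 => x
  | 2 => xor x p
  | 3 => xor (!x) p
  | 4 => y
  | 5 => y
  | 6 => xor y (!p)
  | _ => xor (!y) (!p)

def Wb (p x y : Bool) : ℕ :=
  blk (vj p x y 0) false ||| (blk (vj p x y 1) true <<< 4096) |||
  (blk (vj p x y 2) false <<< 8192) ||| (blk (vj p x y 3) true <<< 12288) |||
  (blk (vj p x y 4) false <<< 16384) ||| (blk (vj p x y 5) true <<< 20480) |||
  (blk (vj p x y 6) false <<< 24576) ||| (blk (vj p x y 7) true <<< 28672)

lemma vj_spec (a : ℕ) : ∀ j < 8,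
    rb (4 * a + j) = vj (decide (a % 2 = 1)) (rb a) (rb (a + 1)) j := by
  intro j hj
  have h0 : rb (4 * a) = rb a := by
    rw [show 4 * a = 2 * (2 * a) by ring, rb_two_mul, rb_two_mul]
  have h1 : rb (4 * a + 1) = rb a := by
    rw [show 4 * a + 1 = 2 * (2 * a) + 1 by ring, rb_two_mul_add_one, rb_two_mul]
    simp
  have h2 : rb (4 * a + 2) = xor (rb a) (decide (a % 2 = 1)) := by
    rw [show 4 * a + 2 = 2 * (2 * a + 1) by ring, rb_two_mul, rb_two_mul_add_one]
  have h3 : rb (4 * a + 3) = xor (!rb a) (decide (a % 2 = 1)) := by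
    rw [show 4 * a + 3 = 2 * (2 * a + 1) + 1 by ring, rb_two_mul_add_one, rb_two_mul_add_one]
    simp [Nat.add_mod]
  have hn : decide ((a + 1) % 2 = 1) = !decide (a % 2 = 1) := by
    rw [← decide_not]; exact decide_eq_decide.2 (by omega)
  have h4 : rb (4 * a + 4) = rb (a + 1) := by
    rw [show 4 * a + 4 = 2 * (2 * (a + 1)) by ring, rb_two_mul, rb_two_mul]
  have h5 : rb (4 * a + 5) = rb (a + 1) := by
    rw [show 4 * a + 5 = 2 * (2 * (a + 1)) + 1 by ring, rb_two_mul_add_one, rb_two_mul]
    simp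
  have h6 : rb (4 * a + 6) = xor (rb (a + 1)) (!decide (a % 2 = 1)) := by
    rw [show 4 * a + 6 = 2 * (2 * (a + 1) + 1) by ring, rb_two_mul, rb_two_mul_add_one, hn]
  have h7 : rb (4 * a + 7) = xor (!rb (a + 1)) (!decide (a % 2 = 1)) := by
    rw [show 4 * a + 7 = 2 * (2 * (a + 1) + 1) + 1 by ring, rb_two_mul_add_one,
      rb_two_mul_add_one, hn]
    simp [Nat.add_mod]
  interval_cases j
  · exact h0
  · exact h1
  · exact h2
  · exact h3
  · exact h4
  · exact h5
  · exact h6
  · exact h7

lemma tb_shift (z q : Bool) (c i : ℕ) (hi : ¬ (c ≤ i ∧ i < c + 4096)) :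
    Nat.testBit (blk z q <<< c) i = false := by
  rw [Nat.testBit_shiftLeft]
  rcases Nat.lt_or_ge i c with h | h
  · rw [decide_eq_false (by omega : ¬ (i ≥ c)), Bool.false_and]
  · rw [Nat.testBit_lt_two_pow (lt_of_lt_of_le (blk_lt _ _)
      (Nat.pow_le_pow_right (by norm_num) (by omega))), Bool.and_false]

lemma tb_shift' (z q : Bool) (c i : ℕ) :
    Nat.testBit (blk z q <<< c) (c + i) = Nat.testBit (blk z q) i := by
  rw [Nat.testBit_shiftLeft, decide_eq_true (by omega : c + i ≥ c), Bool.true_and,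
    Nat.add_sub_cancel_left]

lemma rb_Wb (a i : ℕ) (hi : i < 32768) :
    rb (16384 * a + i) = Nat.testBit (Wb (decide (a % 2 = 1)) (rb a) (rb (a + 1))) i := by
  obtain ⟨j, r, hj, hr, rfl⟩ : ∃ j r, j < 8 ∧ r < 4096 ∧ i = 4096 * j + r :=
    ⟨i / 4096, i % 4096, by omega, Nat.mod_lt _ (by norm_num), by omega⟩
  rw [show 16384 * a + (4096 * j + r) = 4096 * (4 * a + j) + r by ring, rb_blk _ _ hr,
    vj_spec a j hj, show (4 * a + j) % 2 = j % 2 by omega]
  have e0 : ∀ z q, blk z q = blk z q <<< 0 := fun z q => rfl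
  unfold Wb
  simp only [Nat.testBit_or]
  have hs : ∀ z q c, ¬ (c ≤ 4096 * j + r ∧ 4096 * j + r < c + 4096) →
      Nat.testBit (blk z q <<< c) (4096 * j + r) = false := fun z q c h => tb_shift z q c _ h
  have hs' : ∀ z q c, c = 4096 * j → Nat.testBit (blk z q <<< c) (4096 * j + r) =
      Nat.testBit (blk z q) r := by
    intro z q c h; subst h; exact tb_shift' _ _ _ _
  have k0 : j ≠ 0 → ∀ z q, Nat.testBit (blk z q) (4096 * j + r) = false := by
    intro h z q; rw [e0]; exact hs _ _ _ (by omega)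
  have k0' : j = 0 → ∀ z q, Nat.testBit (blk z q) (4096 * j + r) = Nat.testBit (blk z q) r := by
    intro h z q; subst h; rw [Nat.mul_zero, Nat.zero_add]
  interval_cases j
  · rw [k0' rfl, hs _ _ 4096 (by omega), hs _ _ 8192 (by omega), hs _ _ 12288 (by omega),
      hs _ _ 16384 (by omega), hs _ _ 20480 (by omega), hs _ _ 24576 (by omega),
      hs _ _ 28672 (by omega)]
    simp
  · rw [k0 (by norm_num), hs' _ _ 4096 (by norm_num), hs _ _ 8192 (by omega),
      hs _ _ 12288 (by omega),
      hs _ _ 16384 (by omega), hs _ _ 20480 (by omega), hs _ _ 24576 (by omega),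
      hs _ _ 28672 (by omega)]
    simp
  · rw [k0 (by norm_num), hs _ _ 4096 (by omega), hs' _ _ 8192 (by norm_num),
      hs _ _ 12288 (by omega),
      hs _ _ 16384 (by omega), hs _ _ 20480 (by omega), hs _ _ 24576 (by omega),
      hs _ _ 28672 (by omega)]
    simp
  · rw [k0 (by norm_num), hs _ _ 4096 (by omega), hs _ _ 8192 (by omega),
      hs' _ _ 12288 (by norm_num),
      hs _ _ 16384 (by omega), hs _ _ 20480 (by omega), hs _ _ 24576 (by omega),
      hs _ _ 28672 (by omega)]
    simp
  · rw [k0 (by norm_num), hs _ _ 4096 (by omega), hs _ _ 8192 (by omega),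
      hs _ _ 12288 (by omega),
      hs' _ _ 16384 (by norm_num), hs _ _ 20480 (by omega), hs _ _ 24576 (by omega),
      hs _ _ 28672 (by omega)]
    simp
  · rw [k0 (by norm_num), hs _ _ 4096 (by omega), hs _ _ 8192 (by omega),
      hs _ _ 12288 (by omega),
      hs _ _ 16384 (by omega), hs' _ _ 20480 (by norm_num), hs _ _ 24576 (by omega),
      hs _ _ 28672 (by omega)]
    simp
  · rw [k0 (by norm_num), hs _ _ 4096 (by omega), hs _ _ 8192 (by omega),
      hs _ _ 12288 (by omega),
      hs _ _ 16384 (by omega), hs _ _ 20480 (by omega), hs' _ _ 24576 (by norm_num),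
      hs _ _ 28672 (by omega)]
    simp
  · rw [k0 (by norm_num), hs _ _ 4096 (by omega), hs _ _ 8192 (by omega),
      hs _ _ 12288 (by omega),
      hs _ _ 16384 (by omega), hs _ _ 20480 (by omega), hs _ _ 24576 (by omega),
      hs' _ _ 28672 (by norm_num)]
    simp

/-- starting points of progressions of ones -/
def apB (d : ℕ) : ℕ → ℕ → ℕ
  | 0, _ => 2 ^ 16384 - 1
  | l + 1, V => apB d l V &&& (V >>> (l * d))

lemma apB_testBit (d V r : ℕ) (hr : r < 16384) : ∀ l, (∀ j < l, Nat.testBit V (r + j * d) = true) →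
    Nat.testBit (apB d l V) r = true := by
  intro l
  induction l with
  | zero =>
    intro _
    unfold apB
    rw [Nat.testBit_two_pow_sub_one]
    exact decide_eq_true hr
  | succ l ih =>
    intro h
    rw [apB, Nat.testBit_and, ih (fun j hj => h j (by omega)), Nat.testBit_shiftRight,
      show l * d + r = r + l * d by ring, h l (by omega)]
    rfl

/-- the check -/
def chkB (d l : ℕ) : Bool :=
  [(false, false, false), (false, false, true), (false, true, false), (false, true, true),
   (true, false, false), (true, false, true), (true, true, false), (true, true, true)].all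
    fun c => Nat.beq (apB d l (Wb c.1 c.2.1 c.2.2)) 0 &&
      Nat.beq (apB d l (Wb c.1 c.2.1 c.2.2 ^^^ (2 ^ 32768 - 1))) 0

lemma comp_specB (V i : ℕ) (hi : i < 32768) :
    Nat.testBit (V ^^^ (2 ^ 32768 - 1)) i = !Nat.testBit V i := by
  rw [Nat.testBit_xor, Nat.testBit_two_pow_sub_one, decide_eq_true hi, Bool.xor_true]

theorem not_mono_of_chkB (d l : ℕ) (hc : chkB d l = true) (hl : l * d ≤ 16384) (n : ℕ) :
    ¬ Mono n d l := by
  intro h
  have hr : n % 16384 < 16384 := Nat.mod_lt _ (by norm_num)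
  have e1 : n = 16384 * (n / 16384) + n % 16384 := (Nat.div_add_mod n 16384).symm
  generalize n % 16384 = r at *
  generalize n / 16384 = a at *
  subst e1
  have key : ∀ j < l, Nat.testBit (Wb (decide (a % 2 = 1)) (rb a) (rb (a + 1))) (r + j * d) =
      rb (16384 * a + r) := by
    intro j hj
    have h5 : j * d ≤ l * d := Nat.mul_le_mul_right _ hj.le
    rw [← rb_Wb a (r + j * d) (by omega), ← add_assoc]
    exact h j hj
  unfold chkB at hc
  rw [List.all_eq_true] at hc
  have h1 := hc (decide (a % 2 = 1), rb a, rb (a + 1)) (by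
    generalize decide (a % 2 = 1) = x
    generalize rb a = y
    generalize rb (a + 1) = z
    cases x <;> cases y <;> cases z <;> simp)
  rw [Bool.and_eq_true] at h1
  obtain ⟨h2, h3⟩ := h1
  cases hb : rb (16384 * a + r) with
  | true =>
    have h4 := apB_testBit d _ r hr l (fun j hj => (key j hj).trans hb)
    rw [Nat.eq_of_beq_eq_true h2] at h4
    simp at h4
  | false =>
    have h4 := apB_testBit d (Wb (decide (a % 2 = 1)) (rb a) (rb (a + 1)) ^^^ (2 ^ 32768 - 1)) r hr l
      (fun j hj => by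
        have h5 : j * d ≤ l * d := Nat.mul_le_mul_right _ hj.le
        rw [comp_specB _ _ (by omega), key j hj, hb]; rfl)
    rw [Nat.eq_of_beq_eq_true h3] at h4
    simp at h4

end Pool.Agent.H114.RS
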