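import Pool.Agent.H114.RS.Search

/-! Kernel computations for the search. -/

set_option autoImplicit false
set_option maxRecDepth 100000

namespace Pool.Agent.H114.RS

/-- wrap event near slope `8` -/
def lC : List ℕ := [0, 8, 16, 24, 32, 40, 47, 55, 63, 71, 79, 87]

/-- events near slope `16 / 3` -/
def lP : List ℕ := [0, 5, 11, 16, 21, 27, 32, 37, 43, 48, 54, 59, 64, 70, 75, 80, 86, 91]
def lM : List ℕ := [0, 6, 11, 16, 22, 27, 32, 38, 43, 48, 53, 59, 64, 69, 75, 80, 85, 91]

lemma chkC : Nat.beq (wfilt lC S0) 0 = true := by decide +kernel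
lemma chkP0 : Nat.beq (wfilt lP S0) 0 = true := by decide +kernel
lemma chkP1 : Nat.beq (wfilt (lP.map (· + 1)) S0) 0 = true := by decide +kernel
lemma chkM0 : Nat.beq (wfilt lM S0) 0 = true := by decide +kernel
lemma chkM1 : Nat.beq (wfilt (lM.map (· + 1)) S0) 0 = true := by decide +kernel

lemma chkA0 : srch 26 [0] 0 4 1 191 36 (filt S0 0) = true := by decide +kernel
lemma chkA1 : srch 26 [1] 1 4 1 191 36 (filt S0 1) = true := by decide +kernel

end Pool.Agent.H114.RS
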