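import Pool.Agent.H114.RS.Search

/-! Kernel computations for the search. -/

set_option autoImplicit false
set_option maxRecDepth 100000

namespace Pool.Agent.H114.RS

lemma chkB1_0 : srch 36 [0] 0 193 36 61 10 (filt S0 0) = true := by decide +kernel
lemma chkB1_1 : srch 36 [1] 1 193 36 61 10 (filt S0 1) = true := by decide +kernel

end Pool.Agent.H114.RS
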