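import Pool.Agent.H114.RS.Regions

/-!
Differences below `2 ^ k - 1`: at most `2 ^ (k - 1)` terms.
-/

set_option autoImplicit false

namespace Pool.Agent.H114.RS

/-- odd differences strictly between `2 ^ (k - 1)` and `2 ^ k - 1`, where `k = m + 3` -/
theorem odd_bound {n d m : ℕ} (hm : 2 ≤ m) (hd : d % 2 = 1) (h4 : 4 * 2 ^ m < d)
    (h8 : d + 3 ≤ 8 * 2 ^ m) : ¬ Mono n d (4 * 2 ^ m + 1) := by
  intro h
  rcases Nat.lt_or_ge m 5 with h5 | h5
  · have : m = 2 ∨ m = 3 ∨ m = 4 := by omega
    rcases this with rfl | rfl | rfl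
    · norm_num at h4 h8 h
      obtain ⟨i, hi, rfl⟩ : ∃ i, i < 15 ∧ d = 2 * i + 1 := ⟨d / 2, by omega, by omega⟩
      exact not_mono_of_chk _ 17 (chkSmall i hi) (by omega) n h
    · norm_num at h4 h8 h
      obtain ⟨i, hi, rfl⟩ : ∃ i, i < 15 ∧ d = 2 * i + 33 := ⟨(d - 33) / 2, by omega, by omega⟩
      exact not_mono_of_chk _ 33 (chkMid i hi) (by omega) n h
    · norm_num at h4 h8 h
      by_cases h65 : d = 65
      · subst h65
        exact not_mono_of_chk _ 36 chk65 (by norm_num) n (h.le (by norm_num))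
      · obtain ⟨i, hi, rfl⟩ : ∃ i, i < 30 ∧ d = 2 * i + 67 := ⟨(d - 67) / 2, by omega, by omega⟩
        exact not_mono_of_chk _ 24 (chkBig i hi) (by omega) n (h.le (by norm_num))
  · have h32 : 32 ≤ 2 ^ m := by
      calc 32 = 2 ^ 5 := by norm_num
        _ ≤ 2 ^ m := Nat.pow_le_pow_right (by norm_num) h5
    exact large hd h32 h4 h8 h

lemma chk31 : chkAP 31 33 = true := by decide +kernel

/-- weak bound for `d = 2 ^ (m + 3) - 1` -/
theorem pow_weak {n d m : ℕ} (hm : 2 ≤ m) (hdf : d + 1 = 8 * 2 ^ m) :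
    ¬ Mono n d (8 * 2 ^ m + 1) := by
  intro h
  rcases Nat.lt_or_ge m 3 with h3 | h3
  · have : m = 2 := by omega
    subst this
    norm_num at hdf h
    have : d = 31 := by omega
    subst this
    exact not_mono_of_chk _ 33 chk31 (by norm_num) n h
  · have h8 : 8 ≤ 2 ^ m := by
      calc 8 = 2 ^ 3 := by norm_num
        _ ≤ 2 ^ m := Nat.pow_le_pow_right (by norm_num) h3
    have hp2 : 2 ^ (m + 1) = 2 * 2 ^ m := by ring
    refine regionC (J := 6 * 2 ^ m) (by omega) hdf (by norm_num) (by omega) ?_ (h.le (by omega))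
    rw [Nat.div_one]; omega

/-! ### Even differences -/

/-- complement of the binary digits -/
lemma rb_compl (M : ℕ) : ∀ u, u < 2 ^ (M + 1) → rb (2 ^ (M + 1) - 1 - u) =
    xor (xor (rb u) (decide (M % 2 = 1))) (xor (decide (2 ^ M ≤ u)) (decide (u % 2 = 1))) := by
  induction M with
  | zero =>
    intro u hu
    have h1 : rb 1 = false := by
      have := rb_two_mul_add_one 0
      simpa [rb_zero] using this
    have : u = 0 ∨ u = 1 := by
      rw [zero_add, pow_one] at hu; omega
    rcases this with rfl | rfl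
    · norm_num [rb_zero, h1]
    · norm_num [rb_zero, h1]
  | succ M ih =>
    intro u hu
    have hp : 2 ^ (M + 1 + 1) = 2 * 2 ^ (M + 1) := by ring
    have hp' : 2 ^ (M + 1) = 2 * 2 ^ M := by ring
    have hpos : 0 < 2 ^ M := by positivity
    have hM : decide ((M + 1) % 2 = 1) = !decide (M % 2 = 1) := by
      rcases Nat.mod_two_eq_zero_or_one M with h | h
      · have : (M + 1) % 2 = 1 := by omega
        simp [h, this]
      · have : (M + 1) % 2 = 0 := by omega
        simp [h, this]
    rw [hM]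
    rcases Nat.even_or_odd' u with ⟨v, rfl | rfl⟩
    · have e : 2 ^ (M + 1 + 1) - 1 - 2 * v = 2 * (2 ^ (M + 1) - 1 - v) + 1 := by omega
      rw [e, rb_two_mul_add_one, rb_two_mul, ih v (by omega)]
      have h1 : (2 ^ (M + 1) ≤ 2 * v) ↔ (2 ^ M ≤ v) := by omega
      have d2 : decide ((2 * v) % 2 = 1) = false := decide_eq_false (by omega)
      have d3 : decide ((2 ^ (M + 1) - 1 - v) % 2 = 1) = !decide (v % 2 = 1) := by
        rw [← decide_not]
        exact decide_eq_decide.2 (by omega)
      rw [decide_eq_decide.2 h1, d2, d3]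
      generalize rb v = a
      generalize decide (M % 2 = 1) = b
      generalize decide (2 ^ M ≤ v) = c
      generalize decide (v % 2 = 1) = w
      revert a b c w
      decide
    · have e : 2 ^ (M + 1 + 1) - 1 - (2 * v + 1) = 2 * (2 ^ (M + 1) - 1 - v) := by omega
      rw [e, rb_two_mul, rb_two_mul_add_one, ih v (by omega)]
      have h1 : (2 ^ (M + 1) ≤ 2 * v + 1) ↔ (2 ^ M ≤ v) := by omega
      have d2 : decide ((2 * v + 1) % 2 = 1) = true := decide_eq_true (by omega)
      rw [decide_eq_decide.2 h1, d2]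
      generalize rb v = a
      generalize decide (M % 2 = 1) = b
      generalize decide (2 ^ M ≤ v) = c
      generalize decide (v % 2 = 1) = w
      revert a b c w
      decide

/-- halving an even difference -/
lemma Mono.half {n c l : ℕ} (h : Mono n (2 * c) l) : ∃ n', Mono n' c l := by
  rcases Nat.even_or_odd' n with ⟨a, rfl | rfl⟩
  · refine ⟨a, fun j hj => ?_⟩
    have h1 := h j hj
    rwa [show 2 * a + j * (2 * c) = 2 * (a + j * c) by ring, rb_two_mul, rb_two_mul] at h1
  · -- odd start: reflect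
    obtain ⟨M, hM⟩ : ∃ M, 2 * a + 1 + l * (2 * c) < 2 ^ M := ⟨_, Nat.lt_two_pow_self⟩
    have hpM : 2 ^ (M + 1) = 2 * 2 ^ M := by ring
    rcases Nat.eq_zero_or_pos l with hl | hl
    · subst hl
      exact ⟨0, fun j hj => absurd hj (Nat.not_lt_zero _)⟩
    -- `w j = 2 ^ M - 1 - a - j c`
    have hw : ∀ j < l, rb (2 ^ M - 1 - a - j * c) = rb (2 ^ M - 1 - a) := by
      have key : ∀ j < l, rb (2 ^ M - 1 - a - j * c) =
          xor (xor (rb (2 * a + 1 + j * (2 * c))) (decide (M % 2 = 1))) true := by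
        intro j hj
        have hjc : j * (2 * c) ≤ l * (2 * c) := Nat.mul_le_mul_right _ hj.le
        have e1 := rb_compl M (2 * a + 1 + j * (2 * c)) (by omega)
        have e2 : 2 ^ (M + 1) - 1 - (2 * a + 1 + j * (2 * c)) = 2 * (2 ^ M - 1 - a - j * c) := by
          have : j * (2 * c) = 2 * (j * c) := by ring
          omega
        have h1 : decide (2 ^ M ≤ 2 * a + 1 + j * (2 * c)) = false := decide_eq_false (by omega)
        have h2 : decide ((2 * a + 1 + j * (2 * c)) % 2 = 1) = true := by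
          have : j * (2 * c) = 2 * (j * c) := by ring
          exact decide_eq_true (by omega)
        rw [e2, rb_two_mul, h1, h2] at e1
        rw [e1]
        rfl
      intro j hj
      have k0 := key 0 hl
      rw [zero_mul, Nat.sub_zero, zero_mul, add_zero] at k0
      rw [key j hj, k0, h j hj]
    refine ⟨2 ^ M - 1 - a - (l - 1) * c, fun i hi => ?_⟩
    have hlc : (l - 1) * c = (l - 1 - i) * c + i * c := by
      rw [← Nat.add_mul]; congr 1; omega
    have hle : l * (2 * c) = 2 * ((l - 1) * c) + 2 * c := by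
      obtain ⟨l', rfl⟩ : ∃ l', l = l' + 1 := ⟨l - 1, by omega⟩
      rw [Nat.add_sub_cancel]; ring
    have e : 2 ^ M - 1 - a - (l - 1) * c + i * c = 2 ^ M - 1 - a - (l - 1 - i) * c := by omega
    rw [e, hw (l - 1 - i) (by omega), hw (l - 1) (by omega)]

/-- **The bound of `2 ^ (k - 1)` for all differences below `2 ^ k - 1`, `k ≥ 5`.** -/
theorem bound (k : ℕ) (hk : 5 ≤ k) (d : ℕ) : 1 ≤ d → d ≤ 2 ^ k - 2 →
    ∀ n, ¬ Mono n d (2 ^ (k - 1) + 1) := by
  induction d using Nat.strong_induction_on with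
  | _ d ih =>
    intro hd1 hd2 n h
    have hkp : 2 ^ k = 2 * 2 ^ (k - 1) := by
      rw [← pow_succ']; congr 1; omega
    have h16 : 16 ≤ 2 ^ (k - 1) := by
      calc 16 = 2 ^ 4 := by norm_num
        _ ≤ 2 ^ (k - 1) := Nat.pow_le_pow_right (by norm_num) (by omega)
    rcases Nat.even_or_odd' d with ⟨c, rfl | rfl⟩
    · obtain ⟨n', hn'⟩ := h.half
      exact ih c (by omega) (by omega) (by omega) n' hn'
    · rcases Nat.lt_or_ge c 8 with hc | hc
      · exact not_mono_of_chk (2 * c + 1) 17 (chkSmall c (by omega)) (by omega) n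
          (h.le (by omega))
      · obtain ⟨m, hm1, hm2⟩ : ∃ m, 2 ^ m ≤ c ∧ c < 2 ^ (m + 1) :=
          ⟨Nat.log 2 c, Nat.pow_log_le_self 2 (by omega),
            Nat.lt_pow_succ_log_self (by norm_num) c⟩
        have hm3 : 3 ≤ m := by
          by_contra hcon
          have : 2 ^ (m + 1) ≤ 2 ^ 3 := Nat.pow_le_pow_right (by norm_num) (by omega)
          omega
        obtain ⟨r, rfl⟩ : ∃ r, m = r + 1 := ⟨m - 1, by omega⟩
        have e1 : 2 ^ (r + 1) = 2 * 2 ^ r := by ring
        have e2 : 2 ^ (r + 1 + 1) = 4 * 2 ^ r := by ring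
        -- `4 * 2 ^ r < d < 8 * 2 ^ r`
        have hrk : r + 3 ≤ k := by
          by_contra hcon
          have h1 : 2 ^ k ≤ 2 ^ (r + 2) := Nat.pow_le_pow_right (by norm_num) (by omega)
          have h2 : 2 ^ (r + 2) = 4 * 2 ^ r := by ring
          omega
        by_cases hpow : 2 * c + 1 + 1 = 8 * 2 ^ r
        · have hlt : r + 3 < k := by
            by_contra hcon
            have : k = r + 3 := by omega
            subst this
            have h3 : 2 ^ (r + 3) = 8 * 2 ^ r := by ring
            omega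
          have h4 : 8 * 2 ^ r ≤ 2 ^ (k - 1) := by
            have h3 : 2 ^ (r + 3) = 8 * 2 ^ r := by ring
            rw [← h3]
            exact Nat.pow_le_pow_right (by norm_num) (by omega)
          exact pow_weak (by omega) hpow (h.le (by omega))
        · have h4 : 4 * 2 ^ r ≤ 2 ^ (k - 1) := by
            have h3 : 2 ^ (r + 2) = 4 * 2 ^ r := by ring
            rw [← h3]
            exact Nat.pow_le_pow_right (by norm_num) (by omega)
          exact odd_bound (m := r) (by omega) (by omega) (by omega) (by omega) (h.le (by omega))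

end Pool.Agent.H114.RS
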