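import Pool.Agent.H114.RS.Pow2

/-!
The difference `2 ^ k + 1`, `k = m + 1`: no progression with `2 ^ (k - 1) + 4` terms.
-/

set_option autoImplicit false

namespace Pool.Agent.H114.RS

lemma dec_add (x y : ℕ) : decide ((x + y) % 2 = 1) =
    xor (decide (x % 2 = 1)) (decide (y % 2 = 1)) := by
  rcases Nat.mod_two_eq_zero_or_one x with p | p <;>
    rcases Nat.mod_two_eq_zero_or_one y with q | q
  · rw [decide_eq_false (by omega : ¬ (x + y) % 2 = 1), p, q]; rfl
  · rw [decide_eq_true (by omega : (x + y) % 2 = 1), p, q]; rfl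
  · rw [decide_eq_true (by omega : (x + y) % 2 = 1), p, q]; rfl
  · rw [decide_eq_false (by omega : ¬ (x + y) % 2 = 1), p, q]; rfl

/-- same direction, odd sum -/
lemma same_odd (A B : ℕ) (e : Bool) (hs : (A + B) % 2 = 1)
    (h : ∀ i < 8, xor (v (A + i)) (v (B + i)) = e) : False := by
  wlog hA : True with H
  · exact H A B e hs h trivial
  obtain ⟨i0, hi0, a, b, ha, hb⟩ : ∃ i0, i0 < 2 ∧ ∃ a b, A + i0 = 2 * a ∧ B + i0 = 2 * b + 1 := by
    rcases Nat.mod_two_eq_zero_or_one A with h0 | h0
    · exact ⟨0, by norm_num, A / 2, B / 2, by omega, by omega⟩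
    · exact ⟨1, by norm_num, (A + 1) / 2, B / 2, by omega, by omega⟩
  apply v_not_const b (xor e (decide ((a + b) % 2 = 1)))
  intro s hs4
  have h1 := h (i0 + 2 * s) (by omega)
  rw [show A + (i0 + 2 * s) = 2 * (a + s) by omega,
    show B + (i0 + 2 * s) = 2 * (b + s) + 1 by omega, v_odd, v_even] at h1
  have h2 : decide ((a + b) % 2 = 1) =
      xor (decide ((a + s) % 2 = 1)) (decide ((b + s) % 2 = 1)) := by
    rw [← dec_add]
    exact decide_eq_decide.2 (by omega)
  rw [h2]
  clear h
  revert h1
  generalize v (b + s) = w1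
  generalize decide ((a + s) % 2 = 1) = w2
  generalize decide ((b + s) % 2 = 1) = w3
  revert e w1 w2 w3
  decide

/-- same direction, even sum: information modulo `4` -/
lemma same_even (A B : ℕ) (e : Bool) (hs : (A + B) % 2 = 0)
    (h : ∀ i < 2, xor (v (A + i)) (v (B + i)) = e) :
    (A + 4 * B) % 4 = (B + (if e then 2 else 0)) % 4 := by
  obtain ⟨i0, hi0, a, b, ha, hb⟩ : ∃ i0, i0 < 2 ∧ ∃ a b, A + i0 = 2 * a ∧ B + i0 = 2 * b := by
    rcases Nat.mod_two_eq_zero_or_one A with h0 | h0
    · exact ⟨0, by norm_num, A / 2, B / 2, by omega, by omega⟩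
    · exact ⟨1, by norm_num, (A + 1) / 2, (B + 1) / 2, by omega, by omega⟩
  have h1 := h i0 hi0
  rw [ha, hb, v_even, v_even, ← dec_add] at h1
  cases e with
  | true =>
    have := of_decide_eq_true h1
    simp only [if_true]
    omega
  | false =>
    have := of_decide_eq_false h1
    simp only [Bool.false_eq_true, if_false, add_zero]
    omega

lemma hi_same (A U : ℕ) (c : Bool)
    (h : ∀ i < 17, xor (xor (rb (A + i)) (rb (U + i))) (decide ((A + i) % 2 = 1)) = c) : False := by
  have hv : ∀ i < 16, xor (v (A + i)) (v (U + i)) = true := by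
    intro i hi
    have h1 := h i (by omega)
    have h2 := h (i + 1) (by omega)
    unfold v
    rw [show U + i + 1 = U + (i + 1) by ring, show A + i + 1 = A + (i + 1) by ring]
    have h3 : decide ((A + (i + 1)) % 2 = 1) = !decide ((A + i) % 2 = 1) := by
      rw [← decide_not]; exact decide_eq_decide.2 (by omega)
    rw [h3] at h2
    clear h
    revert h1 h2
    generalize rb (A + i) = w1
    generalize rb (A + (i + 1)) = w2
    generalize rb (U + i) = w3
    generalize rb (U + (i + 1)) = w4
    generalize decide ((A + i) % 2 = 1) = w5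
    revert c w1 w2 w3 w4 w5
    decide
  rcases Nat.mod_two_eq_zero_or_one (A + U) with hs | hs
  · have h4 := same_even A U true hs (fun i hi => hv i (by omega))
    simp only [if_true] at h4
    obtain ⟨i0, hi0, a, b, ha, hb⟩ : ∃ i0, i0 < 2 ∧ ∃ a b, A + i0 = 2 * a + 1 ∧
        U + i0 = 2 * b + 1 := by
      rcases Nat.mod_two_eq_zero_or_one A with h0 | h0
      · exact ⟨1, by norm_num, A / 2, U / 2, by omega, by omega⟩
      · exact ⟨0, by norm_num, A / 2, U / 2, by omega, by omega⟩
    refine same_odd a b false (by omega) (fun s hs8 => ?_)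
    have h1 := hv (i0 + 2 * s) (by omega)
    rw [show A + (i0 + 2 * s) = 2 * (a + s) + 1 by omega,
      show U + (i0 + 2 * s) = 2 * (b + s) + 1 by omega, v_odd, v_odd] at h1
    have h2 : xor (decide ((a + s) % 2 = 1)) (decide ((b + s) % 2 = 1)) = true := by
      rw [← dec_add]
      exact decide_eq_true (by omega)
    clear h
    revert h1 h2
    generalize v (a + s) = w1
    generalize v (b + s) = w2
    generalize decide ((a + s) % 2 = 1) = w3
    generalize decide ((b + s) % 2 = 1) = w4
    revert w1 w2 w3 w4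
    decide
  · exact same_odd A U true hs (fun i hi => hv i (by omega))

lemma lo_same (A U : ℕ) (c : Bool) (h : ∀ i < 17, xor (rb (A + i)) (rb (U + i)) = c) :
    (A + 8 * U) % 8 = U % 8 := by
  have hv : ∀ i < 16, xor (v (A + i)) (v (U + i)) = false := by
    intro i hi
    have h1 := h i (by omega)
    have h2 := h (i + 1) (by omega)
    unfold v
    rw [show U + i + 1 = U + (i + 1) by ring, show A + i + 1 = A + (i + 1) by ring]
    clear h
    revert h1 h2
    generalize rb (A + i) = w1
    generalize rb (A + (i + 1)) = w2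
    generalize rb (U + i) = w3
    generalize rb (U + (i + 1)) = w4
    revert c w1 w2 w3 w4
    decide
  rcases Nat.mod_two_eq_zero_or_one (A + U) with hs | hs
  · have h4 := same_even A U false hs (fun i hi => hv i (by omega))
    simp only [Bool.false_eq_true, if_false, add_zero] at h4
    obtain ⟨i0, hi0, a, b, ha, hb⟩ : ∃ i0, i0 < 2 ∧ ∃ a b, A + i0 = 2 * a + 1 ∧
        U + i0 = 2 * b + 1 := by
      rcases Nat.mod_two_eq_zero_or_one A with h0 | h0
      · exact ⟨1, by norm_num, A / 2, U / 2, by omega, by omega⟩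
      · exact ⟨0, by norm_num, A / 2, U / 2, by omega, by omega⟩
    have h5 := same_even a b false (by omega) (fun s hs2 => by
      have h1 := hv (i0 + 2 * s) (by omega)
      rw [show A + (i0 + 2 * s) = 2 * (a + s) + 1 by omega,
        show U + (i0 + 2 * s) = 2 * (b + s) + 1 by omega, v_odd, v_odd] at h1
      have h2 : xor (decide ((a + s) % 2 = 1)) (decide ((b + s) % 2 = 1)) = false := by
        rw [← dec_add]
        exact decide_eq_false (by omega)
      clear h
      revert h1 h2
      generalize v (a + s) = w1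
      generalize v (b + s) = w2
      generalize decide ((a + s) % 2 = 1) = w3
      generalize decide ((b + s) % 2 = 1) = w4
      revert w1 w2 w3 w4
      decide)
    simp only [Bool.false_eq_true, if_false, add_zero] at h5
    omega
  · exact (same_odd A U false hs (fun i hi => hv i (by omega))).elim

lemma sterm1 {m A U j d : ℕ} (hd : d = 2 ^ (m + 1) + 1) :
    2 ^ (m + 1) * A + U + j * d = 2 ^ (m + 1) * (A + j) + (U + j) := by
  rw [hd]; ring

lemma sterm2 {m A U al i d : ℕ} (hd : d = 2 ^ (m + 1) + 1) (hal : U + al = 2 ^ (m + 1)) :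
    2 ^ (m + 1) * A + U + (al + i) * d = 2 ^ (m + 1) * (A + al + 1 + i) + i := by
  have e1 : (al + i) * d = 2 ^ (m + 1) * (al + i) + (al + i) := by rw [hd]; ring
  have e2 : 2 ^ (m + 1) * (A + al + 1 + i) =
    2 ^ (m + 1) * A + 2 ^ (m + 1) * (al + i) + 2 ^ (m + 1) := by ring
  omega

lemma rb_two_pow (r : ℕ) : rb (2 ^ r) = false := by
  induction r with
  | zero => exact rb_one
  | succ r ih => rw [pow_succ, mul_comm, rb_two_mul]; exact ih

/-- start of the high phase at a multiple of `4` -/
lemma after_contra' {m A : ℕ} {c : Bool} (hm : 2 ≤ m) (hA : A % 4 = 0)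
    (h1 : xor (xor (rb A) (rb (2 ^ m))) (decide (A % 2 = 1)) = c)
    (h2 : xor (xor (rb (A + 1)) (rb (2 ^ m + 1))) (decide ((A + 1) % 2 = 1)) = c) : False := by
  obtain ⟨a, rfl⟩ : ∃ a, A = 2 * (2 * a) := ⟨A / 4, by omega⟩
  have v1 := v_even (2 * a)
  rw [decide_eq_false (by omega : ¬ 2 * a % 2 = 1)] at v1
  unfold v at v1
  have e1 : rb (2 ^ m + 1) = false := by
    obtain ⟨r, rfl⟩ : ∃ r, m = r + 1 := ⟨m - 1, by omega⟩
    rw [pow_succ, mul_comm, rb_two_mul_add_one, rb_two_pow]
    have : 2 ^ r % 2 = 0 := by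
      obtain ⟨s, rfl⟩ : ∃ s, r = s + 1 := ⟨r - 1, by omega⟩
      rw [pow_succ]; omega
    rw [this]; rfl
  rw [rb_two_pow, decide_eq_false (by omega : ¬ 2 * (2 * a) % 2 = 1)] at h1
  rw [e1, decide_eq_true (by omega : (2 * (2 * a) + 1) % 2 = 1)] at h2
  revert h1 h2 v1
  generalize rb (2 * (2 * a)) = w1
  generalize rb (2 * (2 * a) + 1) = w2
  revert c w1 w2
  decide

/-- **`d = 2 ^ (m + 1) + 1`.** -/
theorem plus_upper {m n : ℕ} (hm : 5 ≤ m) : ¬ Mono n (2 ^ (m + 1) + 1) (2 ^ m + 4) := by
  intro h
  have hpos : 0 < 2 ^ (m + 1) := by positivity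
  have hp : 2 ^ (m + 1) = 2 * 2 ^ m := by ring
  have h32 : 32 ≤ 2 ^ m := by
    calc 32 = 2 ^ 5 := by norm_num
      _ ≤ 2 ^ m := Nat.pow_le_pow_right (by norm_num) hm
  obtain ⟨r, hr⟩ : ∃ r, m = r + 3 := ⟨m - 3, by omega⟩
  have hp8 : 2 ^ m = 8 * 2 ^ r := by rw [hr]; ring
  have hn : n = 2 ^ (m + 1) * (n / 2 ^ (m + 1)) + n % 2 ^ (m + 1) := (Nat.div_add_mod _ _).symm
  have hlt := Nat.mod_lt n hpos
  generalize n % 2 ^ (m + 1) = U at *
  generalize n / 2 ^ (m + 1) = A at *
  subst hn
  set d := 2 ^ (m + 1) + 1 with hd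
  set c := rb (2 ^ (m + 1) * A + U) with hc
  rcases Nat.lt_or_ge U (2 ^ m) with hU | hU
  · -- start in the low phase
    obtain ⟨L0, hL0⟩ : ∃ L0, U + L0 = 2 ^ m := ⟨2 ^ m - U, by omega⟩
    rcases Nat.lt_or_ge L0 17 with h17 | h17
    · apply hi_same (A + L0) (U + L0) c
      intro i hi
      have h1 := h (L0 + i) (by omega)
      rw [sterm1 hd, hi_val (by omega) (by omega), show A + (L0 + i) = A + L0 + i by ring,
        show U + (L0 + i) = U + L0 + i by ring] at h1
      exact h1
    · have h4 := lo_same A U c (fun i hi => by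
        have h1 := h i (by omega)
        rw [sterm1 hd, lo_val (by omega)] at h1
        exact h1)
      have h1 := h L0 (by omega)
      have h2 := h (L0 + 1) (by omega)
      rw [sterm1 hd, hi_val (by omega) (by omega), hL0] at h1
      rw [sterm1 hd, hi_val (by omega) (by omega), show A + (L0 + 1) = A + L0 + 1 by ring,
        show U + (L0 + 1) = U + L0 + 1 by ring, hL0] at h2
      exact after_contra' (by omega) (by omega) h1 h2
  · -- start in the high phase
    obtain ⟨al, hal⟩ : ∃ al, U + al = 2 ^ (m + 1) := ⟨2 ^ (m + 1) - U, by omega⟩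
    rcases Nat.lt_or_ge al 17 with h17 | h17
    swap
    · apply hi_same A U c
      intro i hi
      have h1 := h i (by omega)
      rw [sterm1 hd, hi_val (by omega) (by omega)] at h1
      exact h1
    · obtain ⟨a0, ha0⟩ : ∃ a0, a0 = A + al + 1 := ⟨_, rfl⟩
      have h4 := lo_same a0 0 c (fun i hi => by
        have h1 := h (al + i) (by omega)
        rw [sterm2 hd hal, lo_val (by omega), ← ha0] at h1
        rw [zero_add]
        exact h1)
      rcases Nat.lt_or_ge al 3 with h3 | h3
      · have h1 := h (al + 2 ^ m) (by omega)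
        have h2 := h (al + (2 ^ m + 1)) (by omega)
        rw [sterm2 hd hal, hi_val (by omega) (by omega), ← ha0] at h1
        rw [sterm2 hd hal, hi_val (by omega) (by omega), ← ha0,
          show a0 + (2 ^ m + 1) = a0 + 2 ^ m + 1 by ring] at h2
        exact after_contra' (by omega) (by omega) h1 h2
      · have h1 := h (al - 1) (by omega)
        have h2 := h (al - 2) (by omega)
        rw [sterm1 hd, hi_val (by omega) (by omega),
          show U + (al - 1) = 2 ^ (m + 1) - 1 by omega, rb_pow_sub_one,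
          decide_eq_false (by omega : ¬ (A + (al - 1)) % 2 = 1)] at h1
        have e3 : U + (al - 2) = 2 * (2 ^ m - 1) := by omega
        obtain ⟨s, hs⟩ : ∃ s, m = s + 1 := ⟨m - 1, by omega⟩
        have e4 : rb (2 ^ m - 1) = !decide (m % 2 = 1) := by
          rw [hs, rb_pow_sub_one, ← decide_not]
          exact decide_eq_decide.2 (by omega)
        rw [sterm1 hd, hi_val (by omega) (by omega), e3, rb_two_mul, e4,
          decide_eq_true (by omega : (A + (al - 2)) % 2 = 1)] at h2
        -- `v (a0 - 3)`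
        obtain ⟨w, hw⟩ : ∃ w, A + (al - 2) = 2 * (2 * w) + 1 ∧ w % 2 = 1 :=
          ⟨(A + (al - 2)) / 4, by omega, by omega⟩
        have v1 := v_odd (2 * w)
        rw [v_even, decide_eq_true hw.2, decide_eq_false (by omega : ¬ 2 * w % 2 = 1)] at v1
        unfold v at v1
        rw [show A + (al - 1) = 2 * (2 * w) + 1 + 1 by omega] at h1
        rw [hw.1] at h2
        rw [← h1] at h2
        revert h2 v1
        generalize rb (2 * (2 * w) + 1) = w1
        generalize rb (2 * (2 * w) + 1 + 1) = w2
        generalize decide (m % 2 = 1) = w3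
        revert w1 w2 w3
        decide

end Pool.Agent.H114.RS
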