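import Pool.Agent.H114.RS.Search9

/-!
Regions near the special slopes, for the bound `(d + 7) / 2`.
-/

set_option autoImplicit false

namespace Pool.Agent.H114.RS

/-- just above slope `8`: `d = 8 * 2 ^ m + e` -/
theorem regionD {n d m e J : ℕ} (hd : d % 2 = 1) (hde : d = 8 * 2 ^ m + e) (he : 0 < e)
    (h7 : 7 * e ≤ 2 ^ m) (hJ : (2 * 2 ^ m - 1) / e + 13 ≤ J) :
    ¬ Mono n d (J + 2 ^ (m + 1) + 1) := by
  intro h
  set H := 2 ^ m with hHdef
  have hH : 0 < H := by omega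
  have hp2 : 2 ^ (m + 1) = 2 * H := by rw [hHdef]; ring
  set y := (n + 6 * d) % (2 * H) with hy
  have hylt : y < 2 * H := Nat.mod_lt _ (by omega)
  set q := (2 * H - 1 - y) / e with hq
  have hqle : q ≤ (2 * H - 1) / e := Nat.div_le_div_right (by omega)
  set x := n + q * d with hx
  have hmono : Mono x d (13 + 2 ^ (m + 1) + 1) := by
    have := h.shift q (by omega)
    exact this.le (by omega)
  have hqe : q * e ≤ 2 * H - 1 - y := Nat.div_mul_le_self _ e
  have hqe2 : 2 * H - 1 - y < q * e + e := by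
    have h1 := Nat.div_add_mod (2 * H - 1 - y) e
    have h2 := Nat.mod_lt (2 * H - 1 - y) he
    rw [← hq, mul_comm] at h1
    omega
  have hA := Nat.div_add_mod (n + 6 * d) (2 * H)
  rw [← hy] at hA
  set A := (n + 6 * d) / (2 * H) with hAdef
  set z := y + q * e with hz
  have hzlt : z < 2 * H := by omega
  have hzge : 2 * H ≤ z + e := by omega
  have hx6 : x + 6 * d = 2 * H * (A + 4 * q) + z := by
    have e1 : q * d = q * (8 * H) + q * e := by rw [hde]; ring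
    have e2 : 2 * H * (A + 4 * q) = 2 * H * A + q * (8 * H) := by ring
    rw [e2]
    omega
  obtain ⟨B, hB⟩ : ∃ B, A + 4 * q = B + 24 := by
    refine ⟨A + 4 * q - 24, ?_⟩
    by_contra hcon
    have hlt : A + 4 * q ≤ 23 := by omega
    have h1 : 2 * H * (A + 4 * q) ≤ 2 * H * 23 := Nat.mul_le_mul_left _ hlt
    omega
  obtain ⟨s, hs⟩ : ∃ s, z = s + H + 6 * e := ⟨z - H - 6 * e, by omega⟩
  have hxval : x = 2 * H * B + (s + H) := by
    rw [hB] at hx6
    have e2 : 2 * H * (B + 24) = 2 * H * B + 48 * H := by ring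
    rw [e2] at hx6
    omega
  have hslt : s < H := by omega
  have hxmod : x % H = s := by
    rw [hxval, show 2 * H * B + (s + H) = s + H * (2 * B + 1) by ring, Nat.add_mul_mod_self_left,
      Nat.mod_eq_of_lt hslt]
  have hxdiv : x / H % 2 = 1 := by
    rw [hxval, show 2 * H * B + (s + H) = s + H * (2 * B + 1) by ring, Nat.add_mul_div_left _ _ hH,
      Nat.div_eq_of_lt hslt]
    omega
  refine word_region lD chkD (x0 := x) (d := d) (m := m) (J := 13) hd ?_ hmono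
  have key : ∀ i o, H * o ≤ s + i * d → s + i * d < H * (o + 1) → T x d (2 ^ m) i = 1 + o := by
    intro i o h1 h2
    have := T_eq (x := x) (d := d) hH i o (by rw [hxmod]; exact h1) (by rw [hxmod]; exact h2)
    rw [hxdiv] at this
    exact this
  intro t ht
  simp only [lD, List.mem_cons, List.not_mem_nil, or_false] at ht
  rcases ht with rfl | rfl | rfl | rfl | rfl | rfl | rfl | rfl | rfl | rfl | rfl | rfl | rfl | rfl
  · exact ⟨by norm_num, 0, by norm_num, key 0 0 (by omega) (by omega)⟩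
  · exact ⟨by norm_num, 1, by norm_num, key 1 8 (by omega) (by omega)⟩
  · exact ⟨by norm_num, 2, by norm_num, key 2 16 (by omega) (by omega)⟩
  · exact ⟨by norm_num, 3, by norm_num, key 3 24 (by omega) (by omega)⟩
  · exact ⟨by norm_num, 4, by norm_num, key 4 32 (by omega) (by omega)⟩
  · exact ⟨by norm_num, 5, by norm_num, key 5 40 (by omega) (by omega)⟩
  · exact ⟨by norm_num, 6, by norm_num, key 6 48 (by omega) (by omega)⟩
  · exact ⟨by norm_num, 7, by norm_num, key 7 57 (by omega) (by omega)⟩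
  · exact ⟨by norm_num, 8, by norm_num, key 8 65 (by omega) (by omega)⟩
  · exact ⟨by norm_num, 9, by norm_num, key 9 73 (by omega) (by omega)⟩
  · exact ⟨by norm_num, 10, by norm_num, key 10 81 (by omega) (by omega)⟩
  · exact ⟨by norm_num, 11, by norm_num, key 11 89 (by omega) (by omega)⟩
  · exact ⟨by norm_num, 12, by norm_num, key 12 97 (by omega) (by omega)⟩
  · exact ⟨by norm_num, 13, by norm_num, key 13 105 (by omega) (by omega)⟩

lemma choose_class (x6 x7 x8 H g : ℕ) (h3 : 3 * g = 2 * H + 1) (h32 : 32 ≤ H)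
    (m7 : (x6 % (2 * H) + g < 2 * H ∧ x7 % (2 * H) = x6 % (2 * H) + g) ∨
      (2 * H ≤ x6 % (2 * H) + g ∧ x7 % (2 * H) + 2 * H = x6 % (2 * H) + g))
    (m8 : (x7 % (2 * H) + g < 2 * H ∧ x8 % (2 * H) = x7 % (2 * H) + g) ∨
      (2 * H ≤ x7 % (2 * H) + g ∧ x8 % (2 * H) + 2 * H = x7 % (2 * H) + g))
    (l6 : x6 % (2 * H) < 2 * H) (l7 : x7 % (2 * H) < 2 * H) (l8 : x8 % (2 * H) < 2 * H) :
    (x6 % (2 * H) ≤ H - 1 ∧ 3 * (H - 1 - x6 % (2 * H)) ≤ 2 * H + 1) ∨
    (H ≤ x6 % (2 * H) ∧ 3 * (3 * H - 1 - x6 % (2 * H)) ≤ 2 * H + 1) ∨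
    (x7 % (2 * H) ≤ H - 1 ∧ 3 * (H - 1 - x7 % (2 * H)) ≤ 2 * H + 1) ∨
    (H ≤ x7 % (2 * H) ∧ 3 * (3 * H - 1 - x7 % (2 * H)) ≤ 2 * H + 1) ∨
    (x8 % (2 * H) ≤ H - 1 ∧ 3 * (H - 1 - x8 % (2 * H)) ≤ 2 * H + 1) ∨
    (H ≤ x8 % (2 * H) ∧ 3 * (3 * H - 1 - x8 % (2 * H)) ≤ 2 * H + 1) := by
  generalize x6 % (2 * H) = y6 at *
  generalize x7 % (2 * H) = y7 at *
  generalize x8 % (2 * H) = y8 at *
  omega

/-- `3 d = 32 H + 1` -/
theorem regionQ {n d m J : ℕ} (hd : d % 2 = 1) (hk : 3 * d = 32 * 2 ^ m + 1) (h32 : 32 ≤ 2 ^ m)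
    (hJ : 2 * 2 ^ m + 20 ≤ J) : ¬ Mono n d (J + 2 ^ (m + 1) + 1) := by
  intro h
  set H := 2 ^ m with hHdef
  have hH : 0 < H := by omega
  have hp2 : 2 ^ (m + 1) = 2 * H := by rw [hHdef]; ring
  obtain ⟨g, hg⟩ : ∃ g, d = 5 * (2 * H) + g := ⟨d - 5 * (2 * H), by omega⟩
  have m7 := mod_step (n + 6 * d) (2 * H) g (by omega)
  have m8 := mod_step (n + 7 * d) (2 * H) g (by omega)
  rw [← hg, show n + 6 * d + d = n + 7 * d by ring] at m7
  rw [← hg, show n + 7 * d + d = n + 8 * d by ring] at m8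
  have l6 := Nat.mod_lt (n + 6 * d) (by omega : 2 * H > 0)
  have l7 := Nat.mod_lt (n + 7 * d) (by omega : 2 * H > 0)
  have l8 := Nat.mod_lt (n + 8 * d) (by omega : 2 * H > 0)
  -- choose the class
  obtain ⟨i0, q, hi0, hi1, hq, hs⟩ : ∃ i0 q, i0 ≤ 8 ∧ 6 ≤ i0 ∧ 3 * q ≤ 2 * H + 1 ∧
      ((n + i0 * d) % (2 * H) + q = H - 1 ∨ (n + i0 * d) % (2 * H) + q = H - 1 + 2 * H) := by
    have claim := choose_class (n + 6 * d) (n + 7 * d) (n + 8 * d) H g (by omega) (by omega)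
      m7 m8 l6 l7 l8
    rcases claim with ⟨a, b⟩ | ⟨a, b⟩ | ⟨a, b⟩ | ⟨a, b⟩ | ⟨a, b⟩ | ⟨a, b⟩
    · exact ⟨6, H - 1 - (n + 6 * d) % (2 * H), by norm_num, by norm_num, b, Or.inl (by omega)⟩
    · exact ⟨6, 3 * H - 1 - (n + 6 * d) % (2 * H), by norm_num, by norm_num, b, Or.inr (by omega)⟩
    · exact ⟨7, H - 1 - (n + 7 * d) % (2 * H), by norm_num, by norm_num, b, Or.inl (by omega)⟩
    · exact ⟨7, 3 * H - 1 - (n + 7 * d) % (2 * H), by norm_num, by norm_num, b, Or.inr (by omega)⟩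
    · exact ⟨8, H - 1 - (n + 8 * d) % (2 * H), by norm_num, by norm_num, b, Or.inl (by omega)⟩
    · exact ⟨8, 3 * H - 1 - (n + 8 * d) % (2 * H), by norm_num, by norm_num, b, Or.inr (by omega)⟩
  set y := (n + i0 * d) % (2 * H) with hy
  have hA := Nat.div_add_mod (n + i0 * d) (2 * H)
  rw [← hy] at hA
  set A := (n + i0 * d) / (2 * H) with hAdef
  set j := i0 - 6 + 3 * q with hj
  have hmono : Mono (n + j * d) d (15 + 2 ^ (m + 1) + 1) := by
    have := h.shift j (by omega)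
    exact this.le (by omega)
  set x := n + j * d with hxdef
  have hev : x + 6 * d = (n + i0 * d) + q * (32 * H + 1) := by
    rw [← hk, hxdef]
    obtain ⟨i1, rfl⟩ : ∃ i1, i0 = i1 + 6 := ⟨i0 - 6, by omega⟩
    rw [hj, Nat.add_sub_cancel]; ring
  -- event value
  obtain ⟨B, hB⟩ : ∃ B, x + 6 * d = 2 * H * B + (H - 1) := by
    rcases hs with hs | hs
    · refine ⟨A + 16 * q, ?_⟩
      have e2 : 2 * H * (A + 16 * q) = 2 * H * A + q * (32 * H) := by ring
      have e3 : q * (32 * H + 1) = q * (32 * H) + q := by ring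
      rw [hev, e2, e3]; omega
    · refine ⟨A + 16 * q + 1, ?_⟩
      have e2 : 2 * H * (A + 16 * q + 1) = 2 * H * A + q * (32 * H) + 2 * H := by ring
      have e3 : q * (32 * H + 1) = q * (32 * H) + q := by ring
      rw [hev, e2, e3]; omega
  obtain ⟨B', hB'⟩ : ∃ B', B = B' + 32 := by
    refine ⟨B - 32, ?_⟩
    by_contra hcon
    have hlt : B ≤ 31 := by omega
    have h1 : 2 * H * B ≤ 2 * H * 31 := Nat.mul_le_mul_left _ hlt
    omega
  have hxval : x = 2 * H * B' + (H - 3) := by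
    rw [hB'] at hB
    have e2 : 2 * H * (B' + 32) = 2 * H * B' + 64 * H := by ring
    rw [e2] at hB
    omega
  have hxmod : x % H = H - 3 := by
    rw [hxval, show 2 * H * B' + (H - 3) = (H - 3) + H * (2 * B') by ring,
      Nat.add_mul_mod_self_left, Nat.mod_eq_of_lt (by omega)]
  have hxdiv : x / H % 2 = 0 := by
    rw [hxval, show 2 * H * B' + (H - 3) = (H - 3) + H * (2 * B') by ring,
      Nat.add_mul_div_left _ _ hH, Nat.div_eq_of_lt (by omega)]
    omega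
  refine word_region lQ chkQ (x0 := x) (d := d) (m := m) (J := 15) hd ?_ hmono
  have key : ∀ i o, H * o ≤ (H - 3) + i * d → (H - 3) + i * d < H * (o + 1) →
      T x d (2 ^ m) i = o := by
    intro i o h1 h2
    have := T_eq (x := x) (d := d) hH i o (by rw [hxmod]; exact h1) (by rw [hxmod]; exact h2)
    rw [hxdiv, zero_add] at this
    exact this
  intro t ht
  simp only [lQ, List.mem_cons, List.not_mem_nil, or_false] at ht
  clear hxval hxmod hxdiv hB hB' hev hs m7 m8 l6 l7 l8 hA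
  rcases ht with rfl | rfl | rfl | rfl | rfl | rfl | rfl | rfl | rfl | rfl | rfl | rfl | rfl | rfl |
    rfl | rfl
  · exact ⟨by norm_num, 0, by norm_num, key 0 _ (by omega) (by omega)⟩
  · exact ⟨by norm_num, 1, by norm_num, key 1 _ (by omega) (by omega)⟩
  · exact ⟨by norm_num, 2, by norm_num, key 2 _ (by omega) (by omega)⟩
  · exact ⟨by norm_num, 3, by norm_num, key 3 _ (by omega) (by omega)⟩
  · exact ⟨by norm_num, 4, by norm_num, key 4 _ (by omega) (by omega)⟩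
  · exact ⟨by norm_num, 5, by norm_num, key 5 _ (by omega) (by omega)⟩
  · exact ⟨by norm_num, 6, by norm_num, key 6 _ (by omega) (by omega)⟩
  · exact ⟨by norm_num, 7, by norm_num, key 7 _ (by omega) (by omega)⟩
  · exact ⟨by norm_num, 8, by norm_num, key 8 _ (by omega) (by omega)⟩
  · exact ⟨by norm_num, 9, by norm_num, key 9 _ (by omega) (by omega)⟩
  · exact ⟨by norm_num, 10, by norm_num, key 10 _ (by omega) (by omega)⟩
  · exact ⟨by norm_num, 11, by norm_num, key 11 _ (by omega) (by omega)⟩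
  · exact ⟨by norm_num, 12, by norm_num, key 12 _ (by omega) (by omega)⟩
  · exact ⟨by norm_num, 13, by norm_num, key 13 _ (by omega) (by omega)⟩
  · exact ⟨by norm_num, 14, by norm_num, key 14 _ (by omega) (by omega)⟩
  · exact ⟨by norm_num, 15, by norm_num, key 15 _ (by omega) (by omega)⟩

lemma choose_class' (x6 x7 x8 H g : ℕ) (h3 : 3 * g + 1 = 2 * H) (h32 : 32 ≤ H)
    (m7 : (x6 % (2 * H) + g < 2 * H ∧ x7 % (2 * H) = x6 % (2 * H) + g) ∨
      (2 * H ≤ x6 % (2 * H) + g ∧ x7 % (2 * H) + 2 * H = x6 % (2 * H) + g))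
    (m8 : (x7 % (2 * H) + g < 2 * H ∧ x8 % (2 * H) = x7 % (2 * H) + g) ∨
      (2 * H ≤ x7 % (2 * H) + g ∧ x8 % (2 * H) + 2 * H = x7 % (2 * H) + g))
    (l6 : x6 % (2 * H) < 2 * H) (l7 : x7 % (2 * H) < 2 * H) (l8 : x8 % (2 * H) < 2 * H) :
    (H ≤ x6 % (2 * H) ∧ 3 * (x6 % (2 * H) - H) ≤ 2 * H + 1) ∨
    (x6 % (2 * H) < H ∧ 3 * (x6 % (2 * H) + H) ≤ 2 * H + 1) ∨
    (H ≤ x7 % (2 * H) ∧ 3 * (x7 % (2 * H) - H) ≤ 2 * H + 1) ∨
    (x7 % (2 * H) < H ∧ 3 * (x7 % (2 * H) + H) ≤ 2 * H + 1) ∨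
    (H ≤ x8 % (2 * H) ∧ 3 * (x8 % (2 * H) - H) ≤ 2 * H + 1) ∨
    (x8 % (2 * H) < H ∧ 3 * (x8 % (2 * H) + H) ≤ 2 * H + 1) := by
  generalize x6 % (2 * H) = y6 at *
  generalize x7 % (2 * H) = y7 at *
  generalize x8 % (2 * H) = y8 at *
  omega

/-- `3 d = 32 H - 1` -/
theorem regionR {n d m J : ℕ} (hd : d % 2 = 1) (hk : 3 * d + 1 = 32 * 2 ^ m) (h32 : 32 ≤ 2 ^ m)
    (hJ : 2 * 2 ^ m + 20 ≤ J) : ¬ Mono n d (J + 2 ^ (m + 1) + 1) := by
  intro h
  set H := 2 ^ m with hHdef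
  have hH : 0 < H := by omega
  have hp2 : 2 ^ (m + 1) = 2 * H := by rw [hHdef]; ring
  obtain ⟨g, hg⟩ : ∃ g, d = 5 * (2 * H) + g := ⟨d - 5 * (2 * H), by omega⟩
  have m7 := mod_step (n + 6 * d) (2 * H) g (by omega)
  have m8 := mod_step (n + 7 * d) (2 * H) g (by omega)
  rw [← hg, show n + 6 * d + d = n + 7 * d by ring] at m7
  rw [← hg, show n + 7 * d + d = n + 8 * d by ring] at m8
  have l6 := Nat.mod_lt (n + 6 * d) (by omega : 2 * H > 0)
  have l7 := Nat.mod_lt (n + 7 * d) (by omega : 2 * H > 0)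
  have l8 := Nat.mod_lt (n + 8 * d) (by omega : 2 * H > 0)
  obtain ⟨i0, q, hi0, hi1, hq, hs⟩ : ∃ i0 q, i0 ≤ 8 ∧ 6 ≤ i0 ∧ 3 * q ≤ 2 * H + 1 ∧
      ((n + i0 * d) % (2 * H) = q + H ∨
        ((n + i0 * d) % (2 * H) + H = q ∧ 0 < q)) := by
    have claim := choose_class' (n + 6 * d) (n + 7 * d) (n + 8 * d) H g (by omega) (by omega)
      m7 m8 l6 l7 l8
    rcases claim with ⟨a, b⟩ | ⟨a, b⟩ | ⟨a, b⟩ | ⟨a, b⟩ | ⟨a, b⟩ | ⟨a, b⟩
    · exact ⟨6, (n + 6 * d) % (2 * H) - H, by norm_num, by norm_num, b, Or.inl (by omega)⟩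
    · exact ⟨6, (n + 6 * d) % (2 * H) + H, by norm_num, by norm_num, b, Or.inr ⟨rfl, by omega⟩⟩
    · exact ⟨7, (n + 7 * d) % (2 * H) - H, by norm_num, by norm_num, b, Or.inl (by omega)⟩
    · exact ⟨7, (n + 7 * d) % (2 * H) + H, by norm_num, by norm_num, b, Or.inr ⟨rfl, by omega⟩⟩
    · exact ⟨8, (n + 8 * d) % (2 * H) - H, by norm_num, by norm_num, b, Or.inl (by omega)⟩
    · exact ⟨8, (n + 8 * d) % (2 * H) + H, by norm_num, by norm_num, b, Or.inr ⟨rfl, by omega⟩⟩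
  set y := (n + i0 * d) % (2 * H) with hy
  have hA := Nat.div_add_mod (n + i0 * d) (2 * H)
  rw [← hy] at hA
  set A := (n + i0 * d) / (2 * H) with hAdef
  set j := i0 - 6 + 3 * q with hj
  have hmono : Mono (n + j * d) d (15 + 2 ^ (m + 1) + 1) := by
    have := h.shift j (by omega)
    exact this.le (by omega)
  set x := n + j * d with hxdef
  have hev : x + 6 * d + q = (n + i0 * d) + q * (32 * H) := by
    rw [← hk, hxdef]
    obtain ⟨i1, rfl⟩ : ∃ i1, i0 = i1 + 6 := ⟨i0 - 6, by omega⟩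
    rw [hj, Nat.add_sub_cancel]; ring
  obtain ⟨B, hB⟩ : ∃ B, x + 6 * d = 2 * H * B + H := by
    rcases hs with hs | ⟨hs, hq0⟩
    · refine ⟨A + 16 * q, ?_⟩
      have e2 : 2 * H * (A + 16 * q) = 2 * H * A + q * (32 * H) := by ring
      rw [e2]; omega
    · obtain ⟨q', rfl⟩ : ∃ q', q = q' + 1 := ⟨q - 1, by omega⟩
      refine ⟨A + 16 * q' + 15, ?_⟩
      have e2 : 2 * H * (A + 16 * q' + 15) + 2 * H = 2 * H * A + (q' + 1) * (32 * H) := by ring
      omega
  obtain ⟨B', hB'⟩ : ∃ B', B = B' + 32 := by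
    refine ⟨B - 32, ?_⟩
    by_contra hcon
    have hlt : B ≤ 31 := by omega
    have h1 : 2 * H * B ≤ 2 * H * 31 := Nat.mul_le_mul_left _ hlt
    omega
  have hxval : x = 2 * H * B' + (2 + H) := by
    rw [hB'] at hB
    have e2 : 2 * H * (B' + 32) = 2 * H * B' + 64 * H := by ring
    rw [e2] at hB
    omega
  have hxmod : x % H = 2 := by
    rw [hxval, show 2 * H * B' + (2 + H) = 2 + H * (2 * B' + 1) by ring,
      Nat.add_mul_mod_self_left, Nat.mod_eq_of_lt (by omega)]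
  have hxdiv : x / H % 2 = 1 := by
    rw [hxval, show 2 * H * B' + (2 + H) = 2 + H * (2 * B' + 1) by ring,
      Nat.add_mul_div_left _ _ hH, Nat.div_eq_of_lt (by omega)]
    omega
  refine word_region lR chkR (x0 := x) (d := d) (m := m) (J := 15) hd ?_ hmono
  have key : ∀ i o, H * o ≤ 2 + i * d → 2 + i * d < H * (o + 1) →
      T x d (2 ^ m) i = 1 + o := by
    intro i o h1 h2
    have := T_eq (x := x) (d := d) hH i o (by rw [hxmod]; exact h1) (by rw [hxmod]; exact h2)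
    rw [hxdiv] at this
    exact this
  intro t ht
  simp only [lR, List.mem_cons, List.not_mem_nil, or_false] at ht
  clear hxval hxmod hxdiv hB hB' hev hs m7 m8 l6 l7 l8 hA
  rcases ht with rfl | rfl | rfl | rfl | rfl | rfl | rfl | rfl | rfl | rfl | rfl | rfl | rfl | rfl |
    rfl | rfl
  · exact ⟨by norm_num, 0, by norm_num, key 0 0 (by omega) (by omega)⟩
  · exact ⟨by norm_num, 1, by norm_num, key 1 10 (by omega) (by omega)⟩
  · exact ⟨by norm_num, 2, by norm_num, key 2 21 (by omega) (by omega)⟩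
  · exact ⟨by norm_num, 3, by norm_num, key 3 32 (by omega) (by omega)⟩
  · exact ⟨by norm_num, 4, by norm_num, key 4 42 (by omega) (by omega)⟩
  · exact ⟨by norm_num, 5, by norm_num, key 5 53 (by omega) (by omega)⟩
  · exact ⟨by norm_num, 6, by norm_num, key 6 64 (by omega) (by omega)⟩
  · exact ⟨by norm_num, 7, by norm_num, key 7 74 (by omega) (by omega)⟩
  · exact ⟨by norm_num, 8, by norm_num, key 8 85 (by omega) (by omega)⟩
  · exact ⟨by norm_num, 9, by norm_num, key 9 95 (by omega) (by omega)⟩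
  · exact ⟨by norm_num, 10, by norm_num, key 10 106 (by omega) (by omega)⟩
  · exact ⟨by norm_num, 11, by norm_num, key 11 117 (by omega) (by omega)⟩
  · exact ⟨by norm_num, 12, by norm_num, key 12 127 (by omega) (by omega)⟩
  · exact ⟨by norm_num, 13, by norm_num, key 13 138 (by omega) (by omega)⟩
  · exact ⟨by norm_num, 14, by norm_num, key 14 149 (by omega) (by omega)⟩
  · exact ⟨by norm_num, 15, by norm_num, key 15 159 (by omega) (by omega)⟩

/-- region just above slope `16 / 3` -/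
theorem regionBP' {n d m k J : ℕ} (hd : d % 2 = 1) (hk : 3 * d = 16 * 2 ^ m + k) (hk5 : 5 ≤ k)
    (h12 : 12 * k ≤ 2 ^ m) (hJ : 6 * 2 ^ m + 475 ≤ 25 * J) : ¬ Mono n d (J + 2 ^ (m + 1) + 1) := by
  have hk0 : 0 < k := by omega
  have h32 : 32 ≤ 2 ^ m := by omega
  intro h
  have hp2 : 2 ^ (m + 1) = 2 * 2 ^ m := by ring
  set H := 2 ^ m with hHdef
  have hH : 0 < H := by omega
  obtain ⟨g, hg⟩ : ∃ g, d = 5 * H + g := ⟨d - 5 * H, by omega⟩
  have m8 := mod_step (n + 7 * d) H g (by omega)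
  have m9 := mod_step (n + 8 * d) H g (by omega)
  rw [← hg, show n + 7 * d + d = n + 8 * d by ring] at m8
  rw [← hg, show n + 8 * d + d = n + 9 * d by ring] at m9
  have l7 := Nat.mod_lt (n + 7 * d) hH
  have l8 := Nat.mod_lt (n + 8 * d) hH
  have l9 := Nat.mod_lt (n + 9 * d) hH
  obtain ⟨i0, hi0, hi1, hs⟩ : ∃ i0, i0 ≤ 9 ∧ 7 ≤ i0 ∧ 3 * H ≤ 5 * ((n + i0 * d) % H) := by
    by_cases c7 : 3 * H ≤ 5 * ((n + 7 * d) % H)
    · exact ⟨7, by norm_num, by norm_num, c7⟩
    · by_cases c8 : 3 * H ≤ 5 * ((n + 8 * d) % H)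
      · exact ⟨8, by norm_num, by norm_num, c8⟩
      · exact ⟨9, by norm_num, by norm_num, by omega⟩
  set s := (n + i0 * d) % H with hsdef
  have hslt : s < H := Nat.mod_lt _ hH
  set q := (H - 1 - s) / k with hq
  have q1 : q * k ≤ H - 1 - s := Nat.div_mul_le_self _ _
  have q2 : H - 1 - s < q * k + k := by
    have h1 := Nat.div_add_mod (H - 1 - s) k
    have h2 := Nat.mod_lt (H - 1 - s) hk0
    rw [← hq, mul_comm] at h1
    omega
  have q3 : q * 5 ≤ H - 1 - s := le_trans (Nat.mul_le_mul_left q hk5) q1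
  -- the base point
  set j := i0 - 7 + 3 * q with hj
  have hmono : Mono (n + j * d) d (17 + 2 ^ (m + 1) + 1) := by
    have := h.shift j (by omega)
    exact this.le (by omega)
  -- event
  have hev : (n + j * d) + 7 * d = (n + i0 * d) + q * (16 * H + k) := by
    rw [← hk]
    obtain ⟨i1, rfl⟩ : ∃ i1, i0 = i1 + 7 := ⟨i0 - 7, by omega⟩
    rw [hj, Nat.add_sub_cancel]; ring
  have hev2 : ((n + j * d) + 7 * d) % H = s + q * k := by
    have hA := Nat.div_add_mod (n + i0 * d) H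
    rw [← hsdef] at hA
    rw [hev, ← hA]
    have : H * ((n + i0 * d) / H) + s + q * (16 * H + k) =
        (s + q * k) + H * ((n + i0 * d) / H + 16 * q) := by ring
    rw [this, Nat.add_mul_mod_self_left, Nat.mod_eq_of_lt (by omega)]
  set x := n + j * d with hxdef
  have hxlt := Nat.mod_lt x hH
  have hX : (x % H + 7 * d) % H = s + q * k := by
    rw [← hev2, Nat.mod_add_mod]
  have hdm := Nat.div_add_mod (x % H + 7 * d) H
  rw [hX] at hdm
  -- the quotient is 37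
  have hquot : (x % H + 7 * d) / H = 37 := by
    have b1 : (x % H + 7 * d) / H < 39 := by
      apply Nat.div_lt_of_lt_mul; omega
    by_contra hcon
    rcases Nat.lt_or_ge ((x % H + 7 * d) / H) 37 with hl | hl
    · have : H * ((x % H + 7 * d) / H) ≤ H * 36 := Nat.mul_le_mul_left _ (by omega)
      omega
    · have h38 : (x % H + 7 * d) / H = 38 := by omega
      rw [h38] at hdm
      omega
  rw [hquot] at hdm
  exact wordP hd hk h12 (by rw [← hHdef]; omega) (by rw [← hHdef]; omega) hmono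

/-- region just below slope `16 / 3` -/
theorem regionBM' {n d m k J : ℕ} (hd : d % 2 = 1) (hk : 3 * d + k = 16 * 2 ^ m) (hk5 : 5 ≤ k)
    (h12 : 12 * k ≤ 2 ^ m) (hJ : 6 * 2 ^ m + 475 ≤ 25 * J) : ¬ Mono n d (J + 2 ^ (m + 1) + 1) := by
  have hk0 : 0 < k := by omega
  have h32 : 32 ≤ 2 ^ m := by omega
  intro h
  have hp2 : 2 ^ (m + 1) = 2 * 2 ^ m := by ring
  set H := 2 ^ m with hHdef
  have hH : 0 < H := by omega
  obtain ⟨g, hg⟩ : ∃ g, d = 5 * H + g := ⟨d - 5 * H, by omega⟩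
  have m8 := mod_step (n + 7 * d) H g (by omega)
  have m9 := mod_step (n + 8 * d) H g (by omega)
  rw [← hg, show n + 7 * d + d = n + 8 * d by ring] at m8
  rw [← hg, show n + 8 * d + d = n + 9 * d by ring] at m9
  have l7 := Nat.mod_lt (n + 7 * d) hH
  have l8 := Nat.mod_lt (n + 8 * d) hH
  have l9 := Nat.mod_lt (n + 9 * d) hH
  obtain ⟨i0, hi0, hi1, hs⟩ : ∃ i0, i0 ≤ 9 ∧ 7 ≤ i0 ∧ 5 * ((n + i0 * d) % H) ≤ 2 * H := by
    by_cases c7 : 5 * ((n + 7 * d) % H) ≤ 2 * H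
    · exact ⟨7, by norm_num, by norm_num, c7⟩
    · by_cases c8 : 5 * ((n + 8 * d) % H) ≤ 2 * H
      · exact ⟨8, by norm_num, by norm_num, c8⟩
      · exact ⟨9, by norm_num, by norm_num, by omega⟩
  set s := (n + i0 * d) % H with hsdef
  have hslt : s < H := Nat.mod_lt _ hH
  set q := s / k with hq
  have q1 : q * k ≤ s := Nat.div_mul_le_self _ _
  have q2 : s < q * k + k := by
    have h1 := Nat.div_add_mod s k
    have h2 := Nat.mod_lt s hk0
    rw [← hq, mul_comm] at h1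
    omega
  have q3 : q * 5 ≤ s := le_trans (Nat.mul_le_mul_left q hk5) q1
  set j := i0 - 7 + 3 * q with hj
  have hmono : Mono (n + j * d) d (17 + 2 ^ (m + 1) + 1) := by
    have := h.shift j (by omega)
    exact this.le (by omega)
  have hev : (n + j * d) + 7 * d + q * k = (n + i0 * d) + q * (16 * H) := by
    rw [← hk]
    obtain ⟨i1, rfl⟩ : ∃ i1, i0 = i1 + 7 := ⟨i0 - 7, by omega⟩
    rw [hj, Nat.add_sub_cancel]; ring
  have hev2 : ((n + j * d) + 7 * d) % H = s - q * k := by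
    have hA := Nat.div_add_mod (n + i0 * d) H
    rw [← hsdef] at hA
    have : (n + j * d) + 7 * d = (s - q * k) + H * ((n + i0 * d) / H + 16 * q) := by
      have e1 : H * ((n + i0 * d) / H + 16 * q) = H * ((n + i0 * d) / H) + q * (16 * H) := by ring
      rw [e1]
      omega
    rw [this, Nat.add_mul_mod_self_left, Nat.mod_eq_of_lt (by omega)]
  set x := n + j * d with hxdef
  have hxlt := Nat.mod_lt x hH
  have hX : (x % H + 7 * d) % H = s - q * k := by
    rw [← hev2, Nat.mod_add_mod]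
  have hdm := Nat.div_add_mod (x % H + 7 * d) H
  rw [hX] at hdm
  have hquot : (x % H + 7 * d) / H = 38 := by
    have b1 : (x % H + 7 * d) / H < 39 := by
      apply Nat.div_lt_of_lt_mul; omega
    by_contra hcon
    have : H * ((x % H + 7 * d) / H) ≤ H * 37 := Nat.mul_le_mul_left _ (by omega)
    omega
  rw [hquot] at hdm
  exact wordM hd hk h12 (by rw [← hHdef]; omega) (by rw [← hHdef]; omega) hmono


end Pool.Agent.H114.RS
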