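import Pool.Agent.H114.RS.Brute16

/-!
Tables for small differences, second part.
-/

set_option autoImplicit false
set_option maxRecDepth 100000

namespace Pool.Agent.H114.RS

lemma tab2 : ∀ i < 126, chkB (2 * i + 259) 26 = true := by decide +kernel

end Pool.Agent.H114.RS
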