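import Pool.Agent.H114.RS.Tab1
import Pool.Agent.H114.RS.Tab2
import Pool.Agent.H114.RS.Pow3
import Pool.Agent.H114.RS.Regions2
import Pool.Agent.H114.RS.Final755

/-!
The bound `A (d) ≤ (d + 7) / 2` for `d ≥ 23`, with equality only for `d = 2 ^ k - 1`, `k` odd.
-/

set_option autoImplicit false

namespace Pool.Agent.H114.RS

lemma not_three_dvd (m : ℕ) : 2 ^ m % 3 ≠ 0 := by
  intro h
  have h3 : 3 ∣ 2 ^ m := Nat.dvd_of_mod_eq_zero h
  have := Nat.Prime.dvd_of_dvd_pow Nat.prime_three h3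
  omega

/-- odd differences between `4 H` and `8 H - 3`, `H = 2 ^ m ≥ 128` -/
theorem odd_large {n d m l : ℕ} (hm : 7 ≤ m) (hd : d % 2 = 1) (h4 : 4 * 2 ^ m < d)
    (h8 : d + 3 ≤ 8 * 2 ^ m) (hl : d + 7 ≤ 2 * l) : ¬ Mono n d l := by
  intro h
  obtain ⟨r, rfl⟩ : ∃ r, m = r + 1 := ⟨m - 1, by omega⟩
  have hp2 : 2 ^ (r + 1 + 1) = 2 * 2 ^ (r + 1) := by ring
  have hp1 : 2 ^ (r + 1) = 2 * 2 ^ r := by ring
  have h64 : 64 ≤ 2 ^ r := by
    calc 64 = 2 ^ 6 := by norm_num
      _ ≤ 2 ^ r := Nat.pow_le_pow_right (by norm_num) (by omega)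
  obtain ⟨e, he⟩ : ∃ e, d = 4 * 2 ^ (r + 1) + e := ⟨d - 4 * 2 ^ (r + 1), by omega⟩
  by_cases e1 : e = 1
  · subst e1
    have e2 : 4 * 2 ^ (r + 1) + 1 = 2 ^ (r + 2 + 1) + 1 := by ring
    rw [he, e2] at h
    have e3 : 2 ^ (r + 2) = 4 * 2 ^ r := by ring
    exact plus_upper (m := r + 2) (by omega) (h.le (by omega))
  by_cases e45 : e ≤ 45
  · by_cases h7 : 7 * e ≤ 2 ^ r
    · have hdiv : (2 * 2 ^ r - 1) / e ≤ (2 * 2 ^ r - 1) / 3 :=
        Nat.div_le_div_left (by omega) (by norm_num)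
      exact regionD (m := r) (e := e) (J := 2 * 2 ^ r + 4) hd (by omega) (by omega) h7 (by omega)
        (h.le (by omega))
    · exact region9 23 57 7 35 4 chk9_0 chk9_1 (m := r) hd (by omega) (by omega) (by omega)
        (by omega) (h.le (by omega))
  set H := 2 ^ (r + 1) with hH
  by_cases c1 : d * 36 < 191 * H
  · exact region 26 4 1 191 36 chkA0 chkA1 hd h4 (by omega) (by omega) c1 (h.le (by omega))
  by_cases c2 : d * 36 ≤ 193 * H
  · -- near 16 / 3
    have h3 := not_three_dvd (r + 1)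
    rw [← hH] at h3
    rcases Nat.lt_trichotomy (3 * d) (16 * H) with hc | hc | hc
    · obtain ⟨k, hk⟩ : ∃ k, 3 * d + k = 16 * H := ⟨16 * H - 3 * d, by omega⟩
      by_cases hk5 : 5 ≤ k
      · exact regionBM' (m := r + 1) (J := l - 2 * H - 1) hd (by rw [← hH]; exact hk) hk5
          (by omega) (by omega) (h.le (by omega))
      · have hk1 : k = 1 := by omega
        exact regionR (m := r) (J := l - H - 1) hd (by omega) (by omega) (by omega)
          (h.le (by omega))
    · omega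
    · obtain ⟨k, hk⟩ : ∃ k, 3 * d = 16 * H + k := ⟨3 * d - 16 * H, by omega⟩
      by_cases hk5 : 5 ≤ k
      · exact regionBP' (m := r + 1) (J := l - 2 * H - 1) hd (by rw [← hH]; exact hk) hk5
          (by omega) (by omega) (h.le (by omega))
      · have hk1 : k = 1 := by omega
        exact regionQ (m := r) (J := l - H - 1) hd (by omega) (by omega) (by omega)
          (h.le (by omega))
  by_cases c3 : d * 10 < 61 * H
  · exact region 36 193 36 61 10 chkB1_0 chkB1_1 hd h4 (by omega) (by omega) c3 (h.le (by omega))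
  by_cases c4 : d * 10 < 66 * H
  · exact region 36 6 1 66 10 chkB2_0 chkB2_1 hd h4 (by omega) (by omega) c4 (h.le (by omega))
  by_cases c5 : d * 10 < 71 * H
  · exact region 36 65 10 71 10 chkB3_0 chkB3_1 hd h4 (by omega) (by omega) c5 (h.le (by omega))
  by_cases c6 : d * 6 < 47 * H
  · exact region 36 7 1 47 6 chkB4_0 chkB4_1 hd h4 (by omega) (by omega) c6 (h.le (by omega))
  · obtain ⟨f, hf⟩ : ∃ f, d + f = 8 * H := ⟨8 * H - d, by omega⟩
    have hf3 : 3 ≤ f := by omega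
    have hdiv : (2 * H - 1) / f ≤ (2 * H - 1) / 3 := Nat.div_le_div_left hf3 (by norm_num)
    exact regionC (m := r + 1) (J := l - 2 * H - 1) hd (by rw [← hH]; exact hf) (by omega)
      (by omega) (by rw [← hH]; omega) (h.le (by omega))

/-- the exceptional differences -/
def Exc (d : ℕ) : Prop := ∃ k, 5 ≤ k ∧ k % 2 = 1 ∧ d = 2 ^ k - 1

/-- odd differences of medium size -/
theorem odd_mid {n d l : ℕ} (hd : d % 2 = 1) (h23 : 23 ≤ d) (h511 : d < 511)
    (hx : ¬ Exc d) (hl : d + 7 ≤ 2 * l) : ¬ Mono n d l := by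
  intro h
  have x5 : d ≠ 31 := fun e => hx ⟨5, by norm_num, by norm_num, by rw [e]; norm_num⟩
  have x7 : d ≠ 127 := fun e => hx ⟨7, by norm_num, by norm_num, by rw [e]; norm_num⟩
  have hS := tabS
  by_cases c1 : d < 41
  · have : d = 23 ∨ d = 25 ∨ d = 27 ∨ d = 29 ∨ d = 33 ∨ d = 35 ∨ d = 37 ∨ d = 39 := by omega
    rcases this with rfl | rfl | rfl | rfl | rfl | rfl | rfl | rfl
    · exact not_mono_of_chk 23 15 (hS (23, 15) (by simp)) (by norm_num) n (h.le (by omega))
    · exact not_mono_of_chk 25 16 (hS (25, 16) (by simp)) (by norm_num) n (h.le (by omega))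
    · exact not_mono_of_chk 27 17 (hS (27, 17) (by simp)) (by norm_num) n (h.le (by omega))
    · exact not_mono_of_chk 29 18 (hS (29, 18) (by simp)) (by norm_num) n (h.le (by omega))
    · exact not_mono_of_chk 33 20 (hS (33, 20) (by simp)) (by norm_num) n (h.le (by omega))
    · exact not_mono_of_chk 35 21 (hS (35, 21) (by simp)) (by norm_num) n (h.le (by omega))
    · exact not_mono_of_chk 37 22 (hS (37, 22) (by simp)) (by norm_num) n (h.le (by omega))
    · exact not_mono_of_chk 39 23 (hS (39, 23) (by simp)) (by norm_num) n (h.le (by omega))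
  by_cases c2 : d < 63
  · obtain ⟨i, hi, rfl⟩ : ∃ i, i < 11 ∧ d = 2 * i + 41 := ⟨(d - 41) / 2, by omega, by omega⟩
    exact not_mono_of_chk _ 24 (tabM i hi) (by omega) n (h.le (by omega))
  by_cases c3 : d = 63
  · subst c3
    exact pow_upper_even (m := 5) (n := n) (by norm_num) (by norm_num) (h.le (by omega))
  by_cases c4 : d = 65
  · subst c4
    exact plus_upper (m := 5) (n := n) (by norm_num) (h.le (by omega))
  by_cases c5 : d < 127
  · obtain ⟨i, hi, rfl⟩ : ∃ i, i < 30 ∧ d = 2 * i + 67 := ⟨(d - 67) / 2, by omega, by omega⟩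
    exact not_mono_of_chk _ 24 (chkBig i hi) (by omega) n (h.le (by omega))
  by_cases c6 : d = 129
  · subst c6
    exact plus_upper (m := 6) (n := n) (by norm_num) (h.le (by omega))
  by_cases c7 : d < 255
  · obtain ⟨i, hi, rfl⟩ : ∃ i, i < 62 ∧ d = 2 * i + 131 := ⟨(d - 131) / 2, by omega, by omega⟩
    exact not_mono_of_chkB _ 26 (tab1 i hi) (by omega) n (h.le (by omega))
  by_cases c8 : d = 255
  · subst c8
    exact pow_upper_even (m := 7) (n := n) (by norm_num) (by norm_num) (h.le (by omega))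
  by_cases c9 : d = 257
  · subst c9
    exact plus_upper (m := 7) (n := n) (by norm_num) (h.le (by omega))
  · obtain ⟨i, hi, rfl⟩ : ∃ i, i < 126 ∧ d = 2 * i + 259 := ⟨(d - 259) / 2, by omega, by omega⟩
    exact not_mono_of_chkB _ 26 (tab2 i hi) (by omega) n (h.le (by omega))

/-- odd differences -/
theorem odd_all {n d l : ℕ} (hd : d % 2 = 1) (h23 : 23 ≤ d) (hx : ¬ Exc d)
    (hl : d + 7 ≤ 2 * l) : ¬ Mono n d l := by
  rcases Nat.lt_or_ge d 511 with h | h
  · exact odd_mid hd h23 h hx hl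
  intro hM
  obtain ⟨c, rfl⟩ : ∃ c, d = 2 * c + 1 := ⟨d / 2, by omega⟩
  obtain ⟨M, hm1, hm2⟩ : ∃ m, 2 ^ m ≤ c ∧ c < 2 ^ (m + 1) :=
    ⟨Nat.log 2 c, Nat.pow_log_le_self 2 (by omega), Nat.lt_pow_succ_log_self (by norm_num) c⟩
  have hm3 : 7 ≤ M := by
    by_contra hcon
    have : 2 ^ (M + 1) ≤ 2 ^ 7 := Nat.pow_le_pow_right (by norm_num) (by omega)
    omega
  obtain ⟨r, rfl⟩ : ∃ r, M = r + 1 := ⟨M - 1, by omega⟩
  have e1 : 2 ^ (r + 1) = 2 * 2 ^ r := by ring
  have e2 : 2 ^ (r + 1 + 1) = 4 * 2 ^ r := by ring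
  have e3 : 2 ^ (r + 2 + 1) = 8 * 2 ^ r := by ring
  have e4 : 2 ^ (r + 2) = 4 * 2 ^ r := by ring
  -- `4 * 2 ^ r < d < 8 * 2 ^ r`
  by_cases hpow : 2 * c + 1 + 1 = 8 * 2 ^ r
  · have e5 : 2 * c + 1 = 2 ^ (r + 2 + 1) - 1 := by omega
    by_cases hodd : (r + 2) % 2 = 1
    · rw [e5] at hM
      exact pow_upper_even (m := r + 2) (by omega) hodd (hM.le (by omega))
    · exact hx ⟨r + 2 + 1, by omega, by omega, e5⟩
  · have hr : 7 ≤ r := by
      by_contra hcon
      have h1 : 2 ^ (r + 2 + 1) ≤ 2 ^ 9 := Nat.pow_le_pow_right (by norm_num) (by omega)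
      omega
    exact odd_large (m := r) hr hd (by omega) (by omega) hl hM

/-- exceptional differences, upper bound -/
theorem exc_upper {n k l : ℕ} (hk : 5 ≤ k) (hodd : k % 2 = 1) (hl : 2 ^ k + 7 ≤ 2 * l) :
    ¬ Mono n (2 ^ k - 1) l := by
  intro h
  obtain ⟨m, rfl⟩ : ∃ m, k = m + 1 := ⟨k - 1, by omega⟩
  have e1 : 2 ^ (m + 1) = 2 * 2 ^ m := by ring
  exact pow_upper_odd (m := m) (by omega) (by omega) (h.le (by omega))

/-- exceptional differences, lower bound -/
theorem exc_lower {k : ℕ} (hk : 5 ≤ k) (hodd : k % 2 = 1) :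
    ∃ n l, 2 * l = (2 ^ k - 1) + 7 ∧ Mono n (2 ^ k - 1) l := by
  obtain ⟨m, rfl⟩ : ∃ m, k = m + 1 := ⟨k - 1, by omega⟩
  have e1 : 2 ^ (m + 1) = 2 * 2 ^ m := by ring
  have hpos : 0 < 2 ^ m := by positivity
  exact ⟨_, 2 ^ m + 3, by omega, pow_lower_odd (m := m) (by omega) (by omega)⟩

lemma Exc.odd {d : ℕ} (h : Exc d) : d % 2 = 1 := by
  obtain ⟨k, h5, -, rfl⟩ := h
  obtain ⟨m, rfl⟩ : ∃ m, k = m + 1 := ⟨k - 1, by omega⟩
  have e1 : 2 ^ (m + 1) = 2 * 2 ^ m := by ring
  have hpos : 0 < 2 ^ m := by positivity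
  omega

/-- **Non-exceptional differences.** -/
theorem nonexc (d : ℕ) : 23 ≤ d → ¬ Exc d → ∀ l, d + 7 ≤ 2 * l → ∀ n, ¬ Mono n d l := by
  intro h23 hx l hl n h
  rcases Nat.even_or_odd' d with ⟨c, rfl | rfl⟩
  · -- even: halve
    obtain ⟨n', hn'⟩ := h.half
    -- now `c ≥ 12`, `l ≥ c + 4`
    have key : ∀ c, 12 ≤ c → ∀ l, c + 4 ≤ l → ∀ n, ¬ Mono n c l := by
      intro c
      induction c using Nat.strong_induction_on with
      | _ c ih =>
        intro h12 l hl n h
        rcases Nat.lt_or_ge c 23 with hc | hc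
        · by_cases hc12 : c = 12
          · subst hc12
            obtain ⟨n1, h1⟩ := (show Mono n (2 * 6) l from h).half
            obtain ⟨n2, h2⟩ := (show Mono n1 (2 * 3) l from h1).half
            exact not_mono_of_chk 3 16 (tabS (3, 16) (by simp)) (by norm_num) n2 (h2.le (by omega))
          · exact bound 5 (by norm_num) c (by omega) (by omega) n (h.le (by omega))
        · rcases Nat.even_or_odd' c with ⟨b, rfl | rfl⟩
          · obtain ⟨n1, h1⟩ := h.half
            rcases Nat.lt_or_ge b 12 with hb | hb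
            · omega
            · exact ih b (by omega) hb l (by omega) n1 h1
          · by_cases hx : Exc (2 * b + 1)
            · obtain ⟨k, k5, ko, hk⟩ := hx
              rw [hk] at h
              have : 2 ^ k = 2 * b + 2 := by omega
              exact exc_upper k5 ko (by omega) h
            · exact odd_all (by omega) hc hx (by omega) h
    exact key c (by omega) l (by omega) n' hn'
  · exact odd_all (by omega) h23 hx hl h

end Pool.Agent.H114.RS
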