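import Pool.Agent.H114.RS.Search

/-!
Soundness of the search for the quotients of an arithmetic progression.
-/

set_option autoImplicit false

namespace Pool.Agent.H114.RS

/-- quotient by `H` relative to the starting quotient -/
def T (x0 d H i : ℕ) : ℕ := (x0 + i * d) / H - 2 * (x0 / H / 2)

/-- the history `[T m, …, T 0]` -/
def hist (x0 d H : ℕ) : ℕ → List ℕ
  | 0 => [T x0 d H 0]
  | m + 1 => T x0 d H (m + 1) :: hist x0 d H m

variable {x0 d H : ℕ}

lemma P_mono (i j : ℕ) (h : i ≤ j) : (x0 + i * d) / H ≤ (x0 + j * d) / H :=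
  Nat.div_le_div_right (Nat.add_le_add_left (Nat.mul_le_mul_right d h) x0)

lemma T_add (i : ℕ) : T x0 d H i + 2 * (x0 / H / 2) = (x0 + i * d) / H := by
  have h := P_mono (x0 := x0) (d := d) (H := H) 0 i (Nat.zero_le _)
  rw [zero_mul, add_zero] at h
  unfold T
  omega

lemma pair_ineq (hH : 0 < H) (hd : 0 < d) (i k : ℕ) (hk : 0 < k) :
    (T x0 d H (i + k) - T x0 d H i - 1) * H < k * d ∧
    k * d < (T x0 d H (i + k) - T x0 d H i + 1) * H := by
  have h1 := T_add (x0 := x0) (d := d) (H := H) i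
  have h2 := T_add (x0 := x0) (d := d) (H := H) (i + k)
  have h3 := P_mono (x0 := x0) (d := d) (H := H) i (i + k) (Nat.le_add_right _ _)
  obtain ⟨D, hD⟩ : ∃ D, T x0 d H (i + k) = T x0 d H i + D :=
    ⟨T x0 d H (i + k) - T x0 d H i, by omega⟩
  have e1 : T x0 d H (i + k) - T x0 d H i = D := by omega
  rw [e1]
  have hP : (x0 + (i + k) * d) / H = (x0 + i * d) / H + D := by omega
  have a1 := Nat.div_mul_le_self (x0 + i * d) H
  have a2 := Nat.lt_div_mul_add (a := x0 + i * d) hH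
  have b1 := Nat.div_mul_le_self (x0 + (i + k) * d) H
  have b2 := Nat.lt_div_mul_add (a := x0 + (i + k) * d) hH
  rw [hP, Nat.add_mul ((x0 + i * d) / H) D H] at b1 b2
  have ex : (i + k) * d = i * d + k * d := Nat.add_mul _ _ _
  have hkd : 0 < k * d := Nat.mul_pos hk hd
  constructor
  · rcases Nat.eq_zero_or_pos D with h0 | h0
    · subst h0; simpa using hkd
    · obtain ⟨D', rfl⟩ : ∃ D', D = D' + 1 := ⟨D - 1, by omega⟩
      rw [Nat.add_sub_cancel]
      rw [Nat.add_mul] at b1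
      omega
  · rw [Nat.add_mul]
    omega

lemma good_hist (hH : 0 < H) (hd : 0 < d) (m : ℕ) : ∀ k, 0 < k →
    Good H d (T x0 d H (m + k)) (hist x0 d H m) k := by
  induction m with
  | zero =>
    intro k hk
    have := pair_ineq (x0 := x0) hH hd 0 k hk
    exact ⟨this.1, this.2, trivial⟩
  | succ m ih =>
    intro k hk
    have := pair_ineq (x0 := x0) hH hd (m + 1) k hk
    refine ⟨this.1, this.2, ?_⟩
    have h2 := ih (k + 1) (by omega)
    rw [show m + (k + 1) = m + 1 + k by ring] at h2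
    exact h2

lemma gap_bounds (hH : 0 < H) (h4 : 4 * H < d) (h8 : d < 8 * H) (m : ℕ) :
    ∃ g, 4 ≤ g ∧ g ≤ 8 ∧ T x0 d H (m + 1) = T x0 d H m + g := by
  have h := pair_ineq (x0 := x0) (d := d) hH (by omega) m 1 (by norm_num)
  have h1 := T_add (x0 := x0) (d := d) (H := H) m
  have h2 := T_add (x0 := x0) (d := d) (H := H) (m + 1)
  have h3 := P_mono (x0 := x0) (d := d) (H := H) m (m + 1) (Nat.le_add_right _ _)
  refine ⟨T x0 d H (m + 1) - T x0 d H m, ?_, ?_, by omega⟩
  · have h5 : 4 * H < (T x0 d H (m + 1) - T x0 d H m + 1) * H := by omega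
    have := Nat.lt_of_mul_lt_mul_right h5
    omega
  · have h5 : (T x0 d H (m + 1) - T x0 d H m - 1) * H < 8 * H := by omega
    have := Nat.lt_of_mul_lt_mul_right h5
    omega

theorem srch_sound {E O idx : ℕ} (hp : Pair E O idx) (hH : 0 < H) (h4 : 4 * H < d)
    (h8 : d < 8 * H) (n : ℕ) : ∀ m a b c e S, srch n (hist x0 d H m) (T x0 d H m) a b c e S = true →
    a * H < d * b → d * e < c * H → Nat.testBit S idx = true →
    (∀ i ≤ m + n, Con E O (T x0 d H i)) → False := by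
  induction n with
  | zero => intro m a b c e S h; simp [srch] at h
  | succ n ih =>
    intro m a b c e S h h1 h2 hS hc
    obtain ⟨g, hg4, hg8, hg⟩ := gap_bounds (x0 := x0) hH h4 h8 m
    have hgood := good_hist (x0 := x0) (d := d) hH (by omega) m 1 (by norm_num)
    rw [srch, Bool.and_eq_true, Bool.and_eq_true, Bool.and_eq_true, Bool.and_eq_true] at h
    obtain ⟨k4, k5, k6, k7, k8⟩ := h
    have key : ∀ g, T x0 d H (m + 1) = T x0 d H m + g →
        upd (T x0 d H m + g) (fun a b c e => Nat.ble (T x0 d H m + g) 255 &&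
          (Nat.beq (filt S (T x0 d H m + g)) 0 ||
          srch n ((T x0 d H m + g) :: hist x0 d H m) (T x0 d H m + g) a b c e
            (filt S (T x0 d H m + g)))) (hist x0 d H m) 1 a b c e = true → False := by
      intro g hg hu
      rw [← hg] at hu
      obtain ⟨a', b', c', e', q1, q2, q3⟩ := upd_sound H d _ _ _ 1 a b c e (by norm_num) hu
        hgood h1 h2
      rw [Bool.and_eq_true, Bool.or_eq_true] at q3
      obtain ⟨q4, q5⟩ := q3
      have hf := hp.filt S (T x0 d H (m + 1)) (Nat.le_of_ble_eq_true q4) (hc (m + 1) (by omega)) hS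
      rcases q5 with q5 | q5
      · rw [Nat.eq_of_beq_eq_true q5] at hf
        simp at hf
      · exact ih (m + 1) a' b' c' e' _ q5 q1 q2 hf (fun i hi => hc i (by omega))
    have : g = 4 ∨ g = 5 ∨ g = 6 ∨ g = 7 ∨ g = 8 := by omega
    rcases this with rfl | rfl | rfl | rfl | rfl
    · exact key 4 hg k4
    · exact key 5 hg k5
    · exact key 6 hg k6
    · exact key 7 hg k7
    · exact key 8 hg k8

/-! ### Monochromatic progressions -/

/-- a monochromatic progression -/
def Mono (n d l : ℕ) : Prop := ∀ j < l, rb (n + j * d) = rb n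

lemma Mono.le {n d l l' : ℕ} (h : Mono n d l) (hl : l' ≤ l) : Mono n d l' :=
  fun j hj => h j (lt_of_lt_of_le hj hl)

lemma Mono.shift {n d l : ℕ} (h : Mono n d l) (j : ℕ) (hj : j < l) :
    Mono (n + j * d) d (l - j) := by
  intro i hi
  have h1 := h (j + i) (by omega)
  have h2 := h j hj
  rw [show n + (j + i) * d = n + j * d + i * d by ring] at h1
  rw [h1, h2]

/-- the constraint on the quotients -/
lemma agree {x d m : ℕ} (hd : d % 2 = 1) (h : rb x = rb (x + 2 ^ (m + 1) * d)) :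
    xor (rb (x / 2 ^ m / 2)) (rb (x / 2 ^ m / 2 + d)) = decide (x / 2 ^ m % 2 = 1) := by
  have hp : 0 < 2 ^ m := by positivity
  have hp2 : 2 ^ (m + 1) = 2 ^ m * 2 := pow_succ _ _
  set Q := x / 2 ^ m / 2 with hQ
  have hQ' : Q = x / 2 ^ (m + 1) := by rw [hQ, Nat.div_div_eq_div_mul, hp2]
  set R := x % 2 ^ (m + 1) with hR
  have hRlt : R < 2 ^ (m + 1) := Nat.mod_lt _ (by positivity)
  have hx : x = 2 ^ (m + 1) * Q + R := by rw [hQ']; exact (Nat.div_add_mod _ _).symm
  have hx2 : x + 2 ^ (m + 1) * d = 2 ^ (m + 1) * (Q + d) + R := by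
    rw [Nat.mul_add]; omega
  have hbit : (x / 2 ^ m % 2 = 1) ↔ (2 ^ m ≤ R) := by
    have h0 := Nat.div_add_mod x (2 ^ m)
    have h1 := Nat.mod_lt x hp
    have h2 : x / 2 ^ m = 2 * Q + x / 2 ^ m % 2 := by omega
    have h3 : 2 ^ m * (x / 2 ^ m) = 2 ^ (m + 1) * Q + 2 ^ m * (x / 2 ^ m % 2) := by
      conv_lhs => rw [h2]
      rw [hp2]; ring
    rcases Nat.mod_two_eq_zero_or_one (x / 2 ^ m) with h4 | h4
    · rw [h4] at h3 ⊢
      simp only [mul_zero, add_zero] at h3
      constructor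
      · intro h; omega
      · intro h; omega
    · rw [h4] at h3 ⊢
      simp only [mul_one] at h3
      constructor
      · intro _; omega
      · intro _; rfl
  have e1 := rb_block m Q R hRlt
  have e2 := rb_block m (Q + d) R hRlt
  rw [← hx] at e1
  rw [← hx2] at e2
  rw [e1, e2] at h
  rw [decide_eq_decide.2 hbit]
  have hpar : decide ((Q + d) % 2 = 1) = !decide (Q % 2 = 1) := by
    rcases Nat.mod_two_eq_zero_or_one Q with h4 | h4
    · have : (Q + d) % 2 = 1 := by omega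
      simp [h4, this]
    · have : (Q + d) % 2 = 0 := by omega
      simp [h4, this]
  rw [hpar] at h
  revert h
  generalize rb Q = a
  generalize rb (Q + d) = b
  generalize rb R = c
  generalize decide (Q % 2 = 1) = u
  generalize decide (2 ^ m ≤ R) = v
  revert a b c u v
  decide

/-- the even and the odd one of the two starting quotients -/
lemma exists_pair {x0 d m J : ℕ} (hd : d % 2 = 1) (h : Mono x0 d (J + 2 ^ (m + 1) + 1)) :
    ∃ E O, E % 2 = 0 ∧ O % 2 = 1 ∧ ∀ i ≤ J, Con E O (T x0 d (2 ^ m) i) := by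
  have key : ∀ i ≤ J, xor (rb (x0 / 2 ^ m / 2 + T x0 d (2 ^ m) i / 2))
      (rb (x0 / 2 ^ m / 2 + d + T x0 d (2 ^ m) i / 2)) = decide (T x0 d (2 ^ m) i % 2 = 1) := by
    intro i hi
    have h1 : rb (x0 + i * d) = rb (x0 + i * d + 2 ^ (m + 1) * d) := by
      have hpos : 0 < 2 ^ (m + 1) := by positivity
      have a1 := h i (by omega)
      have a2 := h (i + 2 ^ (m + 1)) (by omega)
      rw [show x0 + (i + 2 ^ (m + 1)) * d = x0 + i * d + 2 ^ (m + 1) * d by ring] at a2
      rw [a1, a2]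
    have h2 := agree hd h1
    have h3 := T_add (x0 := x0) (d := d) (H := 2 ^ m) i
    rw [← h3] at h2
    rw [show (T x0 d (2 ^ m) i + 2 * (x0 / 2 ^ m / 2)) / 2 =
      x0 / 2 ^ m / 2 + T x0 d (2 ^ m) i / 2 by omega,
      show (T x0 d (2 ^ m) i + 2 * (x0 / 2 ^ m / 2)) % 2 = T x0 d (2 ^ m) i % 2 by omega] at h2
    rw [show x0 / 2 ^ m / 2 + d + T x0 d (2 ^ m) i / 2 =
      x0 / 2 ^ m / 2 + T x0 d (2 ^ m) i / 2 + d by ring]
    exact h2
  rcases Nat.mod_two_eq_zero_or_one (x0 / 2 ^ m / 2) with h0 | h0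
  · exact ⟨x0 / 2 ^ m / 2, x0 / 2 ^ m / 2 + d, h0, by omega, key⟩
  · refine ⟨x0 / 2 ^ m / 2 + d, x0 / 2 ^ m / 2, by omega, h0, fun i hi => ?_⟩
    unfold Con
    rw [Bool.xor_comm]
    exact key i hi

/-- no long progression with slope in an interval excluded by the search -/
theorem region (F a b c e : ℕ)
    (s0 : srch F [0] 0 a b c e (filt S0 0) = true) (s1 : srch F [1] 1 a b c e (filt S0 1) = true)
    {x0 d m : ℕ} (hd : d % 2 = 1) (h4 : 4 * 2 ^ m < d) (h8 : d < 8 * 2 ^ m)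
    (h1 : a * 2 ^ m < d * b) (h2 : d * e < c * 2 ^ m) : ¬ Mono x0 d (F + 2 ^ (m + 1) + 1) := by
  intro h
  obtain ⟨E, O, hE, hO, hc⟩ := exists_pair hd h
  obtain ⟨idx, hp⟩ := Pair.mk' E O hE hO
  have hH : 0 < 2 ^ m := by positivity
  have hT0 : T x0 d (2 ^ m) 0 = 0 ∨ T x0 d (2 ^ m) 0 = 1 := by
    unfold T
    rw [zero_mul, add_zero]
    omega
  have hf : Nat.testBit (filt S0 (T x0 d (2 ^ m) 0)) idx = true :=
    hp.filt S0 _ (by omega) (hc 0 (Nat.zero_le _)) hp.mem_S0
  refine srch_sound (x0 := x0) (d := d) (H := 2 ^ m) hp hH h4 h8 F 0 a b c e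
    (filt S0 (T x0 d (2 ^ m) 0)) ?_ h1 h2 hf (fun i hi => hc i (by omega))
  rcases hT0 with h0 | h0
  · show srch F [T x0 d (2 ^ m) 0] _ a b c e _ = true
    rw [h0]; exact s0
  · show srch F [T x0 d (2 ^ m) 0] _ a b c e _ = true
    rw [h0]; exact s1

/-- an explicit word -/
theorem word_region (l : List ℕ) (hw : Nat.beq (wfilt l S0) 0 = true) {x0 d m J : ℕ}
    (hd : d % 2 = 1) (hl : ∀ t ∈ l, t ≤ 255 ∧ ∃ i ≤ J, T x0 d (2 ^ m) i = t) :
    ¬ Mono x0 d (J + 2 ^ (m + 1) + 1) := by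
  intro h
  obtain ⟨E, O, hE, hO, hc⟩ := exists_pair hd h
  refine word_contra E O hE hO l hw (fun t ht => ?_)
  obtain ⟨h1, i, hi, rfl⟩ := hl t ht
  exact ⟨h1, hc i hi⟩

end Pool.Agent.H114.RS
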