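import Pool.Agent.H114.RS.Final755

/-!
The difference `2 ^ k - 1`.
-/

set_option autoImplicit false

namespace Pool.Agent.H114.RS

/-- change between consecutive terms -/
def v (x : ℕ) : Bool := xor (rb x) (rb (x + 1))

lemma v_even (b : ℕ) : v (2 * b) = decide (b % 2 = 1) := by
  unfold v
  rw [rb_two_mul, rb_two_mul_add_one]
  cases rb b <;> cases decide (b % 2 = 1) <;> rfl

lemma v_odd (b : ℕ) : v (2 * b + 1) = xor (v b) (decide (b % 2 = 1)) := by
  unfold v
  rw [rb_two_mul_add_one, show 2 * b + 1 + 1 = 2 * (b + 1) by ring, rb_two_mul]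
  cases rb b <;> cases decide (b % 2 = 1) <;> cases rb (b + 1) <;> rfl

lemma v_not_const (a : ℕ) (e : Bool) (h : ∀ s < 4, v (a + s) = e) : False := by
  have key : ∀ x, v (2 * x) = e → v (2 * (x + 1)) = e → False := by
    intro x h1 h2
    rw [v_even] at h1 h2
    have : decide ((x + 1) % 2 = 1) = !decide (x % 2 = 1) := by
      rw [← decide_not]; exact decide_eq_decide.2 (by omega)
    rw [this] at h2
    rw [h1] at h2
    cases e <;> simp at h2
  rcases Nat.even_or_odd' a with ⟨x, rfl | rfl⟩
  · exact key x (by simpa using h 0 (by norm_num)) (by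
      have := h 2 (by norm_num)
      rwa [show 2 * x + 2 = 2 * (x + 1) by ring] at this)
  · exact key (x + 1) (by
      have := h 1 (by norm_num)
      rwa [show 2 * x + 1 + 1 = 2 * (x + 1) by ring] at this) (by
      have := h 3 (by norm_num)
      rwa [show 2 * x + 1 + 3 = 2 * (x + 1 + 1) by ring] at this)

/-- opposite directions, odd sum -/
lemma run_odd (A B : ℕ) (e : Bool) (hs : (A + B) % 2 = 1) (hB : 7 ≤ B)
    (h : ∀ i < 8, xor (v (A + i)) (v (B - i)) = e) : False := by
  obtain ⟨i0, hi0, a, b, ha, hb, hb3⟩ : ∃ i0, i0 < 2 ∧ ∃ a b, A + i0 = 2 * a + 1 ∧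
      B - i0 = 2 * b ∧ 3 ≤ b := by
    rcases Nat.mod_two_eq_zero_or_one A with h0 | h0
    · exact ⟨1, by norm_num, A / 2, (B - 1) / 2, by omega, by omega, by omega⟩
    · exact ⟨0, by norm_num, A / 2, B / 2, by omega, by omega, by omega⟩
  apply v_not_const a (xor e (decide ((a + b) % 2 = 1)))
  intro s hs4
  have h1 := h (i0 + 2 * s) (by omega)
  rw [show A + (i0 + 2 * s) = 2 * (a + s) + 1 by omega,
    show B - (i0 + 2 * s) = 2 * (b - s) by omega, v_odd, v_even] at h1
  have h2 : decide ((a + b) % 2 = 1) = xor (decide ((a + s) % 2 = 1)) (decide ((b - s) % 2 = 1)) := by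
    rcases Nat.mod_two_eq_zero_or_one (a + s) with p | p <;>
      rcases Nat.mod_two_eq_zero_or_one (b - s) with q | q
    · rw [decide_eq_false (by omega : ¬ (a + b) % 2 = 1), p, q]; rfl
    · rw [decide_eq_true (by omega : (a + b) % 2 = 1), p, q]; rfl
    · rw [decide_eq_true (by omega : (a + b) % 2 = 1), p, q]; rfl
    · rw [decide_eq_false (by omega : ¬ (a + b) % 2 = 1), p, q]; rfl
  rw [h2]
  clear h
  revert h1
  generalize v (a + s) = w1
  generalize decide ((a + s) % 2 = 1) = w2
  generalize decide ((b - s) % 2 = 1) = w3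
  revert e w1 w2 w3
  decide

/-- low runs are short -/
lemma lo_run (A U : ℕ) (c : Bool) (hU : 16 ≤ U) (h : ∀ i < 17, xor (rb (A + i)) (rb (U - i)) = c) :
    False := by
  have hv : ∀ i < 16, xor (v (A + i)) (v (U - 1 - i)) = false := by
    intro i hi
    have h1 := h i (by omega)
    have h2 := h (i + 1) (by omega)
    unfold v
    rw [show U - 1 - i + 1 = U - i by omega, show U - 1 - i = U - (i + 1) by omega,
      show A + i + 1 = A + (i + 1) by ring]
    clear h
    revert h1 h2
    generalize rb (A + i) = w1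
    generalize rb (A + (i + 1)) = w2
    generalize rb (U - i) = w3
    generalize rb (U - (i + 1)) = w4
    revert c w1 w2 w3 w4
    decide
  rcases Nat.mod_two_eq_zero_or_one (A + (U - 1)) with hs | hs
  · -- even sum
    obtain ⟨i0, hi0, a, b, ha, hb, hb3⟩ : ∃ i0, i0 < 2 ∧ ∃ a b, A + i0 = 2 * a + 1 ∧
        U - 1 - i0 = 2 * b + 1 ∧ 7 ≤ b := by
      rcases Nat.mod_two_eq_zero_or_one A with h0 | h0
      · exact ⟨1, by norm_num, A / 2, (U - 3) / 2, by omega, by omega, by omega⟩
      · exact ⟨0, by norm_num, A / 2, (U - 2) / 2, by omega, by omega, by omega⟩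
    -- parity of `a + b`
    have hpar : (a + b) % 2 = 1 := by
      have h1 := hv (i0 + 1) (by omega)
      rw [show A + (i0 + 1) = 2 * (a + 1) by omega, show U - 1 - (i0 + 1) = 2 * b by omega,
        v_even, v_even] at h1
      by_contra hcon
      rcases Nat.mod_two_eq_zero_or_one b with q | q
      · rw [decide_eq_true (by omega : (a + 1) % 2 = 1), q] at h1
        exact absurd h1 (by decide)
      · rw [decide_eq_false (by omega : ¬ (a + 1) % 2 = 1), q] at h1
        exact absurd h1 (by decide)
    have key : ∀ s < 8, xor (v (a + s)) (v (b - s)) = true := by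
      intro s hs7
      have h1 := hv (i0 + 2 * s) (by omega)
      rw [show A + (i0 + 2 * s) = 2 * (a + s) + 1 by omega,
        show U - 1 - (i0 + 2 * s) = 2 * (b - s) + 1 by omega, v_odd, v_odd] at h1
      have h2 : xor (decide ((a + s) % 2 = 1)) (decide ((b - s) % 2 = 1)) = true := by
        rcases Nat.mod_two_eq_zero_or_one (b - s) with q | q
        · rw [decide_eq_true (by omega : (a + s) % 2 = 1), q]; rfl
        · rw [decide_eq_false (by omega : ¬ (a + s) % 2 = 1), q]; rfl
      clear h
      revert h1 h2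
      generalize v (a + s) = w1
      generalize v (b - s) = w2
      generalize decide ((a + s) % 2 = 1) = w3
      generalize decide ((b - s) % 2 = 1) = w4
      revert w1 w2 w3 w4
      decide
    exact run_odd a b true hpar hb3 key
  · exact run_odd A (U - 1) false hs (by omega) (fun i hi => hv i (by omega))

/-- high runs determine the sum modulo `4` -/
lemma hi_run (A U : ℕ) (c : Bool) (hU : 8 ≤ U)
    (h : ∀ i < 9, xor (xor (rb (A + i)) (rb (U - i))) (decide ((A + i) % 2 = 1)) = c) :
    (A + U - 1) % 4 = 2 := by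
  have hv : ∀ i < 8, xor (v (A + i)) (v (U - 1 - i)) = true := by
    intro i hi
    have h1 := h i (by omega)
    have h2 := h (i + 1) (by omega)
    unfold v
    rw [show U - 1 - i + 1 = U - i by omega, show U - 1 - i = U - (i + 1) by omega,
      show A + i + 1 = A + (i + 1) by ring]
    have h3 : decide ((A + (i + 1)) % 2 = 1) = !decide ((A + i) % 2 = 1) := by
      rw [← decide_not]; exact decide_eq_decide.2 (by omega)
    rw [h3] at h2
    clear h
    revert h1 h2
    generalize rb (A + i) = w1
    generalize rb (A + (i + 1)) = w2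
    generalize rb (U - i) = w3
    generalize rb (U - (i + 1)) = w4
    generalize decide ((A + i) % 2 = 1) = w5
    revert c w1 w2 w3 w4 w5
    decide
  rcases Nat.mod_two_eq_zero_or_one (A + (U - 1)) with hs | hs
  · obtain ⟨i0, hi0, a, b, ha, hb⟩ : ∃ i0, i0 < 2 ∧ ∃ a b, A + i0 = 2 * a ∧
        U - 1 - i0 = 2 * b := by
      rcases Nat.mod_two_eq_zero_or_one A with h0 | h0
      · exact ⟨0, by norm_num, A / 2, (U - 1) / 2, by omega, by omega⟩
      · exact ⟨1, by norm_num, (A + 1) / 2, (U - 2) / 2, by omega, by omega⟩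
    have h1 := hv i0 (by omega)
    rw [ha, hb, v_even, v_even] at h1
    by_contra hcon
    rcases Nat.mod_two_eq_zero_or_one b with q | q
    · rw [decide_eq_false (by omega : ¬ a % 2 = 1), q] at h1
      exact absurd h1 (by decide)
    · rw [decide_eq_true (by omega : a % 2 = 1), q] at h1
      exact absurd h1 (by decide)
  · exact (run_odd A (U - 1) true hs (by omega) (fun i hi => hv i hi)).elim

end Pool.Agent.H114.RS
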