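import Pool.Agent.H114.RS.Pow

/-!
The exact value for the difference `2 ^ k - 1`, `k = m + 1`.
-/

set_option autoImplicit false

namespace Pool.Agent.H114.RS

lemma rb_pow_sub_one (m : ℕ) : rb (2 ^ (m + 1) - 1) = decide (m % 2 = 1) := by
  have h := rb_compl m 0 (by positivity)
  have h1 : decide (2 ^ m ≤ 0) = false := by
    apply decide_eq_false
    have : 0 < 2 ^ m := by positivity
    omega
  rw [Nat.sub_zero, rb_zero, h1] at h
  rw [h]
  cases decide (m % 2 = 1) <;> rfl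

lemma rb_one : rb 1 = false := by
  have := rb_two_mul_add_one 0
  simpa [rb_zero] using this

lemma rb_two : rb 2 = false := by
  have := rb_two_mul 1
  rw [rb_one] at this
  simpa using this

/-- terms before the wrap -/
lemma term1 {m A U j d : ℕ} (hd : d + 1 = 2 ^ (m + 1)) (hj : j ≤ U) :
    2 ^ (m + 1) * A + U + j * d = 2 ^ (m + 1) * (A + j) + (U - j) := by
  have e1 : j * d + j = j * 2 ^ (m + 1) := by rw [← hd]; ring
  have e2 : 2 ^ (m + 1) * (A + j) = 2 ^ (m + 1) * A + j * 2 ^ (m + 1) := by ring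
  omega

/-- terms after the wrap -/
lemma term2 {m A U i d : ℕ} (hd : d + 1 = 2 ^ (m + 1)) (hi : i + 1 ≤ 2 ^ (m + 1)) :
    2 ^ (m + 1) * A + U + (U + 1 + i) * d =
      2 ^ (m + 1) * (A + U + i) + (2 ^ (m + 1) - 1 - i) := by
  have e1 : (U + 1 + i) * d + (U + 1 + i) = (U + 1 + i) * 2 ^ (m + 1) := by rw [← hd]; ring
  have e2 : 2 ^ (m + 1) * (A + U + i) + 2 ^ (m + 1) =
    2 ^ (m + 1) * A + (U + 1 + i) * 2 ^ (m + 1) := by ring
  omega

lemma lo_val {m A U : ℕ} (hU : U < 2 ^ m) :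
    rb (2 ^ (m + 1) * A + U) = xor (rb A) (rb U) := by
  have hp : 2 ^ (m + 1) = 2 * 2 ^ m := by ring
  rw [rb_block m A U (by omega), decide_eq_false (by omega : ¬ 2 ^ m ≤ U)]
  simp

lemma hi_val {m A U : ℕ} (hU : 2 ^ m ≤ U) (hU2 : U < 2 ^ (m + 1)) :
    rb (2 ^ (m + 1) * A + U) = xor (xor (rb A) (rb U)) (decide (A % 2 = 1)) := by
  rw [rb_block m A U hU2, decide_eq_true hU]
  simp

/-- the step after the high phase -/
lemma after_contra {m A : ℕ} {c : Bool} (hm : 3 ≤ m) (hA : A % 4 = 0)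
    (h1 : xor (rb A) (rb (2 ^ m - 1)) = c) (h2 : xor (rb (A + 1)) (rb (2 ^ m - 2)) = c) : False := by
  obtain ⟨r, rfl⟩ : ∃ r, m = r + 3 := ⟨m - 3, by omega⟩
  have hp : 2 ^ (r + 3) = 8 * 2 ^ r := by ring
  have hpos : 0 < 2 ^ r := by positivity
  obtain ⟨a, rfl⟩ : ∃ a, A = 2 * (2 * a) := ⟨A / 4, by omega⟩
  have v1 := v_even (2 * a)
  have v2 := v_even (4 * 2 ^ r - 1)
  rw [decide_eq_false (by omega : ¬ 2 * a % 2 = 1)] at v1
  rw [decide_eq_true (by omega : (4 * 2 ^ r - 1) % 2 = 1)] at v2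
  unfold v at v1 v2
  rw [show 2 * (4 * 2 ^ r - 1) + 1 = 2 ^ (r + 3) - 1 by omega,
    show 2 * (4 * 2 ^ r - 1) = 2 ^ (r + 3) - 2 by omega] at v2
  revert h1 h2 v1 v2
  generalize rb (2 * (2 * a)) = w1
  generalize rb (2 * (2 * a) + 1) = w2
  generalize rb (2 ^ (r + 3) - 1) = w3
  generalize rb (2 ^ (r + 3) - 2) = w4
  revert c w1 w2 w3 w4
  decide

/-- start in the high phase -/
lemma start_hi {m A U d l : ℕ} (hm : 5 ≤ m) (hd : d + 1 = 2 ^ (m + 1)) (hU : 2 ^ m ≤ U)
    (hU2 : U < 2 ^ (m + 1)) (hl : 2 ^ m + 2 ≤ l) (h : Mono (2 ^ (m + 1) * A + U) d l) : False := by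
  have hp : 2 ^ (m + 1) = 2 * 2 ^ m := by ring
  have h32 : 32 ≤ 2 ^ m := by
    calc 32 = 2 ^ 5 := by norm_num
      _ ≤ 2 ^ m := Nat.pow_le_pow_right (by norm_num) hm
  obtain ⟨r, hr⟩ : ∃ r, m = r + 3 := ⟨m - 3, by omega⟩
  have hp8 : 2 ^ m = 8 * 2 ^ r := by rw [hr]; ring
  set c := rb (2 ^ (m + 1) * A + U) with hc
  obtain ⟨j1, hj1⟩ : ∃ j1, U + 1 = j1 + 2 ^ m := ⟨U + 1 - 2 ^ m, by omega⟩
  rcases Nat.lt_or_ge j1 9 with h9 | h9
  · apply lo_run (A + j1) (2 ^ m - 1) c (by omega)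
    intro i hi
    have h1 := h (j1 + i) (by omega)
    rw [term1 hd (by omega), show U - (j1 + i) = 2 ^ m - 1 - i by omega, lo_val (by omega),
      show A + (j1 + i) = A + j1 + i by ring] at h1
    exact h1
  · have h4 := hi_run A U c (by omega) (fun i hi => by
      have h1 := h i (by omega)
      rw [term1 hd (by omega), hi_val (by omega) (by omega)] at h1
      exact h1)
    have h1 := h j1 (by omega)
    have h2 := h (j1 + 1) (by omega)
    rw [term1 hd (by omega), show U - j1 = 2 ^ m - 1 by omega, lo_val (by omega)] at h1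
    rw [term1 hd (by omega), show U - (j1 + 1) = 2 ^ m - 2 by omega, lo_val (by omega),
      show A + (j1 + 1) = A + j1 + 1 by ring] at h2
    exact after_contra (by omega) (by omega) h1 h2

/-- start in the low phase -/
lemma start_lo {m A U d l : ℕ} (hm : 5 ≤ m) (hd : d + 1 = 2 ^ (m + 1)) (hU : U < 2 ^ m)
    (hl : 2 ^ m + 2 ≤ l) (h : Mono (2 ^ (m + 1) * A + U) d l) : m % 2 = 0 ∧ l ≤ 2 ^ m + 3 := by
  have hp : 2 ^ (m + 1) = 2 * 2 ^ m := by ring
  have h32 : 32 ≤ 2 ^ m := by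
    calc 32 = 2 ^ 5 := by norm_num
      _ ≤ 2 ^ m := Nat.pow_le_pow_right (by norm_num) hm
  obtain ⟨r, hr⟩ : ∃ r, m = r + 3 := ⟨m - 3, by omega⟩
  have hp8 : 2 ^ m = 8 * 2 ^ r := by rw [hr]; ring
  set c := rb (2 ^ (m + 1) * A + U) with hc
  rcases Nat.lt_or_ge U 16 with h16 | h16
  swap
  · exfalso
    apply lo_run A U c h16
    intro i hi
    have h1 := h i (by omega)
    rw [term1 hd (by omega), lo_val (by omega)] at h1
    exact h1
  · -- the high phase
    have hhi : ∀ i, i < 2 ^ m → U + 1 + i < l →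
        xor (xor (rb (A + U + i)) (rb (2 ^ (m + 1) - 1 - i))) (decide ((A + U + i) % 2 = 1)) = c := by
      intro i hi hi2
      have h1 := h (U + 1 + i) hi2
      rw [term2 hd (by omega), hi_val (by omega) (by omega)] at h1
      exact h1
    have h4 := hi_run (A + U) (2 ^ (m + 1) - 1) c (by omega)
      (fun i hi => hhi i (by omega) (by omega))
    have ha0 : (A + U) % 4 = 0 := by omega
    -- wrap
    have w0 := h U (by omega)
    rw [term1 hd le_rfl, Nat.sub_self, lo_val (by omega), rb_zero] at w0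
    have w1 := hhi 0 (by omega) (by omega)
    rw [add_zero, Nat.sub_zero, rb_pow_sub_one,
      decide_eq_false (by omega : ¬ (A + U) % 2 = 1)] at w1
    have hm2 : m % 2 = 0 := by
      by_contra hcon
      rw [decide_eq_true (by omega : m % 2 = 1), hc, ← w0] at w1
      revert w1
      generalize rb (A + U) = z
      cases z <;> decide
    refine ⟨hm2, ?_⟩
    by_contra hcon
    have hl4 : 2 ^ m + 4 ≤ l := by omega
    -- `U ≤ 1`
    have hU1 : U ≤ 1 := by
      by_contra hU2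
      have a1 := h (U - 2) (by omega)
      have a2 := h (U - 1) (by omega)
      rw [term1 hd (by omega), show U - (U - 2) = 2 by omega, lo_val (by omega), rb_two] at a1
      rw [term1 hd (by omega), show U - (U - 1) = 1 by omega, lo_val (by omega), rb_one] at a2
      obtain ⟨b, hb⟩ : ∃ b, A + (U - 2) = 2 * b := ⟨(A + (U - 2)) / 2, by omega⟩
      have v1 := v_even b
      rw [decide_eq_true (by omega : b % 2 = 1)] at v1
      unfold v at v1
      rw [hb] at a1
      rw [show A + (U - 1) = 2 * b + 1 by omega] at a2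
      rw [← a2] at a1
      revert a1 v1
      generalize rb (2 * b) = z1
      generalize rb (2 * b + 1) = z2
      clear * -
      revert z1 z2
      decide
    -- after the high phase
    have b1 := h (U + 1 + 2 ^ m) (by omega)
    have b2 := h (U + 1 + (2 ^ m + 1)) (by omega)
    rw [term2 hd (by omega), show 2 ^ (m + 1) - 1 - 2 ^ m = 2 ^ m - 1 by omega,
      lo_val (by omega)] at b1
    rw [term2 hd (by omega), show 2 ^ (m + 1) - 1 - (2 ^ m + 1) = 2 ^ m - 2 by omega,
      lo_val (by omega), show A + U + (2 ^ m + 1) = A + U + 2 ^ m + 1 by ring] at b2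
    exact after_contra (by omega) (by omega) b1 b2

/-- upper bound, `k = m + 1` even -/
theorem pow_upper_even {m n : ℕ} (hm : 5 ≤ m) (ho : m % 2 = 1) :
    ¬ Mono n (2 ^ (m + 1) - 1) (2 ^ m + 2) := by
  intro h
  have hpos : 0 < 2 ^ (m + 1) := by positivity
  have hn : n = 2 ^ (m + 1) * (n / 2 ^ (m + 1)) + n % 2 ^ (m + 1) := (Nat.div_add_mod _ _).symm
  have hlt := Nat.mod_lt n hpos
  rw [hn] at h
  rcases Nat.lt_or_ge (n % 2 ^ (m + 1)) (2 ^ m) with hU | hU
  · have := (start_lo hm (by omega) hU le_rfl h).1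
    omega
  · exact start_hi hm (by omega) hU hlt le_rfl h

lemma chk31' : chkAP 31 20 = true := by decide +kernel

/-- upper bound, `k = m + 1` odd -/
theorem pow_upper_odd {m n : ℕ} (hm : 4 ≤ m) (ho : m % 2 = 0) :
    ¬ Mono n (2 ^ (m + 1) - 1) (2 ^ m + 4) := by
  intro h
  rcases Nat.lt_or_ge m 5 with h5 | h5
  · have : m = 4 := by omega
    subst this
    norm_num at h
    exact not_mono_of_chk 31 20 chk31' (by norm_num) n h
  have hpos : 0 < 2 ^ (m + 1) := by positivity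
  have hn : n = 2 ^ (m + 1) * (n / 2 ^ (m + 1)) + n % 2 ^ (m + 1) := (Nat.div_add_mod _ _).symm
  have hlt := Nat.mod_lt n hpos
  rw [hn] at h
  rcases Nat.lt_or_ge (n % 2 ^ (m + 1)) (2 ^ m) with hU | hU
  · have := (start_lo h5 (by omega) hU (by omega) h).2
    omega
  · exact start_hi h5 (by omega) hU hlt (by omega) h

/-! ### Lower bounds -/

/-- values in the high phase for `A = 2 ^ (m + 1) + i` -/
lemma hi_phase {m i : ℕ} (_hm : 1 ≤ m) (hi : i < 2 ^ m) :
    rb (2 ^ (m + 1) * (2 ^ (m + 1) + i) + (2 ^ (m + 1) - 1 - i)) = decide (m % 2 = 1) := by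
  have hp : 2 ^ (m + 1) = 2 * 2 ^ m := by ring
  rw [hi_val (by omega) (by omega), rb_compl m i (by omega)]
  have e1 : rb (2 ^ (m + 1) + i) = rb i := by
    have := rb_block m 1 i (by omega)
    rw [mul_one, rb_one, decide_eq_false (by omega : ¬ 2 ^ m ≤ i)] at this
    simpa using this
  have e2 : decide ((2 ^ (m + 1) + i) % 2 = 1) = decide (i % 2 = 1) :=
    decide_eq_decide.2 (by omega)
  rw [e1, e2, decide_eq_false (by omega : ¬ 2 ^ m ≤ i)]
  generalize rb i = w1
  generalize decide (m % 2 = 1) = w2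
  generalize decide (i % 2 = 1) = w3
  revert w1 w2 w3
  decide

/-- value after the high phase -/
lemma after_phase {m : ℕ} (hm : 1 ≤ m) :
    rb (2 ^ (m + 1) * (2 ^ (m + 1) + 2 ^ m) + (2 ^ m - 1)) = decide (m % 2 = 1) := by
  have hp : 2 ^ (m + 1) = 2 * 2 ^ m := by ring
  have hpos : 0 < 2 ^ m := by positivity
  rw [lo_val (by omega)]
  have e1 : rb (2 ^ (m + 1) + 2 ^ m) = true := by
    have := rb_block m 1 (2 ^ m) (by omega)
    rw [mul_one, rb_one, decide_eq_true (le_refl (2 ^ m))] at this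
    have e2 : rb (2 ^ m) = false := by
      clear this hp hpos hm
      induction m with
      | zero => exact rb_one
      | succ m ih => rw [pow_succ, mul_comm, rb_two_mul]; exact ih
    rw [e2] at this
    simpa using this
  obtain ⟨r, rfl⟩ : ∃ r, m = r + 1 := ⟨m - 1, by omega⟩
  rw [e1, rb_pow_sub_one]
  rcases Nat.mod_two_eq_zero_or_one r with h | h
  · rw [decide_eq_true (by omega : (r + 1) % 2 = 1), h]; rfl
  · rw [decide_eq_false (by omega : ¬ (r + 1) % 2 = 1), h]; rfl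

/-- lower bound, `k = m + 1` even -/
theorem pow_lower_even {m : ℕ} (hm : 1 ≤ m) :
    Mono (2 ^ (m + 1) * 2 ^ (m + 1) + (2 ^ (m + 1) - 1)) (2 ^ (m + 1) - 1) (2 ^ m + 1) := by
  have hp : 2 ^ (m + 1) = 2 * 2 ^ m := by ring
  have hpos : 0 < 2 ^ m := by positivity
  have hd : (2 ^ (m + 1) - 1) + 1 = 2 ^ (m + 1) := by omega
  have key : ∀ j < 2 ^ m + 1, rb (2 ^ (m + 1) * 2 ^ (m + 1) + (2 ^ (m + 1) - 1) +
      j * (2 ^ (m + 1) - 1)) = decide (m % 2 = 1) := by
    intro j hj
    rw [term1 hd (by omega)]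
    rcases Nat.lt_or_ge j (2 ^ m) with h | h
    · exact hi_phase hm h
    · have : j = 2 ^ m := by omega
      rw [this, show 2 ^ (m + 1) - 1 - 2 ^ m = 2 ^ m - 1 by omega]
      exact after_phase hm
  intro j hj
  have k0 := key 0 (by omega)
  rw [zero_mul, add_zero] at k0
  rw [key j hj, k0]

/-- lower bound, `k = m + 1` odd -/
theorem pow_lower_odd {m : ℕ} (hm : 2 ≤ m) (he : m % 2 = 0) :
    Mono (2 ^ (m + 1) * (2 ^ (m + 1) - 1) + 1) (2 ^ (m + 1) - 1) (2 ^ m + 3) := by
  have hp : 2 ^ (m + 1) = 2 * 2 ^ m := by ring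
  have h4 : 4 ≤ 2 ^ m := by
    calc 4 = 2 ^ 2 := by norm_num
      _ ≤ 2 ^ m := Nat.pow_le_pow_right (by norm_num) hm
  have hd : (2 ^ (m + 1) - 1) + 1 = 2 ^ (m + 1) := by omega
  have key : ∀ j < 2 ^ m + 3, rb (2 ^ (m + 1) * (2 ^ (m + 1) - 1) + 1 +
      j * (2 ^ (m + 1) - 1)) = false := by
    intro j hj
    rcases Nat.lt_or_ge j 2 with h | h
    · have hj2 : j = 0 ∨ j = 1 := by omega
      rcases hj2 with rfl | rfl
      · rw [zero_mul, add_zero, lo_val (by omega), rb_pow_sub_one, rb_one, he]; rfl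
      · rw [term1 hd (by omega), show 2 ^ (m + 1) - 1 + 1 = 2 ^ (m + 1) by omega, Nat.sub_self,
          lo_val (by omega), rb_zero]
        have e2 : ∀ r, rb (2 ^ r) = false := by
          intro r
          induction r with
          | zero => exact rb_one
          | succ r ih => rw [pow_succ, mul_comm, rb_two_mul]; exact ih
        rw [e2]; rfl
    · obtain ⟨i, rfl⟩ : ∃ i, j = 1 + 1 + i := ⟨j - 2, by omega⟩
      rw [term2 hd (by omega), show 2 ^ (m + 1) - 1 + 1 + i = 2 ^ (m + 1) + i by omega]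
      rcases Nat.lt_or_ge i (2 ^ m) with h | h
      · rw [hi_phase (by omega) h, he]; rfl
      · have : i = 2 ^ m := by omega
        rw [this, show 2 ^ (m + 1) - 1 - 2 ^ m = 2 ^ m - 1 by omega, after_phase (by omega), he]
        rfl
  intro j hj
  have k0 := key 0 (by omega)
  rw [zero_mul, add_zero] at k0
  rw [key j hj, k0]

end Pool.Agent.H114.RS
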