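import Pool.Agent.H114.RS.CheckA
import Pool.Agent.H114.RS.CheckB1
import Pool.Agent.H114.RS.CheckB2
import Pool.Agent.H114.RS.CheckB3
import Pool.Agent.H114.RS.CheckB4
import Pool.Agent.H114.RS.Brute

/-!
Exclusion of long monochromatic progressions in the Rudin–Shapiro sequence by slopes.
-/

set_option autoImplicit false

namespace Pool.Agent.H114.RS

lemma T_eq {x d H : ℕ} (hH : 0 < H) (i o : ℕ) (h1 : H * o ≤ x % H + i * d)
    (h2 : x % H + i * d < H * (o + 1)) : T x d H i = x / H % 2 + o := by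
  have e : x + i * d = x % H + i * d + H * (x / H) := by
    have := Nat.div_add_mod x H; omega
  have e2 : (x + i * d) / H = o + x / H := by
    rw [e, Nat.add_mul_div_left _ _ hH]
    congr 1
    apply Nat.div_eq_of_lt_le
    · rw [mul_comm o]; exact h1
    · rw [mul_comm (o + 1)]; exact h2
  unfold T
  rw [e2]
  omega

/-- region near slope `8`, `d = 8 * 2 ^ m - f` -/
theorem regionC {n d m f J : ℕ} (hd : d % 2 = 1) (hdf : d + f = 8 * 2 ^ m) (hf : 0 < f)
    (h6 : 6 * f ≤ 2 ^ m) (hJ : 5 + (2 * 2 ^ m - 1) / f + 6 ≤ J) :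
    ¬ Mono n d (J + 2 ^ (m + 1) + 1) := by
  intro h
  set H := 2 ^ m with hHdef
  have hH : 0 < H := by omega
  have hp2 : 2 ^ (m + 1) = 2 * H := by rw [hHdef]; ring
  set y := (n + 5 * d) % (2 * H) with hy
  have hylt : y < 2 * H := Nat.mod_lt _ (by omega)
  set q := y / f with hq
  have hqle : q ≤ (2 * H - 1) / f := Nat.div_le_div_right (by omega)
  -- base point
  set x := n + q * d with hx
  have hmono : Mono x d (11 + 2 ^ (m + 1) + 1) := by
    have := h.shift q (by omega)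
    exact this.le (by omega)
  have hqf : q * f ≤ y := Nat.div_mul_le_self y f
  have hmodlt : y - q * f < f := by
    have h1 := Nat.div_add_mod y f
    have h2 := Nat.mod_lt y hf
    rw [← hq, mul_comm] at h1
    omega
  -- x + 5 d = 2 H (A + 4 q) + (y - q f)
  have hA := Nat.div_add_mod (n + 5 * d) (2 * H)
  rw [← hy] at hA
  set A := (n + 5 * d) / (2 * H) with hAdef
  have hx5 : x + 5 * d = 2 * H * (A + 4 * q) + (y - q * f) := by
    have e1 : q * d + q * f = q * (8 * H) := by rw [← Nat.mul_add, hdf]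
    have e2 : 2 * H * (A + 4 * q) = 2 * H * A + q * (8 * H) := by ring
    rw [e2]
    omega
  have hfH : f ≤ H := by omega
  have hge : 40 * H ≤ 5 * d + 5 * f := by omega
  -- the quotient of x
  obtain ⟨B, hB⟩ : ∃ B, A + 4 * q = B + 20 := by
    refine ⟨A + 4 * q - 20, ?_⟩
    by_contra hcon
    have hlt : A + 4 * q ≤ 19 := by omega
    have h1 : 2 * H * (A + 4 * q) ≤ 2 * H * 19 := Nat.mul_le_mul_left _ hlt
    omega
  have hxval : x = 2 * H * B + (y - q * f + 5 * f) := by
    rw [hB] at hx5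
    have e2 : 2 * H * (B + 20) = 2 * H * B + 40 * H := by ring
    rw [e2] at hx5
    omega
  set s := y - q * f + 5 * f with hs
  have hslt : s < H := by omega
  have hxmod : x % H = s := by
    rw [hxval, show 2 * H * B + s = s + H * (2 * B) by ring, Nat.add_mul_mod_self_left,
      Nat.mod_eq_of_lt hslt]
  have hxdiv : x / H % 2 = 0 := by
    rw [hxval, show 2 * H * B + s = s + H * (2 * B) by ring, Nat.add_mul_div_left _ _ hH,
      Nat.div_eq_of_lt hslt]
    omega
  refine word_region lC chkC (x0 := x) (d := d) (m := m) (J := 11) hd ?_ hmono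
  have key : ∀ i o, H * o ≤ s + i * d → s + i * d < H * (o + 1) → T x d (2 ^ m) i = o := by
    intro i o h1 h2
    have := T_eq (x := x) (d := d) hH i o (by rw [hxmod]; exact h1) (by rw [hxmod]; exact h2)
    rw [hxdiv, zero_add] at this
    exact this
  intro t ht
  simp only [lC, List.mem_cons, List.not_mem_nil, or_false] at ht
  rcases ht with rfl | rfl | rfl | rfl | rfl | rfl | rfl | rfl | rfl | rfl | rfl | rfl
  · exact ⟨by norm_num, 0, by norm_num, key 0 _ (by omega) (by omega)⟩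
  · exact ⟨by norm_num, 1, by norm_num, key 1 _ (by omega) (by omega)⟩
  · exact ⟨by norm_num, 2, by norm_num, key 2 _ (by omega) (by omega)⟩
  · exact ⟨by norm_num, 3, by norm_num, key 3 _ (by omega) (by omega)⟩
  · exact ⟨by norm_num, 4, by norm_num, key 4 _ (by omega) (by omega)⟩
  · exact ⟨by norm_num, 5, by norm_num, key 5 _ (by omega) (by omega)⟩
  · exact ⟨by norm_num, 6, by norm_num, key 6 _ (by omega) (by omega)⟩
  · exact ⟨by norm_num, 7, by norm_num, key 7 _ (by omega) (by omega)⟩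
  · exact ⟨by norm_num, 8, by norm_num, key 8 _ (by omega) (by omega)⟩
  · exact ⟨by norm_num, 9, by norm_num, key 9 _ (by omega) (by omega)⟩
  · exact ⟨by norm_num, 10, by norm_num, key 10 _ (by omega) (by omega)⟩
  · exact ⟨by norm_num, 11, by norm_num, key 11 _ (by omega) (by omega)⟩

lemma mod_step (x H g : ℕ) (hg : g < H) : (x % H + g < H ∧ (x + (5 * H + g)) % H = x % H + g) ∨
    (H ≤ x % H + g ∧ (x + (5 * H + g)) % H + H = x % H + g) := by
  have hH : 0 < H := by omega
  have h0 := Nat.div_add_mod x H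
  have hlt := Nat.mod_lt x hH
  rcases Nat.lt_or_ge (x % H + g) H with h | h
  · left
    refine ⟨h, ?_⟩
    have e : x + (5 * H + g) = (x % H + g) + H * (x / H + 5) := by rw [Nat.mul_add]; omega
    rw [e, Nat.add_mul_mod_self_left, Nat.mod_eq_of_lt h]
  · right
    refine ⟨h, ?_⟩
    have e : x + (5 * H + g) = (x % H + g - H) + H * (x / H + 6) := by rw [Nat.mul_add]; omega
    rw [e, Nat.add_mul_mod_self_left, Nat.mod_eq_of_lt (by omega)]
    omega

/-- the four words near slope `16 / 3` -/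
lemma wordP {x d m k : ℕ} (hd : d % 2 = 1) (hk : 3 * d = 16 * 2 ^ m + k) (h12 : 12 * k ≤ 2 ^ m)
    (h1 : 38 * 2 ^ m ≤ x % 2 ^ m + 7 * d + k) (h2 : x % 2 ^ m + 7 * d < 38 * 2 ^ m) :
    ¬ Mono x d (17 + 2 ^ (m + 1) + 1) := by
  set H := 2 ^ m with hH
  have hpos : 0 < H := by positivity
  have hlt := Nat.mod_lt x hpos
  set s := x % H with hs
  have key : ∀ i o, H * o ≤ s + i * d → s + i * d < H * (o + 1) →
      T x d (2 ^ m) i = x / H % 2 + o := fun i o h1 h2 => T_eq hpos i o h1 h2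
  have all : ∀ t ∈ lP, t + 1 ≤ 255 ∧ ∃ i ≤ 17, T x d (2 ^ m) i = x / H % 2 + t := by
    intro t ht
    simp only [lP, List.mem_cons, List.not_mem_nil, or_false] at ht
    rcases ht with rfl | rfl | rfl | rfl | rfl | rfl | rfl | rfl | rfl | rfl | rfl | rfl | rfl |
      rfl | rfl | rfl | rfl | rfl
    · exact ⟨by norm_num, 0, by norm_num, key 0 _ (by omega) (by omega)⟩
    · exact ⟨by norm_num, 1, by norm_num, key 1 _ (by omega) (by omega)⟩
    · exact ⟨by norm_num, 2, by norm_num, key 2 _ (by omega) (by omega)⟩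
    · exact ⟨by norm_num, 3, by norm_num, key 3 _ (by omega) (by omega)⟩
    · exact ⟨by norm_num, 4, by norm_num, key 4 _ (by omega) (by omega)⟩
    · exact ⟨by norm_num, 5, by norm_num, key 5 _ (by omega) (by omega)⟩
    · exact ⟨by norm_num, 6, by norm_num, key 6 _ (by omega) (by omega)⟩
    · exact ⟨by norm_num, 7, by norm_num, key 7 _ (by omega) (by omega)⟩
    · exact ⟨by norm_num, 8, by norm_num, key 8 _ (by omega) (by omega)⟩
    · exact ⟨by norm_num, 9, by norm_num, key 9 _ (by omega) (by omega)⟩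
    · exact ⟨by norm_num, 10, by norm_num, key 10 _ (by omega) (by omega)⟩
    · exact ⟨by norm_num, 11, by norm_num, key 11 _ (by omega) (by omega)⟩
    · exact ⟨by norm_num, 12, by norm_num, key 12 _ (by omega) (by omega)⟩
    · exact ⟨by norm_num, 13, by norm_num, key 13 _ (by omega) (by omega)⟩
    · exact ⟨by norm_num, 14, by norm_num, key 14 _ (by omega) (by omega)⟩
    · exact ⟨by norm_num, 15, by norm_num, key 15 _ (by omega) (by omega)⟩
    · exact ⟨by norm_num, 16, by norm_num, key 16 _ (by omega) (by omega)⟩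
    · exact ⟨by norm_num, 17, by norm_num, key 17 _ (by omega) (by omega)⟩
  rcases Nat.mod_two_eq_zero_or_one (x / H) with hp | hp
  · refine word_region lP chkP0 (J := 17) hd (fun t ht => ?_)
    obtain ⟨a1, i, a2, a3⟩ := all t ht
    rw [hp, zero_add] at a3
    exact ⟨by omega, i, a2, a3⟩
  · refine word_region (lP.map (· + 1)) chkP1 (J := 17) hd (fun t ht => ?_)
    rw [List.mem_map] at ht
    obtain ⟨u, hu, rfl⟩ := ht
    obtain ⟨a1, i, a2, a3⟩ := all u hu
    rw [hp] at a3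
    exact ⟨by omega, i, a2, by rw [a3, add_comm]⟩

lemma wordM {x d m k : ℕ} (hd : d % 2 = 1) (hk : 3 * d + k = 16 * 2 ^ m) (h12 : 12 * k ≤ 2 ^ m)
    (h1 : 38 * 2 ^ m ≤ x % 2 ^ m + 7 * d) (h2 : x % 2 ^ m + 7 * d < 38 * 2 ^ m + k) :
    ¬ Mono x d (17 + 2 ^ (m + 1) + 1) := by
  set H := 2 ^ m with hH
  have hpos : 0 < H := by positivity
  have hlt := Nat.mod_lt x hpos
  set s := x % H with hs
  have key : ∀ i o, H * o ≤ s + i * d → s + i * d < H * (o + 1) →
      T x d (2 ^ m) i = x / H % 2 + o := fun i o h1 h2 => T_eq hpos i o h1 h2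
  have all : ∀ t ∈ lM, t + 1 ≤ 255 ∧ ∃ i ≤ 17, T x d (2 ^ m) i = x / H % 2 + t := by
    intro t ht
    simp only [lM, List.mem_cons, List.not_mem_nil, or_false] at ht
    rcases ht with rfl | rfl | rfl | rfl | rfl | rfl | rfl | rfl | rfl | rfl | rfl | rfl | rfl |
      rfl | rfl | rfl | rfl | rfl
    · exact ⟨by norm_num, 0, by norm_num, key 0 _ (by omega) (by omega)⟩
    · exact ⟨by norm_num, 1, by norm_num, key 1 _ (by omega) (by omega)⟩
    · exact ⟨by norm_num, 2, by norm_num, key 2 _ (by omega) (by omega)⟩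
    · exact ⟨by norm_num, 3, by norm_num, key 3 _ (by omega) (by omega)⟩
    · exact ⟨by norm_num, 4, by norm_num, key 4 _ (by omega) (by omega)⟩
    · exact ⟨by norm_num, 5, by norm_num, key 5 _ (by omega) (by omega)⟩
    · exact ⟨by norm_num, 6, by norm_num, key 6 _ (by omega) (by omega)⟩
    · exact ⟨by norm_num, 7, by norm_num, key 7 _ (by omega) (by omega)⟩
    · exact ⟨by norm_num, 8, by norm_num, key 8 _ (by omega) (by omega)⟩
    · exact ⟨by norm_num, 9, by norm_num, key 9 _ (by omega) (by omega)⟩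
    · exact ⟨by norm_num, 10, by norm_num, key 10 _ (by omega) (by omega)⟩
    · exact ⟨by norm_num, 11, by norm_num, key 11 _ (by omega) (by omega)⟩
    · exact ⟨by norm_num, 12, by norm_num, key 12 _ (by omega) (by omega)⟩
    · exact ⟨by norm_num, 13, by norm_num, key 13 _ (by omega) (by omega)⟩
    · exact ⟨by norm_num, 14, by norm_num, key 14 _ (by omega) (by omega)⟩
    · exact ⟨by norm_num, 15, by norm_num, key 15 _ (by omega) (by omega)⟩
    · exact ⟨by norm_num, 16, by norm_num, key 16 _ (by omega) (by omega)⟩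
    · exact ⟨by norm_num, 17, by norm_num, key 17 _ (by omega) (by omega)⟩
  rcases Nat.mod_two_eq_zero_or_one (x / H) with hp | hp
  · refine word_region lM chkM0 (J := 17) hd (fun t ht => ?_)
    obtain ⟨a1, i, a2, a3⟩ := all t ht
    rw [hp, zero_add] at a3
    exact ⟨by omega, i, a2, a3⟩
  · refine word_region (lM.map (· + 1)) chkM1 (J := 17) hd (fun t ht => ?_)
    rw [List.mem_map] at ht
    obtain ⟨u, hu, rfl⟩ := ht
    obtain ⟨a1, i, a2, a3⟩ := all u hu
    rw [hp] at a3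
    exact ⟨by omega, i, a2, by rw [a3, add_comm]⟩

/-- region just above slope `16 / 3` -/
theorem regionBP {n d m k : ℕ} (hd : d % 2 = 1) (hk : 3 * d = 16 * 2 ^ m + k) (hk0 : 0 < k)
    (h12 : 12 * k ≤ 2 ^ m) (h32 : 32 ≤ 2 ^ m) : ¬ Mono n d (2 * 2 ^ m + 2 ^ (m + 1) + 1) := by
  intro h
  have hp2 : 2 ^ (m + 1) = 2 * 2 ^ m := by ring
  set H := 2 ^ m with hHdef
  have hH : 0 < H := by omega
  obtain ⟨g, hg⟩ : ∃ g, d = 5 * H + g := ⟨d - 5 * H, by omega⟩
  have m8 := mod_step (n + 7 * d) H g (by omega)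
  have m9 := mod_step (n + 8 * d) H g (by omega)
  rw [← hg, show n + 7 * d + d = n + 8 * d by ring] at m8
  rw [← hg, show n + 8 * d + d = n + 9 * d by ring] at m9
  have l7 := Nat.mod_lt (n + 7 * d) hH
  have l8 := Nat.mod_lt (n + 8 * d) hH
  have l9 := Nat.mod_lt (n + 9 * d) hH
  obtain ⟨i0, hi0, hi1, hs⟩ : ∃ i0, i0 ≤ 9 ∧ 7 ≤ i0 ∧ 3 * H ≤ 5 * ((n + i0 * d) % H) := by
    by_cases c7 : 3 * H ≤ 5 * ((n + 7 * d) % H)
    · exact ⟨7, by norm_num, by norm_num, c7⟩
    · by_cases c8 : 3 * H ≤ 5 * ((n + 8 * d) % H)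
      · exact ⟨8, by norm_num, by norm_num, c8⟩
      · exact ⟨9, by norm_num, by norm_num, by omega⟩
  set s := (n + i0 * d) % H with hsdef
  have hslt : s < H := Nat.mod_lt _ hH
  set q := (H - 1 - s) / k with hq
  have q1 : q * k ≤ H - 1 - s := Nat.div_mul_le_self _ _
  have q2 : H - 1 - s < q * k + k := by
    have h1 := Nat.div_add_mod (H - 1 - s) k
    have h2 := Nat.mod_lt (H - 1 - s) hk0
    rw [← hq, mul_comm] at h1
    omega
  have q3 : q ≤ H - 1 - s := le_trans (Nat.le_mul_of_pos_right q hk0) q1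
  -- the base point
  set j := i0 - 7 + 3 * q with hj
  have hmono : Mono (n + j * d) d (17 + 2 ^ (m + 1) + 1) := by
    have := h.shift j (by omega)
    exact this.le (by omega)
  -- event
  have hev : (n + j * d) + 7 * d = (n + i0 * d) + q * (16 * H + k) := by
    rw [← hk]
    obtain ⟨i1, rfl⟩ : ∃ i1, i0 = i1 + 7 := ⟨i0 - 7, by omega⟩
    rw [hj, Nat.add_sub_cancel]; ring
  have hev2 : ((n + j * d) + 7 * d) % H = s + q * k := by
    have hA := Nat.div_add_mod (n + i0 * d) H
    rw [← hsdef] at hA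
    rw [hev, ← hA]
    have : H * ((n + i0 * d) / H) + s + q * (16 * H + k) =
        (s + q * k) + H * ((n + i0 * d) / H + 16 * q) := by ring
    rw [this, Nat.add_mul_mod_self_left, Nat.mod_eq_of_lt (by omega)]
  set x := n + j * d with hxdef
  have hxlt := Nat.mod_lt x hH
  have hX : (x % H + 7 * d) % H = s + q * k := by
    rw [← hev2, Nat.mod_add_mod]
  have hdm := Nat.div_add_mod (x % H + 7 * d) H
  rw [hX] at hdm
  -- the quotient is 37
  have hquot : (x % H + 7 * d) / H = 37 := by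
    have b1 : (x % H + 7 * d) / H < 39 := by
      apply Nat.div_lt_of_lt_mul; omega
    by_contra hcon
    rcases Nat.lt_or_ge ((x % H + 7 * d) / H) 37 with hl | hl
    · have : H * ((x % H + 7 * d) / H) ≤ H * 36 := Nat.mul_le_mul_left _ (by omega)
      omega
    · have h38 : (x % H + 7 * d) / H = 38 := by omega
      rw [h38] at hdm
      omega
  rw [hquot] at hdm
  exact wordP hd hk h12 (by rw [← hHdef]; omega) (by rw [← hHdef]; omega) hmono

/-- region just below slope `16 / 3` -/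
theorem regionBM {n d m k : ℕ} (hd : d % 2 = 1) (hk : 3 * d + k = 16 * 2 ^ m) (hk0 : 0 < k)
    (h12 : 12 * k ≤ 2 ^ m) (h32 : 32 ≤ 2 ^ m) : ¬ Mono n d (2 * 2 ^ m + 2 ^ (m + 1) + 1) := by
  intro h
  have hp2 : 2 ^ (m + 1) = 2 * 2 ^ m := by ring
  set H := 2 ^ m with hHdef
  have hH : 0 < H := by omega
  obtain ⟨g, hg⟩ : ∃ g, d = 5 * H + g := ⟨d - 5 * H, by omega⟩
  have m8 := mod_step (n + 7 * d) H g (by omega)
  have m9 := mod_step (n + 8 * d) H g (by omega)
  rw [← hg, show n + 7 * d + d = n + 8 * d by ring] at m8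
  rw [← hg, show n + 8 * d + d = n + 9 * d by ring] at m9
  have l7 := Nat.mod_lt (n + 7 * d) hH
  have l8 := Nat.mod_lt (n + 8 * d) hH
  have l9 := Nat.mod_lt (n + 9 * d) hH
  obtain ⟨i0, hi0, hi1, hs⟩ : ∃ i0, i0 ≤ 9 ∧ 7 ≤ i0 ∧ 5 * ((n + i0 * d) % H) ≤ 2 * H := by
    by_cases c7 : 5 * ((n + 7 * d) % H) ≤ 2 * H
    · exact ⟨7, by norm_num, by norm_num, c7⟩
    · by_cases c8 : 5 * ((n + 8 * d) % H) ≤ 2 * H
      · exact ⟨8, by norm_num, by norm_num, c8⟩
      · exact ⟨9, by norm_num, by norm_num, by omega⟩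
  set s := (n + i0 * d) % H with hsdef
  have hslt : s < H := Nat.mod_lt _ hH
  set q := s / k with hq
  have q1 : q * k ≤ s := Nat.div_mul_le_self _ _
  have q2 : s < q * k + k := by
    have h1 := Nat.div_add_mod s k
    have h2 := Nat.mod_lt s hk0
    rw [← hq, mul_comm] at h1
    omega
  have q3 : q ≤ s := le_trans (Nat.le_mul_of_pos_right q hk0) q1
  set j := i0 - 7 + 3 * q with hj
  have hmono : Mono (n + j * d) d (17 + 2 ^ (m + 1) + 1) := by
    have := h.shift j (by omega)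
    exact this.le (by omega)
  have hev : (n + j * d) + 7 * d + q * k = (n + i0 * d) + q * (16 * H) := by
    rw [← hk]
    obtain ⟨i1, rfl⟩ : ∃ i1, i0 = i1 + 7 := ⟨i0 - 7, by omega⟩
    rw [hj, Nat.add_sub_cancel]; ring
  have hev2 : ((n + j * d) + 7 * d) % H = s - q * k := by
    have hA := Nat.div_add_mod (n + i0 * d) H
    rw [← hsdef] at hA
    have : (n + j * d) + 7 * d = (s - q * k) + H * ((n + i0 * d) / H + 16 * q) := by
      have e1 : H * ((n + i0 * d) / H + 16 * q) = H * ((n + i0 * d) / H) + q * (16 * H) := by ring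
      rw [e1]
      omega
    rw [this, Nat.add_mul_mod_self_left, Nat.mod_eq_of_lt (by omega)]
  set x := n + j * d with hxdef
  have hxlt := Nat.mod_lt x hH
  have hX : (x % H + 7 * d) % H = s - q * k := by
    rw [← hev2, Nat.mod_add_mod]
  have hdm := Nat.div_add_mod (x % H + 7 * d) H
  rw [hX] at hdm
  have hquot : (x % H + 7 * d) / H = 38 := by
    have b1 : (x % H + 7 * d) / H < 39 := by
      apply Nat.div_lt_of_lt_mul; omega
    by_contra hcon
    have : H * ((x % H + 7 * d) / H) ≤ H * 37 := Nat.mul_le_mul_left _ (by omega)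
    omega
  rw [hquot] at hdm
  exact wordM hd hk h12 (by rw [← hHdef]; omega) (by rw [← hHdef]; omega) hmono

/-- **All odd differences between `4 H` and `8 H - 3`, `H = 2 ^ m ≥ 32`.** -/
theorem large {n d m : ℕ} (hd : d % 2 = 1) (h32 : 32 ≤ 2 ^ m) (h4 : 4 * 2 ^ m < d)
    (h8 : d + 3 ≤ 8 * 2 ^ m) : ¬ Mono n d (4 * 2 ^ m + 1) := by
  intro h
  have hp2 : 2 ^ (m + 1) = 2 * 2 ^ m := by ring
  have hJ : ∀ F, F ≤ 2 * 2 ^ m → Mono n d (F + 2 ^ (m + 1) + 1) := fun F hF => h.le (by omega)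
  by_cases c1 : d * 36 < 191 * 2 ^ m
  · exact region 26 4 1 191 36 chkA0 chkA1 hd h4 (by omega) (by omega) c1 (hJ 26 (by omega))
  by_cases c2 : d * 36 ≤ 193 * 2 ^ m
  · -- near 16 / 3
    rcases Nat.lt_trichotomy (3 * d) (16 * 2 ^ m) with hc | hc | hc
    · obtain ⟨k, hk⟩ : ∃ k, 3 * d + k = 16 * 2 ^ m := ⟨16 * 2 ^ m - 3 * d, by omega⟩
      exact regionBM hd hk (by omega) (by omega) h32 (h.le (by omega))
    · have h3 : 3 ∣ 16 * 2 ^ m := ⟨d, hc.symm⟩
      have h4' : 3 ∣ 2 ^ (m + 4) := by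
        rw [pow_add]; rwa [mul_comm]
      have := Nat.Prime.dvd_of_dvd_pow Nat.prime_three h4'
      omega
    · obtain ⟨k, hk⟩ : ∃ k, 3 * d = 16 * 2 ^ m + k := ⟨3 * d - 16 * 2 ^ m, by omega⟩
      exact regionBP hd hk (by omega) (by omega) h32 (h.le (by omega))
  by_cases c3 : d * 10 < 61 * 2 ^ m
  · exact region 36 193 36 61 10 chkB1_0 chkB1_1 hd h4 (by omega) (by omega) c3 (hJ 36 (by omega))
  by_cases c4 : d * 10 < 66 * 2 ^ m
  · exact region 36 6 1 66 10 chkB2_0 chkB2_1 hd h4 (by omega) (by omega) c4 (hJ 36 (by omega))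
  by_cases c5 : d * 10 < 71 * 2 ^ m
  · exact region 36 65 10 71 10 chkB3_0 chkB3_1 hd h4 (by omega) (by omega) c5 (hJ 36 (by omega))
  by_cases c6 : d * 6 < 47 * 2 ^ m
  · exact region 36 7 1 47 6 chkB4_0 chkB4_1 hd h4 (by omega) (by omega) c6 (hJ 36 (by omega))
  · obtain ⟨f, hf⟩ : ∃ f, d + f = 8 * 2 ^ m := ⟨8 * 2 ^ m - d, by omega⟩
    have hf3 : 3 ≤ f := by omega
    have hdiv : (2 * 2 ^ m - 1) / f ≤ (2 * 2 ^ m - 1) / 3 := Nat.div_le_div_left hf3 (by norm_num)
    exact regionC (J := 2 * 2 ^ m) hd hf (by omega) (by omega) (by omega) (h.le (by omega))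

end Pool.Agent.H114.RS
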