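import Pool.Agent.H114.RS.Basic

/-!
A bit-parallel search over all pairs of windows of the Rudin–Shapiro sequence of opposite parity.
-/

set_option autoImplicit false

namespace Pool.Agent.H114.RS

/-- a `2 ^ k`-row bit array with rows of length `1024` -/
def bld (row : ℕ → ℕ) : ℕ → ℕ → ℕ
  | 0, s => row s
  | k + 1, s => bld row k s ||| (bld row k (s + 2 ^ k) <<< (1024 * 2 ^ k))

lemma bld_testBit (row : ℕ → ℕ) (hrow : ∀ x, row x < 2 ^ 1024) (k : ℕ) : ∀ s,
    (∀ i, 1024 * 2 ^ k ≤ i → Nat.testBit (bld row k s) i = false) ∧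
    ∀ x y, x < 2 ^ k → y < 1024 →
      Nat.testBit (bld row k s) (x * 1024 + y) = Nat.testBit (row (s + x)) y := by
  induction k with
  | zero =>
    intro s
    constructor
    · intro i hi
      apply Nat.testBit_lt_two_pow
      refine lt_of_lt_of_le (hrow s) (Nat.pow_le_pow_right (by norm_num) ?_)
      simpa using hi
    · intro x y hx hy
      have : x = 0 := by simpa using hx
      subst this
      simp [bld]
  | succ k ih =>
    intro s
    have hp : 2 ^ (k + 1) = 2 * 2 ^ k := by ring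
    constructor
    · intro i hi
      rw [hp] at hi
      rw [bld, Nat.testBit_or, Nat.testBit_shiftLeft, (ih s).1 i (by omega),
        (ih (s + 2 ^ k)).1 (i - 1024 * 2 ^ k) (by omega)]
      simp
    · intro x y hx hy
      rw [hp] at hx
      rw [bld, Nat.testBit_or, Nat.testBit_shiftLeft]
      rcases Nat.lt_or_ge x (2 ^ k) with h | h
      · rw [(ih s).2 x y h hy]
        have : ¬ (1024 * 2 ^ k ≤ x * 1024 + y) := by omega
        simp [this]
      · obtain ⟨z, rfl⟩ : ∃ z, x = 2 ^ k + z := ⟨x - 2 ^ k, by omega⟩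
        have e1 : (2 ^ k + z) * 1024 + y = 1024 * 2 ^ k + (z * 1024 + y) := by ring
        rw [e1, (ih s).1 _ (by omega)]
        have e2 : 1024 * 2 ^ k + (z * 1024 + y) - 1024 * 2 ^ k = z * 1024 + y := by omega
        rw [e2, (ih (s + 2 ^ k)).2 z y (by omega) hy, add_assoc]
        simp

/-- rows of the first array -/
def rowEO (x : ℕ) : ℕ := cond (Nat.testBit Te x) (To ^^^ (2 ^ 1024 - 1)) To

/-- rows of the second array -/
def rowOE (x : ℕ) : ℕ := cond (Nat.testBit To x) (Te ^^^ (2 ^ 1024 - 1)) Te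

lemma To_lt : To < 2 ^ 1024 := by decide +kernel
lemma Te_lt : Te < 2 ^ 1024 := by decide +kernel
lemma To_lt' : To ^^^ (2 ^ 1024 - 1) < 2 ^ 1024 := by decide +kernel
lemma Te_lt' : Te ^^^ (2 ^ 1024 - 1) < 2 ^ 1024 := by decide +kernel

lemma rowEO_lt (x : ℕ) : rowEO x < 2 ^ 1024 := by
  unfold rowEO
  cases Nat.testBit Te x
  · exact To_lt
  · exact To_lt'

lemma rowOE_lt (x : ℕ) : rowOE x < 2 ^ 1024 := by
  unfold rowOE
  cases Nat.testBit To x
  · exact Te_lt
  · exact Te_lt'

lemma rowEO_testBit (x y : ℕ) (hy : y < 1024) :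
    Nat.testBit (rowEO x) y = xor (Nat.testBit Te x) (Nat.testBit To y) := by
  unfold rowEO
  cases Nat.testBit Te x
  · simp
  · rw [cond_true, Nat.testBit_xor, Nat.testBit_two_pow_sub_one]
    simp [hy]

lemma rowOE_testBit (x y : ℕ) (hy : y < 1024) :
    Nat.testBit (rowOE x) y = xor (Nat.testBit To x) (Nat.testBit Te y) := by
  unfold rowOE
  cases Nat.testBit To x
  · simp
  · rw [cond_true, Nat.testBit_xor, Nat.testBit_two_pow_sub_one]
    simp [hy]

def Zeo : ℕ := bld rowEO 10 0
def Zoe : ℕ := bld rowOE 10 0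

lemma Zeo_spec (x y : ℕ) (hx : x < 1024) (hy : y < 1024) :
    Nat.testBit Zeo (x * 1024 + y) = xor (Nat.testBit Te x) (Nat.testBit To y) := by
  have := (bld_testBit rowEO rowEO_lt 10 0).2 x y (by norm_num; exact hx) hy
  rw [Zeo, this, zero_add, rowEO_testBit x y hy]

lemma Zoe_spec (x y : ℕ) (hx : x < 1024) (hy : y < 1024) :
    Nat.testBit Zoe (x * 1024 + y) = xor (Nat.testBit To x) (Nat.testBit Te y) := by
  have := (bld_testBit rowOE rowOE_lt 10 0).2 x y (by norm_num; exact hx) hy
  rw [Zoe, this, zero_add, rowOE_testBit x y hy]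

/-- rows of the initial mask -/
def rowM : ℕ :=
  (2 ^ 64 - 1) * (1 + 2 ^ 128 + 2 ^ 256 + 2 ^ 384 + 2 ^ 512 + 2 ^ 640 + 2 ^ 768 + 2 ^ 896)

lemma rowM_spec : ∀ y < 1024, y % 128 < 64 → Nat.testBit rowM y = true := by decide +kernel

lemma rowM_lt : rowM < 2 ^ 1024 := by decide +kernel

def rowS (x : ℕ) : ℕ := cond (Nat.blt (x % 128) 64) rowM 0

lemma rowS_lt (x : ℕ) : rowS x < 2 ^ 1024 := by
  unfold rowS
  cases Nat.blt (x % 128) 64
  · rw [cond_false]; positivity
  · exact rowM_lt

/-- the initial set of pairs -/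
def S0 : ℕ := bld rowS 10 0

lemma S0_spec (x y : ℕ) (hx : x < 1024) (hy : y < 1024) (hx' : x % 128 < 64)
    (hy' : y % 128 < 64) : Nat.testBit S0 (x * 1024 + y) = true := by
  have := (bld_testBit rowS rowS_lt 10 0).2 x y (by norm_num; exact hx) hy
  rw [S0, this, zero_add]
  have h2 : rowS x = rowM := by
    unfold rowS
    have : Nat.blt (x % 128) 64 = true := by
      rw [Nat.blt_eq]; exact hx'
    rw [this]; rfl
  rw [h2]
  exact rowM_spec y hy hy'

/-- the pairs of `S` whose values at distance `t / 2` differ iff `t` is odd -/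
def filt (S t : ℕ) : ℕ :=
  let h := t / 2 / 2
  cond (Nat.beq (t / 2 % 2) 0)
    (cond (Nat.beq (t % 2) 0) (S ^^^ (S &&& (Zeo >>> (1025 * h)))) (S &&& (Zeo >>> (1025 * h))))
    (cond (Nat.beq (t % 2) 0) (S ^^^ (S &&& (Zoe >>> (1025 * h + 1))))
      (S &&& (Zoe >>> (1025 * h + 1))))

/-- an even position `E` and an odd position `O` together with their index -/
structure Pair (E O idx : ℕ) : Prop where
  ex : ∃ a i a' i', i < 64 ∧ i' < 64 ∧ E = 128 * a + 2 * i ∧ O = 128 * a' + (2 * i' + 1) ∧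
    idx = (128 * ctx (decide (a % 2 = 1)) (rb a) (rb (a + 1)) + i) * 1024 +
      (128 * ctx (decide (a' % 2 = 1)) (rb a') (rb (a' + 1)) + i')

lemma Pair.mk' (E O : ℕ) (hE : E % 2 = 0) (hO : O % 2 = 1) : ∃ idx, Pair E O idx := by
  refine ⟨_, ⟨E / 128, E % 128 / 2, O / 128, O % 128 / 2, ?_, ?_, ?_, ?_, rfl⟩⟩ <;> omega

lemma Pair.mem_S0 {E O idx : ℕ} (h : Pair E O idx) : Nat.testBit S0 idx = true := by
  obtain ⟨a, i, a', i', hi, hi', _, _, rfl⟩ := h.ex
  have h1 := ctx_lt (decide (a % 2 = 1)) (rb a) (rb (a + 1))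
  have h2 := ctx_lt (decide (a' % 2 = 1)) (rb a') (rb (a' + 1))
  exact S0_spec _ _ (by omega) (by omega) (by omega) (by omega)

lemma Pair.even {E O idx : ℕ} (h : Pair E O idx) (k : ℕ) (hk : k ≤ 63) :
    Nat.testBit (Zeo >>> (1025 * k)) idx = xor (rb (E + 2 * k)) (rb (O + 2 * k)) := by
  obtain ⟨a, i, a', i', hi, hi', rfl, rfl, rfl⟩ := h.ex
  have h1 := ctx_lt (decide (a % 2 = 1)) (rb a) (rb (a + 1))
  have h2 := ctx_lt (decide (a' % 2 = 1)) (rb a') (rb (a' + 1))
  rw [Nat.testBit_shiftRight]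
  have e1 : 1025 * k + ((128 * ctx (decide (a % 2 = 1)) (rb a) (rb (a + 1)) + i) * 1024 +
      (128 * ctx (decide (a' % 2 = 1)) (rb a') (rb (a' + 1)) + i')) =
      (128 * ctx (decide (a % 2 = 1)) (rb a) (rb (a + 1)) + (i + k)) * 1024 +
      (128 * ctx (decide (a' % 2 = 1)) (rb a') (rb (a' + 1)) + (i' + k)) := by ring
  rw [e1, Zeo_spec _ _ (by omega) (by omega), Te_spec _ (by omega), To_spec _ (by omega)]
  rw [show 128 * a + 2 * i + 2 * k = 128 * a + 2 * (i + k) by ring,
    show 128 * a' + (2 * i' + 1) + 2 * k = 128 * a' + (2 * (i' + k) + 1) by ring,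
    rb_win a _ (by omega), rb_win a' _ (by omega)]

lemma Pair.odd {E O idx : ℕ} (h : Pair E O idx) (k : ℕ) (hk : k ≤ 63) :
    Nat.testBit (Zoe >>> (1025 * k + 1)) idx = xor (rb (E + (2 * k + 1))) (rb (O + (2 * k + 1))) := by
  obtain ⟨a, i, a', i', hi, hi', rfl, rfl, rfl⟩ := h.ex
  have h1 := ctx_lt (decide (a % 2 = 1)) (rb a) (rb (a + 1))
  have h2 := ctx_lt (decide (a' % 2 = 1)) (rb a') (rb (a' + 1))
  rw [Nat.testBit_shiftRight]
  have e1 : 1025 * k + 1 + ((128 * ctx (decide (a % 2 = 1)) (rb a) (rb (a + 1)) + i) * 1024 +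
      (128 * ctx (decide (a' % 2 = 1)) (rb a') (rb (a' + 1)) + i')) =
      (128 * ctx (decide (a % 2 = 1)) (rb a) (rb (a + 1)) + (i + k)) * 1024 +
      (128 * ctx (decide (a' % 2 = 1)) (rb a') (rb (a' + 1)) + (i' + k + 1)) := by ring
  rw [e1, Zoe_spec _ _ (by omega) (by omega), To_spec _ (by omega), Te_spec _ (by omega)]
  rw [show 128 * a + 2 * i + (2 * k + 1) = 128 * a + (2 * (i + k) + 1) by ring,
    show 128 * a' + (2 * i' + 1) + (2 * k + 1) = 128 * a' + (2 * (i' + k + 1)) by ring,
    rb_win a _ (by omega), rb_win a' _ (by omega)]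

/-- the constraint -/
def Con (E O t : ℕ) : Prop := xor (rb (E + t / 2)) (rb (O + t / 2)) = decide (t % 2 = 1)

lemma Pair.filt {E O idx : ℕ} (h : Pair E O idx) (S t : ℕ) (ht : t ≤ 255) (hc : Con E O t)
    (hS : Nat.testBit S idx = true) : Nat.testBit (filt S t) idx = true := by
  unfold Con at hc
  unfold RS.filt
  dsimp only
  rcases Nat.mod_two_eq_zero_or_one (t / 2) with hq | hq
  · have e1 : Nat.beq (t / 2 % 2) 0 = true := by rw [hq]; rfl
    rw [e1, cond_true]
    have h1 := h.even (t / 2 / 2) (by omega)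
    rw [show 2 * (t / 2 / 2) = t / 2 by omega, hc] at h1
    rcases Nat.mod_two_eq_zero_or_one t with ht2 | ht2
    · have e2 : Nat.beq (t % 2) 0 = true := by rw [ht2]; rfl
      rw [e2, cond_true, Nat.testBit_xor, Nat.testBit_and, h1, hS, ht2]
      rfl
    · have e2 : Nat.beq (t % 2) 0 = false := by rw [ht2]; rfl
      rw [e2, cond_false, Nat.testBit_and, h1, hS, ht2]
      rfl
  · have e1 : Nat.beq (t / 2 % 2) 0 = false := by rw [hq]; rfl
    rw [e1, cond_false]
    have h1 := h.odd (t / 2 / 2) (by omega)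
    rw [show 2 * (t / 2 / 2) + 1 = t / 2 by omega, hc] at h1
    rcases Nat.mod_two_eq_zero_or_one t with ht2 | ht2
    · have e2 : Nat.beq (t % 2) 0 = true := by rw [ht2]; rfl
      rw [e2, cond_true, Nat.testBit_xor, Nat.testBit_and, h1, hS, ht2]
      rfl
    · have e2 : Nat.beq (t % 2) 0 = false := by rw [ht2]; rfl
      rw [e2, cond_false, Nat.testBit_and, h1, hS, ht2]
      rfl

/-! ### Explicit words -/

/-- filter by all entries of a list -/
def wfilt : List ℕ → ℕ → ℕ
  | [], S => S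
  | t :: l, S => wfilt l (filt S t)

theorem Pair.wfilt {E O idx : ℕ} (h : Pair E O idx) (l : List ℕ) : ∀ S,
    (∀ t ∈ l, t ≤ 255 ∧ Con E O t) → Nat.testBit S idx = true →
    Nat.testBit (wfilt l S) idx = true := by
  induction l with
  | nil => intro S _ hS; exact hS
  | cons t l ih =>
    intro S hl hS
    have h1 := hl t (by simp)
    exact ih _ (fun t' ht' => hl t' (by simp [ht'])) (h.filt S t h1.1 h1.2 hS)

theorem word_contra (E O : ℕ) (hE : E % 2 = 0) (hO : O % 2 = 1) (l : List ℕ)
    (hw : Nat.beq (wfilt l S0) 0 = true) (hl : ∀ t ∈ l, t ≤ 255 ∧ Con E O t) : False := by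
  obtain ⟨idx, h⟩ := Pair.mk' E O hE hO
  have h1 := h.wfilt l S0 hl h.mem_S0
  rw [Nat.eq_of_beq_eq_true hw] at h1
  simp at h1

/-! ### The search -/

/-- update the slope interval `(a / b, c / e)` using all pairs -/
def upd (t : ℕ) (K : ℕ → ℕ → ℕ → ℕ → Bool) : List ℕ → ℕ → ℕ → ℕ → ℕ → ℕ → Bool
  | [], _, a, b, c, e => K a b c e
  | s :: l, k, a, b, c, e =>
    cond (Nat.ble ((t - s - 1) * b) (a * k))
      (cond (Nat.ble (c * k) ((t - s + 1) * e)) (upd t K l (k + 1) a b c e)
        (cond (Nat.ble ((t - s + 1) * b) (a * k)) true (upd t K l (k + 1) a b (t - s + 1) k)))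
      (cond (Nat.ble (c * k) ((t - s + 1) * e))
        (cond (Nat.ble (c * k) ((t - s - 1) * e)) true (upd t K l (k + 1) (t - s - 1) k c e))
        (upd t K l (k + 1) (t - s - 1) k (t - s + 1) k))

/-- one step of the search -/
def srch : ℕ → List ℕ → ℕ → ℕ → ℕ → ℕ → ℕ → ℕ → Bool
  | 0, _, _, _, _, _, _, _ => false
  | n + 1, l, t, a, b, c, e, S =>
    (upd (t + 4) (fun a b c e => Nat.ble (t + 4) 255 && (Nat.beq (filt S (t + 4)) 0 ||
      srch n ((t + 4) :: l) (t + 4) a b c e (filt S (t + 4)))) l 1 a b c e) &&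
    ((upd (t + 5) (fun a b c e => Nat.ble (t + 5) 255 && (Nat.beq (filt S (t + 5)) 0 ||
      srch n ((t + 5) :: l) (t + 5) a b c e (filt S (t + 5)))) l 1 a b c e) &&
    ((upd (t + 6) (fun a b c e => Nat.ble (t + 6) 255 && (Nat.beq (filt S (t + 6)) 0 ||
      srch n ((t + 6) :: l) (t + 6) a b c e (filt S (t + 6)))) l 1 a b c e) &&
    ((upd (t + 7) (fun a b c e => Nat.ble (t + 7) 255 && (Nat.beq (filt S (t + 7)) 0 ||
      srch n ((t + 7) :: l) (t + 7) a b c e (filt S (t + 7)))) l 1 a b c e) &&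
    (upd (t + 8) (fun a b c e => Nat.ble (t + 8) 255 && (Nat.beq (filt S (t + 8)) 0 ||
      srch n ((t + 8) :: l) (t + 8) a b c e (filt S (t + 8)))) l 1 a b c e))))

/-- the pair constraints for a history -/
def Good (H d t : ℕ) : List ℕ → ℕ → Prop
  | [], _ => True
  | s :: l, k => (t - s - 1) * H < k * d ∧ k * d < (t - s + 1) * H ∧ Good H d t l (k + 1)

lemma upd_sound (H d t : ℕ) (K : ℕ → ℕ → ℕ → ℕ → Bool) (l : List ℕ) : ∀ k a b c e, 0 < k →
    upd t K l k a b c e = true → Good H d t l k → a * H < d * b → d * e < c * H →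
    ∃ a' b' c' e', a' * H < d * b' ∧ d * e' < c' * H ∧ K a' b' c' e' = true := by
  induction l with
  | nil =>
    intro k a b c e _ h _ h1 h2
    exact ⟨a, b, c, e, h1, h2, h⟩
  | cons s l ih =>
    intro k a b c e hk h hg h1 h2
    obtain ⟨g1, g2, g3⟩ := hg
    rw [upd] at h
    have n1 : (t - s - 1) * H < d * k := by rw [mul_comm d k]; exact g1
    have n2 : d * k < (t - s + 1) * H := by rw [mul_comm d k]; exact g2
    generalize t - s - 1 = x at *
    generalize t - s + 1 = y at *
    cases hA : Nat.ble (x * b) (a * k) with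
    | true =>
      rw [hA, cond_true] at h
      cases hB : Nat.ble (c * k) (y * e) with
      | true =>
        rw [hB, cond_true] at h
        exact ih (k + 1) a b c e (by omega) h g3 h1 h2
      | false =>
        rw [hB, cond_false] at h
        cases hC : Nat.ble (y * b) (a * k) with
        | true =>
          exfalso
          have hC' := Nat.le_of_ble_eq_true hC
          have q1 : a * H * k < d * b * k := Nat.mul_lt_mul_of_pos_right h1 hk
          have q2 : d * k * b ≤ y * H * b := Nat.mul_le_mul_right b n2.le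
          have q3 : y * b * H ≤ a * k * H := Nat.mul_le_mul_right H hC'
          have e1 : a * H * k = a * k * H := by ring
          have e2 : d * b * k = d * k * b := by ring
          have e3 : y * H * b = y * b * H := by ring
          omega
        | false =>
          rw [hC, cond_false] at h
          exact ih (k + 1) a b y k (by omega) h g3 h1 n2
    | false =>
      rw [hA, cond_false] at h
      cases hB : Nat.ble (c * k) (y * e) with
      | true =>
        rw [hB, cond_true] at h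
        cases hC : Nat.ble (c * k) (x * e) with
        | true =>
          exfalso
          have hC' := Nat.le_of_ble_eq_true hC
          have q1 : d * e * k < c * H * k := Nat.mul_lt_mul_of_pos_right h2 hk
          have q2 : x * H * e ≤ d * k * e := Nat.mul_le_mul_right e n1.le
          have q3 : c * k * H ≤ x * e * H := Nat.mul_le_mul_right H hC'
          have e1 : c * H * k = c * k * H := by ring
          have e2 : d * e * k = d * k * e := by ring
          have e3 : x * H * e = x * e * H := by ring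
          omega
        | false =>
          rw [hC, cond_false] at h
          exact ih (k + 1) x k c e (by omega) h g3 n1 h2
      | false =>
        rw [hB, cond_false] at h
        exact ih (k + 1) x k y k (by omega) h g3 n1 n2

end Pool.Agent.H114.RS
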