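import Pool.Agent.H114.RS.Regions

/-!
The search for slopes between `8` and `9`, and explicit words for slopes above `8` and near `32 / 3`.
-/

set_option autoImplicit false
set_option maxRecDepth 100000

namespace Pool.Agent.H114.RS

def srch9 : ℕ → List ℕ → ℕ → ℕ → ℕ → ℕ → ℕ → ℕ → Bool
  | 0, _, _, _, _, _, _, _ => false
  | n + 1, l, t, a, b, c, e, S =>
    (upd (t + 8) (fun a b c e => Nat.ble (t + 8) 255 && (Nat.beq (filt S (t + 8)) 0 ||
      srch9 n ((t + 8) :: l) (t + 8) a b c e (filt S (t + 8)))) l 1 a b c e) &&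
    (upd (t + 9) (fun a b c e => Nat.ble (t + 9) 255 && (Nat.beq (filt S (t + 9)) 0 ||
      srch9 n ((t + 9) :: l) (t + 9) a b c e (filt S (t + 9)))) l 1 a b c e)

variable {x0 d H : ℕ}

lemma gap_bounds9 (hH : 0 < H) (h8 : 8 * H < d) (h9 : d < 9 * H) (m : ℕ) :
    ∃ g, 8 ≤ g ∧ g ≤ 9 ∧ T x0 d H (m + 1) = T x0 d H m + g := by
  have h := pair_ineq (x0 := x0) (d := d) hH (by omega) m 1 (by norm_num)
  have h1 := T_add (x0 := x0) (d := d) (H := H) m
  have h2 := T_add (x0 := x0) (d := d) (H := H) (m + 1)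
  have h3 := P_mono (x0 := x0) (d := d) (H := H) m (m + 1) (Nat.le_add_right _ _)
  refine ⟨T x0 d H (m + 1) - T x0 d H m, ?_, ?_, by omega⟩
  · have h5 : 8 * H < (T x0 d H (m + 1) - T x0 d H m + 1) * H := by omega
    have := Nat.lt_of_mul_lt_mul_right h5
    omega
  · have h5 : (T x0 d H (m + 1) - T x0 d H m - 1) * H < 9 * H := by omega
    have := Nat.lt_of_mul_lt_mul_right h5
    omega

theorem srch9_sound {E O idx : ℕ} (hp : Pair E O idx) (hH : 0 < H) (h8 : 8 * H < d)
    (h9 : d < 9 * H) (n : ℕ) : ∀ m a b c e S, srch9 n (hist x0 d H m) (T x0 d H m) a b c e S = true →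
    a * H < d * b → d * e < c * H → Nat.testBit S idx = true →
    (∀ i ≤ m + n, Con E O (T x0 d H i)) → False := by
  induction n with
  | zero => intro m a b c e S h; simp [srch9] at h
  | succ n ih =>
    intro m a b c e S h h1 h2 hS hc
    obtain ⟨g, hg4, hg8, hg⟩ := gap_bounds9 (x0 := x0) hH h8 h9 m
    have hgood := good_hist (x0 := x0) (d := d) hH (by omega) m 1 (by norm_num)
    rw [srch9, Bool.and_eq_true] at h
    obtain ⟨k8, k9⟩ := h
    have key : ∀ g, T x0 d H (m + 1) = T x0 d H m + g →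
        upd (T x0 d H m + g) (fun a b c e => Nat.ble (T x0 d H m + g) 255 &&
          (Nat.beq (filt S (T x0 d H m + g)) 0 ||
          srch9 n ((T x0 d H m + g) :: hist x0 d H m) (T x0 d H m + g) a b c e
            (filt S (T x0 d H m + g)))) (hist x0 d H m) 1 a b c e = true → False := by
      intro g hg hu
      rw [← hg] at hu
      obtain ⟨a', b', c', e', q1, q2, q3⟩ := upd_sound H d _ _ _ 1 a b c e (by norm_num) hu
        hgood h1 h2
      rw [Bool.and_eq_true, Bool.or_eq_true] at q3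
      obtain ⟨q4, q5⟩ := q3
      have hf := hp.filt S (T x0 d H (m + 1)) (Nat.le_of_ble_eq_true q4) (hc (m + 1) (by omega)) hS
      rcases q5 with q5 | q5
      · rw [Nat.eq_of_beq_eq_true q5] at hf
        simp at hf
      · exact ih (m + 1) a' b' c' e' _ q5 q1 q2 hf (fun i hi => hc i (by omega))
    have : g = 8 ∨ g = 9 := by omega
    rcases this with rfl | rfl
    · exact key 8 hg k8
    · exact key 9 hg k9

theorem region9 (F a b c e : ℕ)
    (s0 : srch9 F [0] 0 a b c e (filt S0 0) = true) (s1 : srch9 F [1] 1 a b c e (filt S0 1) = true)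
    {x0 d m : ℕ} (hd : d % 2 = 1) (h8 : 8 * 2 ^ m < d) (h9 : d < 9 * 2 ^ m)
    (h1 : a * 2 ^ m < d * b) (h2 : d * e < c * 2 ^ m) : ¬ Mono x0 d (F + 2 ^ (m + 1) + 1) := by
  intro h
  obtain ⟨E, O, hE, hO, hc⟩ := exists_pair hd h
  obtain ⟨idx, hp⟩ := Pair.mk' E O hE hO
  have hH : 0 < 2 ^ m := by positivity
  have hT0 : T x0 d (2 ^ m) 0 = 0 ∨ T x0 d (2 ^ m) 0 = 1 := by
    unfold T
    rw [zero_mul, add_zero]
    omega
  have hf : Nat.testBit (filt S0 (T x0 d (2 ^ m) 0)) idx = true :=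
    hp.filt S0 _ (by omega) (hc 0 (Nat.zero_le _)) hp.mem_S0
  refine srch9_sound (x0 := x0) (d := d) (H := 2 ^ m) hp hH h8 h9 F 0 a b c e
    (filt S0 (T x0 d (2 ^ m) 0)) ?_ h1 h2 hf (fun i hi => hc i (by omega))
  rcases hT0 with h0 | h0
  · show srch9 F [T x0 d (2 ^ m) 0] _ a b c e _ = true
    rw [h0]; exact s0
  · show srch9 F [T x0 d (2 ^ m) 0] _ a b c e _ = true
    rw [h0]; exact s1

lemma chk9_0 : srch9 23 [0] 0 57 7 35 4 (filt S0 0) = true := by decide +kernel
lemma chk9_1 : srch9 23 [1] 1 57 7 35 4 (filt S0 1) = true := by decide +kernel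

/-- wrap event just above slope `8` -/
def lD : List ℕ := [1, 9, 17, 25, 33, 41, 49, 58, 66, 74, 82, 90, 98, 106]

/-- events near slope `32 / 3` -/
def lQ : List ℕ := [0, 11, 22, 32, 43, 54, 64, 75, 86, 97, 107, 118, 129, 139, 150, 161]
def lR : List ℕ := [1, 11, 22, 33, 43, 54, 65, 75, 86, 96, 107, 118, 128, 139, 150, 160]

lemma chkD : Nat.beq (wfilt lD S0) 0 = true := by decide +kernel
lemma chkQ : Nat.beq (wfilt lQ S0) 0 = true := by decide +kernel
lemma chkR : Nat.beq (wfilt lR S0) 0 = true := by decide +kernel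

end Pool.Agent.H114.RS
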