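import Pool.Agent.H114.RS.Brute16

/-!
Tables for small differences.
-/

set_option autoImplicit false
set_option maxRecDepth 100000

namespace Pool.Agent.H114.RS

lemma tabS : ∀ p ∈ [(3, 16), (23, 15), (25, 16), (27, 17), (29, 18), (33, 20), (35, 21), (37, 22),
    (39, 23)], chkAP p.1 p.2 = true := by decide +kernel
lemma tabM : ∀ i < 11, chkAP (2 * i + 41) 24 = true := by decide +kernel
lemma tab1 : ∀ i < 62, chkB (2 * i + 131) 26 = true := by decide +kernel

end Pool.Agent.H114.RS
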